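import Pool.Agent.Lib.K3S.SDefs

/-! Definitions used in the statement: Dolbeault cohomology with values in a line bundle, and the
numerical dimension of a nef class. -/

open scoped ContDiff Matrix
open MeasureTheory

noncomputable section

namespace Pool.Agent.Lib.KS

open Pool.Agent.Lib.SV Pool.Agent.Lib.HS Pool.Agent.Lib.HW Pool.Agent.Lib.ZK47 Pool.Agent.Lib.EX

variable {n : ℕ} {X ι I : Type} [TopologicalSpace X] [ChartedSpace (E n) X] [Fintype I]

/-- A `(0,q)`-form with values in `m K` is given by its values `α y` in the preferred charts, which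
are alternating forms in the conjugate vectors. This is its value on `v` at the point with
coordinate `z` in the chart at `x`. -/
def rd {q : ℕ} (m : ℕ) (α : X → E n [⋀^Fin q]→ₗ[ℂ] ℂ) (x : X) (v : Fin q → E n) (z : E n) : ℂ :=
  α ((chartAt (E n) x).symm z) (fun s => star (jacM x z *ᵥ v s)) * jacAt n X x z ^ m

/-- The value on `v` of the form `∂-bar α` at `x`. -/
def db {q : ℕ} (m : ℕ) (α : X → E n [⋀^Fin q]→ₗ[ℂ] ℂ) (x : X) (v : Fin (q + 1) → E n) : ℂ :=
  ∑ s : Fin (q + 1), (-1) ^ (s : ℕ) *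
    ((fderiv ℝ (rd m α x (s.removeNth v)) (chartAt (E n) x x) (v s) + Complex.I *
      fderiv ℝ (rd m α x (s.removeNth v)) (chartAt (E n) x x) (Complex.I • v s)) / 2)

variable (n) (U : ι → Set X) (u : I → ι → ι → X → ℂ) (m : ℕ) (p : I → ℤ)

/-- Smooth `(0,q)`-forms with values in `m K + ∑ p k D k`, where `D k` has the transition
functions `u k i j`; the representative on `U i` is zero outside `U i`. -/
def Sm (q : ℕ) : Set (ι → X → E n [⋀^Fin q]→ₗ[ℂ] ℂ) :=
  {α | ∀ i x, (x ∉ U i → α i x = 0) ∧ (x ∈ U i →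
    (∀ v, ContDiffAt ℝ ∞ (rd m (α i) x v) (chartAt (E n) x x)) ∧
      ∀ j, x ∈ U j → α i x = (∏ k, u k i j x ^ p k) • α j x)}

/-- The closed forms. In degree zero these are the holomorphic sections. -/
def Cl (q : ℕ) : Set (ι → X → E n [⋀^Fin q]→ₗ[ℂ] ℂ) :=
  {α ∈ Sm n U u m p q | ∀ i, ∀ x ∈ U i, db m (α i) x = 0}

/-- The exact forms. -/
def Ex : (q : ℕ) → Set (ι → X → E n [⋀^Fin q]→ₗ[ℂ] ℂ)
  | 0 => {0}
  | q + 1 => {β ∈ Sm n U u m p (q + 1) | ∃ α ∈ Sm n U u m p q, ∀ i, ∀ x ∈ U i, ∀ v,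
      β i x (fun s => star (v s)) = db m (α i) x v}

/-- The dimension of the Dolbeault group `H^q (X, m K + ∑ p k D k)`: closed modulo exact forms. -/
def hq (q : ℕ) : ℕ := Module.finrank ℂ
  ((Submodule.span ℂ (Cl n U u m p q)).map (Submodule.span ℂ (Ex n U u m p q)).mkQ)

variable {n}

/-- The class `N = K + ∑ b k D k` has numerical dimension at most `d`: if `Θ` is the curvature form
of a smooth metric `exp (-φ) / det G` on it, the volume `∫ (Θ + ε G) ^ n` is `O (ε ^ (n - d))`. -/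
def NuLe (G : X → Mat n) (b : I → ℝ) (d : ℕ) : Prop :=
  ∃ (φ : ι → X → ℝ) (Θ : X → Mat n) (r : ℕ) (x : Fin r → X) (B : Fin r → Set (E n)) (C : ℝ),
    Glue U u b (fun i y => φ i y) ∧ Cells x B ∧ (∀ i, ∀ y ∈ U i,
      ContDiffAt ℝ ∞ (φ i ∘ (chartAt (E n) y).symm) (chartAt (E n) y y) ∧ (Θ y).IsHermitian ∧
      ∀ v, levi (fun z => φ i ((chartAt (E n) y).symm z) + Real.log (inChart G y z).det.re)
        (chartAt (E n) y y) v = (star v ⬝ᵥ Θ y *ᵥ v).re) ∧
    ∀ ε ∈ Set.Ioc (0 : ℝ) 1,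
      ∑ k, ∫ z in B k, (inChart (Θ + ε • G) (x k) z).det.re ≤ C * ε ^ (n - d)

/-- The hypersurfaces `f k i = 0` meet transversally in pairs, and some `∑ w k D k` with all
`w k > 0` has a smooth metric `exp (-φ)` whose curvature form is less than a multiple of `β`. -/
def Amp (β : X → Mat n) (f : I → ι → X → ℂ) : Prop :=
  (∀ j k i, j ≠ k → ∀ x ∈ U i, f j i x = 0 → f k i x = 0 →
    ∃ v, dAt n (f j i) x v = 0 ∧ dAt n (f k i) x v ≠ 0) ∧
  ∃ (w : I → ℕ) (φ : ι → X → ℝ) (C : ℝ), (∀ k, 0 < w k) ∧ Glue U u (w ·) (fun i y => φ i y) ∧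
    ∀ i, ∀ y ∈ U i, ContDiffAt ℝ ∞ (φ i ∘ (chartAt (E n) y).symm) (chartAt (E n) y y) ∧ ∀ v ≠ 0,
      levi (φ i ∘ (chartAt (E n) y).symm) (chartAt (E n) y y) v < C * (star v ⬝ᵥ β y *ᵥ v).re

end Pool.Agent.Lib.KS
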