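import Pool.Agent.Lib.KS.Stmt
import Pool.Agent.Lib.KBO.Inf

/-! Project ks: Dolbeault classes give holomorphic multivectors; the outer layer. Blueprint. -/

open scoped Classical Topology ContDiff ComplexOrder Matrix Manifold ENNReal NNReal
open Set MeasureTheory Complex Metric Filter

set_option linter.unusedVariables false

noncomputable section

namespace Pool.Agent.Lib.KS

open Pool.Agent.Lib.SV (E Pluri)
open Pool.Agent.Lib.HS32 Pool.Agent.Lib.HLK Pool.Agent.Lib.GH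
open Pool.Agent.Lib.K3S (Dk Semi Ctr NefW)
open Pool.Agent.Lib.K3E (cmpt)
open Pool.Agent.Lib.IDX (geo)
open Pool.Agent.Lib.KP (HolAt)
open Pool.Agent.Lib.KP.T6 (rs)
open Pool.Agent.Lib.HS.BBR (mf)
open Pool.Agent.Lib.RB.R32 (fam)
open Pool.Agent.Lib.ZK47 (Glue)

/-! ### Coordinates -/

/-- The flat operator. -/
def fq {n : ℕ} (f : E n → Fs n → ℂ) (z : E n) : Fs n → ℂ := ∑ l, cr l *ᵥ dzbv l f z

/-- The local homotopy. -/
def St_LOC : Prop := ∀ (n : ℕ) (r : ℝ), 0 < r →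
  ∃ (K : (E n → Fs n → ℂ) → E n → Fs n → ℂ) (ρ : E n → ℝ) (C : ℝ≥0),
    ContDiff ℝ ∞ ρ ∧ HasCompactSupport ρ ∧
    (∀ f g, ContDiff ℝ ∞ f → ContDiff ℝ ∞ g → K (f - g) = K f - K g) ∧
    ∀ f, ContDiff ℝ ∞ f → ContDiff ℝ ∞ (K f) ∧
      (∀ z, f z = ∫ x, ρ (z - x) • f x + fq (K f) z + K (fq f) z) ∧
      ∀ S, MeasurableSet S → ∫⁻ z in S, ‖K f z‖ₑ ^ 2 ≤ C * ∫⁻ z in cthickening r S, ‖f z‖ₑ ^ 2

/-- The smooth limit. -/
def St_LIM : Prop := ∀ (n : ℕ) (ρ : E n → ℝ) (K : Set (E n)) (f : ℕ → E n → Fs n → ℂ),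
  ContDiff ℝ ∞ ρ → HasCompactSupport ρ → IsCompact K →
  (∀ j, Continuous (f j) ∧ ∀ z ∉ K, f j z = 0) →
  Tendsto (fun p : ℕ × ℕ => ∫⁻ z, ‖f p.1 z - f p.2 z‖ₑ ^ 2) atTop (𝓝 0) →
  ∃ a, ContDiff ℝ ∞ a ∧ TendstoUniformly (fun j z => ∫ x, ρ (z - x) • f j x) a atTop

/-! ### The abstract part -/

section abs

variable {X C : Type} [TopologicalSpace X] [AddCommGroup C] (N : Set X → C → ℝ) (Q : C →+ C)

/-- Local squared norms, a differential and cut-off operators. -/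
structure Loc : Prop where
  nn : ∀ S r, 0 ≤ N S r
  emp : ∀ r, N ∅ r = 0
  add : ∀ S r r', N S (r + r') ≤ 2 * N S r + 2 * N S r'
  neg : ∀ S r, N S (-r) = N S r
  mono : ∀ S S' r, S ⊆ S' → N S r ≤ N S' r
  un : ∀ S S' r, N (S ∪ S') r ≤ N S r + N S' r
  qq : ∀ r, Q (Q r) = 0
  cut : ∀ K V, IsClosed K → IsOpen V → K ⊆ V → ∃ (m c : C →+ C) (W : Set X) (A : ℝ), IsOpen W ∧
    K ⊆ W ∧ 0 ≤ A ∧ ∀ r, Q (m r) = m (Q r) + c r ∧ ∀ S, IsOpen S →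
      N S (m r) ≤ A * N (S ∩ V) r ∧ N S (c r) ≤ A * N (S ∩ V) r ∧ N S (r - m r) ≤ A * N S r ∧
      N (S ∩ W) (r - m r) = 0 ∧ N (S ∩ W) (c r) = 0

/-- Cauchy sequences. -/
def Cau (b : ℕ → C) : Prop := Tendsto (fun p : ℕ × ℕ => N univ (b p.1 - b p.2)) atTop (𝓝 0)

/-- Sequences that tend to zero near `K`. -/
def Nul (K : Set X) (r : ℕ → C) : Prop :=
  ∃ V, IsOpen V ∧ K ⊆ V ∧ Tendsto (fun j => N V (r j)) atTop (𝓝 0)

/-- Regularity near `K`. -/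
def Pk (K : Set X) : Prop := ∀ b a₀, Cau N b → Nul N K (fun j => Q (b j) - a₀) →
  ∃ a b', Cau N b' ∧ Nul N K fun j => b j - a - Q (b' j)

end abs

/-- Gluing. -/
def St_MV : Prop := ∀ (X C : Type) [TopologicalSpace X] [CompactSpace X] [T2Space X]
  [AddCommGroup C] (N : Set X → C → ℝ) (Q : C →+ C), Loc N Q →
  (∀ x, ∃ O ∈ 𝓝 x, ∀ K ⊆ O, IsCompact K → Pk N Q K) → Pk N Q univ

/-- The range is closed. -/
def St_RED : Prop := ∀ (C : Type) [SeminormedAddCommGroup C] [InnerProductSpace ℂ C]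
  (P Q : C →ₗ[ℂ] C), (∀ a b, inner ℂ (Q a) b = -inner ℂ a (P b)) →
  (∀ a b, inner ℂ (Q a) (P b) = 0) →
  (∀ u w : UniformSpace.Completion C, (∀ s : C,
    inner ℂ u ((Q s + P s : C) : UniformSpace.Completion C) =
      inner ℂ w (s : UniformSpace.Completion C)) →
    ∀ η : ℝ, 0 < η → ∃ s : C, ‖u - s‖ < η ∧ ‖w + (Q s + P s : C)‖ < η) →
  TotallyBounded ((fun s : C => (s : UniformSpace.Completion C)) ''
    {s | ‖s‖ ≤ 1 ∧ ‖Q s + P s‖ ≤ 1}) →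
  ∀ α : C, (∀ η : ℝ, 0 < η → ∃ s, ‖α - Q s‖ < η) →
    ∃ b : ℕ → C, CauchySeq b ∧ Tendsto (fun j => ‖Q (b j) - α‖) atTop (𝓝 0)

/-! ### The manifold layer -/

section defs

variable {n : ℕ} {M : Mf n}

/-- The local squared norm. -/
def nS {σ : Type} [Fintype σ] [DecidableEq σ] (g : Geo M σ) (S : Set M.X) (r : Pre g) : ℝ :=
  ∫ x in S, g.b.pn r.val x ∂M.mu g.H

/-- The components of a smooth form of type `(0, *)` with values in `L`. -/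
structure Lw (L : M.Co) (A : M.Fam (Fs n → ℂ)) : Prop where
  sm : M.All fun e z => ContDiffAt ℝ ∞ (A e) z
  cmp : M.Ov fun e e' x => A e' (e' x) = L.c e e' x • (La (M.J e e' x))ᴴ *ᵥ A e (e x)

/-- The part of degree `q`. -/
def pj (q : ℕ) (a : Fs n → ℂ) : Fs n → ℂ := fun B => if B.card = q then a B else 0

/-- Linear independence of families. -/
def Ind {V : Type} [AddCommGroup V] [Module ℂ V] {k : ℕ} (W : Fin k → M.Fam V) : Prop :=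
  ∀ c : Fin k → ℂ, (M.All fun e z => ∑ s, c s • W s e z = 0) → c = 0

/-- Weights with small negative curvature and bounded integrals. -/
def Zw (H : M.Fam (Mat n)) (φ : M.Fam ℝ) : Prop := ∃ C : ℝ, ∀ δ : ℝ, 0 < δ → ∃ ε ∈ Ioc 0 δ,
  ∃ w : M.X → ℝ, M.Sm w ∧ (∀ x, w x ≤ 0) ∧ M.Le 0 (M.hw φ + M.ric H + M.hs w + ε • H) ∧
    ∫ x, Real.exp (-(2 * n * w x)) ∂M.mu H ≤ C

variable {I : Type} [Fintype I] (D : Dk M I)

/-- Holomorphic sections of `m L + ∑ p k D k`, where `L = c K - ∑ a k D k`. -/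
structure Sc (m : ℕ) (p : I → ℕ) (s : M.Fam ℂ) : Prop where
  hol : M.All fun e z => HolN (s e) z
  cmp : M.Ov fun e e' x => s e' (e' x) * ∏ k, (D.L k).c e e' x ^ (m * D.a k) =
    s e (e x) * (M.J e e' x).det ^ (m * D.c) * ∏ k, (D.L k).c e e' x ^ p k

/-- Transversality and relative ampleness. -/
structure AmpM : Prop where
  snc : ∀ j k, j ≠ k → ∀ x, ∃ e ∈ M.C, x ∈ e.source ∧ (D.f j e (e x) = 0 → D.f k e (e x) = 0 →
    ∃ v, fderiv ℂ (D.f j e) (e x) v = 0 ∧ fderiv ℂ (D.f k e) (e x) v ≠ 0)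
  amp : ∃ (w : I → ℕ) (g : M.X → ℝ) (C : ℝ), (∀ k, 0 < w k) ∧ M.Sm g ∧ M.All fun e z =>
    (C • D.β e z - (∑ k, (w k : ℝ) • M.hw (D.φ k) e z + M.hs g e z)).PosDef

/-- Pluricanonical sections are sections of the multiples of `L`. -/
def Neg : Prop := ∀ m t, M.HSec (m * D.c) t →
  ∃ s, Sc D m 0 s ∧ M.All fun e z => t e z = s e z * ∏ k, D.f k e z ^ (m * D.a k)

/-- The numerical dimension is at most `d`. -/
def Nu (d : ℕ) : Prop := ∃ C : ℝ, ∀ ε ∈ Ioc (0 : ℝ) 1,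
  ∫ x, M.dq D.H (D.T + ε • D.H) x ∂M.mu D.H ≤ C * ε ^ (n - d)

/-- Many holomorphic multivectors with values in the powers of the canonical bundle. -/
def Mv (d : ℕ) : Prop := ∃ C : ℕ, {a : ℕ | ∃ (k : ℕ) (W : Fin k → M.Fam (Fs n → ℂ)),
  (a + 1) ^ d ≤ C * k ∧ Ind W ∧ ∀ s, Hol (W s) ∧ (M.Ov fun e e' x =>
    W s e (e x) = ((M.J e e' x).det ^ a)⁻¹ • La (M.J e e' x) *ᵥ W s e' (e' x)) ∧
    M.All fun e z => W s e z ≠ 0 → e.symm z ∈ KBO.of D}.Infinite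

end defs

/-- The trunk: the Kodaira dimension. -/
def St_TK : Prop := ∀ (n : ℕ) (M : Mf n) [M.Cpt] (I : Type) [Fintype I] (D : Dk M I) (d : ℕ),
  Mv D d → ∃ C : ℕ, {m : ℕ | ∃ (k : ℕ) (t : Fin k → M.Fam ℂ), (m + 1) ^ d ≤ C * k ∧ Ind t ∧
    ∀ s, M.HSec m (t s)}.Infinite

/-- The trunk: semi-ampleness. -/
def St_TG : Prop := ∀ (n : ℕ) (M : Mf n) [M.Cpt] (I : Type) [Fintype I] (D : Dk M I) (d : ℕ),
  Mv D d → Nu D d → Neg D → ∃ m, 0 < m ∧ ∀ x, ∃ s, Sc D m 0 s ∧ M.ev s x ≠ 0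

/-- Lowering the indices turns `Q` into the flat operator. -/
def St_LOW : Prop := ∀ (n : ℕ) (M : Mf n) (H : M.Fam (Mat n)) (W : M.Fam (Fs n → ℂ)), M.Kae H →
  M.All fun e z => ContDiffAt ℝ ∞ (W e) z →
    fq (fun w => La (H e w) *ᵥ W e w) z = La (H e z) *ᵥ (oQ H).ap W e z

/-- Raising and lowering; the parts of a given degree; the rules for the flat operator. -/
def St_RAI : Prop := ∀ (n : ℕ) (M : Mf n) (L : M.Co),
  (∀ (H : M.Fam (Mat n)) (φ : M.Fam ℝ), M.Met H →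
    (∀ W, (lam H L φ).Sec W → Lw L fun e z => La (H e z) *ᵥ W e z) ∧
    (∀ A, Lw L A → (lam H L φ).Sec fun e z => La (H e z)⁻¹ *ᵥ A e z) ∧
    M.All fun e z => La (H e z) * La (H e z)⁻¹ = 1 ∧ La (H e z)⁻¹ * La (H e z) = 1) ∧
  (∀ q A, Lw L A → Lw L fun e z => pj q (A e z)) ∧
  (∀ (k : ℕ) (c : Fin k → ℂ) (A : Fin k → M.Fam (Fs n → ℂ)), (∀ s, Lw L (A s)) →
    Lw L fun e z => ∑ s, c s • A s e z) ∧
  ∀ z : E n, (∀ (q : ℕ) (f : E n → Fs n → ℂ), fq (fun w => pj q (f w)) z = pj (q + 1) (fq f z) ∧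
      pj 0 (fq f z) = 0) ∧
    (∀ f g : E n → Fs n → ℂ, f =ᶠ[𝓝 z] g → fq f z = fq g z) ∧
    (∀ f : E n → Fs n → ℂ, ContDiffAt ℝ ∞ f z → ContDiffAt ℝ ∞ (fq f) z) ∧
    (∀ (k : ℕ) (c : Fin k → ℂ) (f : Fin k → E n → Fs n → ℂ), (∀ s, ContDiffAt ℝ ∞ (f s) z) →
      fq (fun w => ∑ s, c s • f s w) z = ∑ s, c s • fq (f s) z) ∧
    ∀ (h : E n → ℂ) (f : E n → Fs n → ℂ), HolN h z → ContDiffAt ℝ ∞ f z →
      fq (fun w => h w • f w) z = h z • fq f z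

/-- The cut-off operators. -/
def St_CUT : Prop := ∀ (n : ℕ) (M : Mf n) [M.Cpt] (H : M.Fam (Mat n)) (L : M.Co) (φ : M.Fam ℝ)
  (hH : M.Met H) (hb : (lam H L φ).Ok)
  (hq : ∀ W, (lam H L φ).Sec W → (lam H L φ).Sec ((oQ H).ap W)), M.Kae H → M.WtC L φ →
  Loc (nS (geo L φ hH hb)) (Pre.op (g := geo L φ hH hb) (oQ H) hq).toAddMonoidHom

/-- Regularity in a chart. -/
def St_CHP : Prop := ∀ (n : ℕ) (M : Mf n) [M.Cpt] (H : M.Fam (Mat n)) (L : M.Co) (φ : M.Fam ℝ)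
  (hH : M.Met H) (hb : (lam H L φ).Ok)
  (hq : ∀ W, (lam H L φ).Sec W → (lam H L φ).Sec ((oQ H).ap W)), M.Kae H → M.WtC L φ →
  ∀ e ∈ M.C, ∀ K ⊆ e.source, IsCompact K →
    Pk (nS (geo L φ hH hb)) (Pre.op (g := geo L φ hH hb) (oQ H) hq).toAddMonoidHom K

/-- A limit of exact sections is exact. -/
def St_EXA : Prop := ∀ (n : ℕ) (M : Mf n) [M.Cpt] (H : M.Fam (Mat n)) (L : M.Co) (φ : M.Fam ℝ)
  (W : M.Fam (Fs n → ℂ)), M.Kae H → M.WtC L φ → (lam H L φ).Sec W →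
  (∀ η : ℝ, 0 < η → ∃ s, (lam H L φ).Sec s ∧ (lam H L φ).nr H (W - (oQ H).ap s) ≤ η) →
  ∃ V, (lam H L φ).Sec V ∧ M.All fun e z => W e z = (oQ H).ap V e z

/-- A closed section is holomorphic up to a limit of exact sections. -/
def St_HLS : Prop := ∀ (n : ℕ) (M : Mf n) [M.Cpt] (H : M.Fam (Mat n)) (L : M.Co) (φ : M.Fam ℝ)
  (W : M.Fam (Fs n → ℂ)), 0 < n → M.Kae H → M.WtC L φ → Zw H φ → (lam H L φ).Sec W →
  (M.All fun e z => (oQ H).ap W e z = 0) → ∃ V, (lam H L φ).Sec V ∧ Hol V ∧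
    ∀ η : ℝ, 0 < η → ∃ s, (lam H L φ).Sec s ∧ (lam H L φ).nr H (W - V - (oQ H).ap s) ≤ η

/-- The hard Lefschetz theorem for forms. -/
def St_LWH : Prop := ∀ (n : ℕ) (M : Mf n) [M.Cpt] (H : M.Fam (Mat n)) (L : M.Co) (φ : M.Fam ℝ),
  M.Kae H → M.WtC L φ → (∀ A, Lw L A → Lw L fun e => fq (A e)) ∧ (0 < n → Zw H φ →
    ∀ (k : ℕ) (A : Fin k → M.Fam (Fs n → ℂ)),
      (∀ s, Lw L (A s) ∧ M.All fun e z => fq (A s e) z = 0) →
      (∀ (c : Fin k → ℂ) B, Lw L B → (M.All fun e z => ∑ s, c s • A s e z = fq (B e) z) → c = 0) →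
      ∃ V : Fin k → M.Fam (Fs n → ℂ), Ind V ∧ ∀ s, (lam H L φ).Sec (V s) ∧ Hol (V s))

/-- A smooth hypersurface: division, and discs with a given tangent. -/
def St_NG0 : Prop := ∀ (n : ℕ) (f : E n → ℂ) (z : E n), HolN f z → f z = 0 → fderiv ℂ f z ≠ 0 →
  (∀ s, HolN s z → (∀ᶠ w in 𝓝 z, f w = 0 → s w = 0) → ∃ h, HolN h z ∧ ∀ᶠ w in 𝓝 z, s w = f w * h w) ∧
  ∀ y, fderiv ℂ f z y = 0 → ∃ γ : ℂ → E n, γ 0 = z ∧ HasDerivAt γ y 0 ∧
    ∀ᶠ t in 𝓝 (0 : ℂ), DifferentiableAt ℂ γ t ∧ f (γ t) = 0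

/-- The maximum principle on a hypersurface. -/
def St_NG1 : Prop := ∀ (n : ℕ) (M : Mf n) [M.Cpt] (I : Type) [Fintype I] (D : Dk M I) (m : ℕ)
  (p : I → ℕ) (s : M.Fam ℂ), AmpM D → Sc D m p s → p ≠ 0 →
  ∃ j, p j ≠ 0 ∧ M.All fun e z => D.f j e z = 0 → s e z = 0

/-- The negativity lemma. -/
def St_NEG : Prop := ∀ (n : ℕ) (M : Mf n) [M.Cpt] (I : Type) [Fintype I] (D : Dk M I),
  AmpM D → Neg D

/-! ### The dictionary -/

section dic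

variable (n : ℕ) {X ι I : Type} [TopologicalSpace X] [ChartedSpace (E n) X]

/-- A covering with cocycles. -/
structure Cv (U : ι → Set X) (u : I → ι → ι → X → ℂ) : Prop where
  opn : ∀ i, IsOpen (U i)
  cov : ∀ x, ∃ i, x ∈ U i
  unit : ∀ k i j, ∀ x ∈ U i ∩ U j, HolAt n 0 (u k i j) x ∧ u k i j x ≠ 0
  coc : ∀ k a b c, ∀ x ∈ U a, x ∈ U b → x ∈ U c → u k a c x = u k a b x * u k b c x

variable {n}

/-- The refined atlas. -/
abbrev Cv.M [IsManifold 𝓘(ℂ, E n) ω X] {U : ι → Set X} {u : I → ι → ι → X → ℂ} (h : Cv n U u) :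
    Mf n := rs (mf n X) (U := U) h.opn h.cov

/-- The components of a form in all charts. -/
def Ph {q : ℕ} (i : OpenPartialHomeomorph X (E n) → ι) (m : ℕ)
    (α : ι → X → E n [⋀^Fin q]→ₗ[ℂ] ℂ) (e : OpenPartialHomeomorph X (E n)) (z : E n) : Fs n → ℂ :=
  (jm (chartAt (E n) (e.symm z) ∘ e.symm) z).det ^ m •
    (La (jm (chartAt (E n) (e.symm z) ∘ e.symm) z))ᴴ *ᵥ cmpt (α (i e) (e.symm z))

/-- The bundle `L` is `m K + ∑ p k D k`. -/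
structure Cv.Is [IsManifold 𝓘(ℂ, E n) ω X] [Fintype I] {U : ι → Set X} {u : I → ι → ι → X → ℂ}
    (h : Cv n U u) (i : OpenPartialHomeomorph X (E n) → ι) (m : ℕ) (p : I → ℤ) (L : h.M.Co) :
    Prop where
  sub : ∀ e ∈ h.M.C, e.source ⊆ U (i e)
  eq : h.M.Ov fun e e' x => L.c e e' x = (h.M.J e e' x).det ^ m * ∏ k, u k (i e') (i e) x ^ p k

end dic

/-- Forms and their components. -/
def St_DI1 : Prop := ∀ (n : ℕ) (X ι I : Type) [TopologicalSpace X] [ChartedSpace (E n) X]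
  [IsManifold 𝓘(ℂ, E n) ω X] [Fintype I] (U : ι → Set X) (u : I → ι → ι → X → ℂ) (h : Cv n U u)
  (i : OpenPartialHomeomorph X (E n) → ι) (m : ℕ) (p : I → ℤ) (L : h.M.Co) (q : ℕ), h.Is i m p L →
  (∀ α ∈ Sm n U u m p q, Lw L (Ph (X := X) i m α) ∧
    (∀ e z, pj q (Ph i m α e z) = Ph i m α e z) ∧
    ∀ j, ∀ x ∈ U j, (α j x = 0 ↔ h.M.ev (Ph (X := X) i m α) x = 0)) ∧
  (∀ A, Lw L A → ∃ α ∈ Sm n U u m p q, h.M.All fun e z => Ph i m α e z = pj q (A e z)) ∧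
  ∀ (k : ℕ) (c : Fin k → ℂ) (α : Fin k → ι → X → E n [⋀^Fin q]→ₗ[ℂ] ℂ),
    ((∀ s, α s ∈ Sm n U u m p q) → ∑ s, c s • α s ∈ Sm n U u m p q) ∧
    ∀ e z, Ph i m (∑ s, c s • α s) e z = ∑ s, c s • Ph i m (α s) e z

/-- The operator in the two languages, at one point. -/
def St_DI0 : Prop := ∀ (n q : ℕ) (a : E n → E n [⋀^Fin q]→ₗ[ℂ] ℂ) (b : E n [⋀^Fin (q + 1)]→ₗ[ℂ] ℂ)
  (z : E n), (∀ v, ContDiffAt ℝ ∞ (fun w => a w v) z) →
  ((∀ v : Fin (q + 1) → E n, b (fun s => star (v s)) = ∑ s : Fin (q + 1), (-1) ^ (s : ℕ) *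
    ((fderiv ℝ (fun w => a w fun r => star (s.removeNth v r)) z (v s) + Complex.I *
      fderiv ℝ (fun w => a w fun r => star (s.removeNth v r)) z (Complex.I • v s)) / 2)) ↔
    cmpt b = fq (fun w => cmpt (a w)) z)

/-- The operator in the two languages. -/
def St_DI2 : Prop := ∀ (n : ℕ) (X ι I : Type) [TopologicalSpace X] [ChartedSpace (E n) X]
  [IsManifold 𝓘(ℂ, E n) ω X] [Fintype I] (U : ι → Set X) (u : I → ι → ι → X → ℂ) (h : Cv n U u)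
  (i : OpenPartialHomeomorph X (E n) → ι) (m : ℕ) (p : I → ℤ) (L : h.M.Co) (q : ℕ), h.Is i m p L →
  (∀ A, Lw L A → Lw L fun e => fq (A e)) → ∀ α ∈ Sm n U u m p q, ∀ β ∈ Sm n U u m p (q + 1),
    ((∀ j, ∀ x ∈ U j, ∀ v, β j x (fun s => star (v s)) = db m (α j) x v) ↔
      h.M.All fun e z => Ph i m β e z = fq (Ph i m α e) z)

/-- Independent classes. -/
def St_DIC : Prop := ∀ (n : ℕ) (X ι I : Type) [TopologicalSpace X] [ChartedSpace (E n) X]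
  [IsManifold 𝓘(ℂ, E n) ω X] [Fintype I] (U : ι → Set X) (u : I → ι → ι → X → ℂ) (h : Cv n U u)
  (i : OpenPartialHomeomorph X (E n) → ι) (m : ℕ) (p : I → ℤ) (L : h.M.Co), h.Is i m p L →
  (∀ A, Lw L A → Lw L fun e => fq (A e)) →
  (∀ q, ∃ A : Fin (hq n U u m p q) → h.M.Fam (Fs n → ℂ),
    (∀ s, Lw L (A s) ∧ h.M.All fun e z => fq (A s e) z = 0) ∧
    ∀ (c : Fin (hq n U u m p q) → ℂ) B, Lw L B →
      (h.M.All fun e z => ∑ s, c s • A s e z = fq (B e) z) → c = 0) ∧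
  ∀ t, h.M.HSecC L t → ∃ s ∈ Cl n U u m p 0, ∀ j, ∀ x ∈ U j, (s j x = 0 ↔ h.M.ev t x = 0)

/-- Pluricanonical forms. -/
def St_PLU : Prop := ∀ (n : ℕ) (X ι I : Type) [TopologicalSpace X] [ChartedSpace (E n) X]
  [IsManifold 𝓘(ℂ, E n) ω X] (U : ι → Set X) (u : I → ι → ι → X → ℂ) (h : Cv n U u) (m k : ℕ)
  (t : Fin k → h.M.Fam ℂ), Ind t → (∀ s, h.M.HSec m (t s)) →
  ∃ s : Fin k → X → ℂ, LinearIndependent ℂ s ∧ ∀ j, s j ∈ Pluri n X m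

/-- The curvature of a metric given on the covering. -/
def St_KEY : Prop := ∀ (n : ℕ) (X ι I : Type) [TopologicalSpace X] [ChartedSpace (E n) X]
  [IsManifold 𝓘(ℂ, E n) ω X] [Fintype I] (U : ι → Set X) (u : I → ι → ι → X → ℂ) (h : Cv n U u)
  (i : OpenPartialHomeomorph X (E n) → ι) (L : I → h.M.Co) (φ : I → h.M.Fam ℝ) (b : I → ℝ)
  (p : ι → X → ℝ), (∀ e ∈ h.M.C, e.source ⊆ U (i e)) →
  (∀ k e e' x, (L k).c e e' x = u k (i e') (i e) x) → (∀ k, h.M.WtC (L k) (φ k)) →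
  Glue U u b (fun i x => p i x) →
  (∀ j, ∀ x ∈ U j, ContDiffAt ℝ ∞ (p j ∘ (chartAt (E n) x).symm) (chartAt (E n) x x)) →
  ∃ g : X → ℝ, h.M.Sm g ∧ ∀ e : OpenPartialHomeomorph X (E n), e ∈ h.M.C → ∀ j, ∀ z ∈ e.target,
    e.symm z ∈ U j → ContDiffAt ℝ ∞ (p j ∘ e.symm) z ∧ hess (fun w => (p j (e.symm w) : ℂ)) z =
      ∑ k, b k • h.M.hw (φ k) e z + h.M.hs g e z

/-- The data on the manifold layer, with their origin. -/
structure Org {n : ℕ} {X ι I : Type} [TopologicalSpace X] [ChartedSpace (E n) X]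
    [IsManifold 𝓘(ℂ, E n) ω X] [Fintype I] {U : ι → Set X} {u : I → ι → ι → X → ℂ} (h : Cv n U u)
    (G β : X → Mat n) (f : I → ι → X → ℂ) (c : ℕ) (a : I → ℕ)
    (i : OpenPartialHomeomorph X (E n) → ι) (D : Dk h.M I) : Prop where
  sub : ∀ e ∈ h.M.C, e.source ⊆ U (i e)
  H : D.H = fam G
  β : D.β = fam β
  c : D.c = c
  a : D.a = a
  L : ∀ k e e' x, (D.L k).c e e' x = u k (i e') (i e) x
  f : ∀ k (e : OpenPartialHomeomorph X (E n)) z, D.f k e z = f k (i e) (e.symm z)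

/-- The data. -/
def St_BR0 : Prop := ∀ (n : ℕ) (X ι I : Type) [TopologicalSpace X] [ChartedSpace (E n) X]
  [IsManifold 𝓘(ℂ, E n) ω X] [CompactSpace X] [T2Space X] [ConnectedSpace X] [Fintype I]
  (G β : X → Mat n) (U : ι → Set X) (f : I → ι → X → ℂ) (u : I → ι → ι → X → ℂ) (c : ℕ)
  (a : I → ℕ), 0 < n → Kaehler G → Semi n G β → Ctr n β U f u → 0 < c →
  NefW n G β U u (fun k => -(a k / c)) → ∃ (h : Cv n U u) (i : _) (D : _), Org h G β f c a i D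

/-- The volume. -/
def St_NU : Prop := ∀ (n : ℕ) (X ι I : Type) [TopologicalSpace X] [ChartedSpace (E n) X]
  [IsManifold 𝓘(ℂ, E n) ω X] [CompactSpace X] [T2Space X] [ConnectedSpace X] [Fintype I]
  (G β : X → Mat n) (U : ι → Set X) (f : I → ι → X → ℂ) (u : I → ι → ι → X → ℂ) (c : ℕ)
  (a : I → ℕ) (h : Cv n U u) (i : _) (D : _) (d : ℕ), Org h G β f c a i D →
  NuLe U u G (fun k => -(a k / c)) d → Nu D d

/-- Transversality and relative ampleness. -/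
def St_AMP : Prop := ∀ (n : ℕ) (X ι I : Type) [TopologicalSpace X] [ChartedSpace (E n) X]
  [IsManifold 𝓘(ℂ, E n) ω X] [Fintype I]
  (G β : X → Mat n) (U : ι → Set X) (f : I → ι → X → ℂ) (u : I → ι → ι → X → ℂ) (c : ℕ)
  (a : I → ℕ) (h : Cv n U u) (i : _) (D : _), Org h G β f c a i D → Amp U u β f → AmpM D

/-- The multivectors. -/
def St_MVS : Prop := ∀ (n : ℕ) (X ι I : Type) [TopologicalSpace X] [ChartedSpace (E n) X]
  [IsManifold 𝓘(ℂ, E n) ω X] [CompactSpace X] [T2Space X] [ConnectedSpace X] [Fintype I]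
  (G β : X → Mat n) (U : ι → Set X) (f : I → ι → X → ℂ) (u : I → ι → ι → X → ℂ) (c : ℕ)
  (a : I → ℕ) (h : Cv n U u) (i : _) (D : _) (q d C : ℕ), Org h G β f c a i D →
  {b : ℕ | (b + 1) ^ d ≤ C * hq n U u (b * c + 1) (fun k => -(b * a k)) q}.Infinite → Mv D d

theorem kk (hT : St_TK) (hB : St_BR0) (hM : St_MVS) (hP : St_PLU) : St_KK := by
  intro n X ι I _ _ _ _ _ _ _ G β U f u c e q d C hn hG hβ hC hc hN hq
  obtain ⟨h, i, D, o⟩ := hB n X ι I G β U f u c e hn hG hβ hC hc hN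
  have : h.M.Cpt := ⟨‹_›, ‹_›, ‹_›⟩
  obtain ⟨C', h'⟩ := hT n _ I D d (hM n X ι I G β U f u c e h i D q d C o hq)
  refine ⟨C', h'.mono fun m hm => ?_⟩
  obtain ⟨k, t, t1, t2, t3⟩ := hm
  obtain ⟨s, s1, s2⟩ := hP n X ι I U u h m k t t2 t3
  exact ⟨k, s, t1, s1, s2⟩

end Pool.Agent.Lib.KS
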