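import Pool.Agent.Lib.KS.Blue
import Pool.Agent.Lib.K3E.B_ALT
import Pool.Agent.Lib.K3E.B_STAR
import Pool.Agent.Lib.HLK.B_FK1
import Pool.Agent.Lib.HLK.B_FK3

/-! Project ks, row DI1: forms and their components. -/

open scoped Classical Topology ContDiff Matrix Manifold
open Set Filter

noncomputable section

namespace Pool.Agent.Lib.KS

open Pool.Agent.Lib.SV (E jacAt)
open Pool.Agent.Lib.HS32 Pool.Agent.Lib.HLK
open Pool.Agent.Lib.K3E (cmpt bALT)
open Pool.Agent.Lib.HS.BBR (mf)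

namespace DI1

variable {n q m : ℕ}

/-- The components, as a linear map. -/
def cm (n q : ℕ) : (E n [⋀^Fin q]→ₗ[ℂ] ℂ) →ₗ[ℂ] Fs n → ℂ where
  toFun := cmpt
  map_add' a b := funext fun B => by
    simp only [cmpt, Pi.add_apply]
    split_ifs
    · rfl
    · exact (add_zero 0).symm
  map_smul' t a := funext fun B => by
    simp only [cmpt, Pi.smul_apply]
    split_ifs
    · rfl
    · exact (smul_zero _).symm

theorem cm_inj {β : E n [⋀^Fin q]→ₗ[ℂ] ℂ} (h : cm n q β = 0) : β = 0 :=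
  AlternatingMap.ext fun v => by
    obtain ⟨k, hk⟩ := (bALT n q).2.1 v
    refine (hk β).trans (Finset.sum_eq_zero fun B _ => ?_)
    rw [show cmpt β B = 0 from congrFun h B, mul_zero]

/-- The change of chart. -/
def tr (m : ℕ) (g : Mat n) : (Fs n → ℂ) →ₗ[ℂ] Fs n → ℂ := g.det ^ m • (La g)ᴴ.mulVecLin

theorem tr_ap (g : Mat n) (a : Fs n → ℂ) : tr m g a = g.det ^ m • (La g)ᴴ *ᵥ a := rfl

theorem tr_mul (g g' : Mat n) (a : Fs n → ℂ) : tr m (g * g') a = tr m g' (tr m g a) := by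
  simp only [tr_ap, FK2.la_mul st_FK1, Matrix.conjTranspose_mul, Matrix.det_mul, mul_pow,
    Matrix.mulVec_smul, Matrix.mulVec_mulVec, smul_smul, mul_comm]

theorem tr_one (a : Fs n → ℂ) : tr m 1 a = a := by
  simp only [tr_ap, FK2.la_one st_FK1, Matrix.conjTranspose_one, Matrix.det_one, one_pow, one_smul,
    Matrix.one_mulVec]

/-- The pull-back of a form in the conjugate vectors. -/
def pb (m : ℕ) (g : Mat n) (β : E n [⋀^Fin q]→ₗ[ℂ] ℂ) : E n [⋀^Fin q]→ₗ[ℂ] ℂ :=
  g.det ^ m • β.compLinearMap gᴴᵀ.mulVecLin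

theorem cm_pb (g : Mat n) (β : E n [⋀^Fin q]→ₗ[ℂ] ℂ) : cm n q (pb m g β) = tr m g (cm n q β) := by
  rw [pb, map_smul, tr_ap, ← FK2.la_ct, ← Matrix.transpose_transpose gᴴ, ← K3E.STAR.la_tr]
  exact congrArg _ ((bALT n q).1 β _)

theorem tr_sm {ψ : E n → E n} {z : E n} (h : HolN ψ z) {a : E n → Fs n → ℂ}
    (ha : ContDiffAt ℝ ∞ a (ψ z)) : ContDiffAt ℝ ∞ (fun w => tr m (jm ψ w) (a (ψ w))) z := by
  obtain ⟨s, j, -, -, d, -⟩ := mCHN n ψ z h
  refine contDiffAt_pi.2 fun A => ?_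
  simp only [tr_ap, Pi.smul_apply, smul_eq_mul, Matrix.mulVec, dotProduct,
    Matrix.conjTranspose_apply]
  exact (((mHOL n _ _).2.2 d).1.pow m).mul (ContDiffAt.sum fun B _ =>
    (Complex.conjCLE.contDiff.contDiffAt.comp z (FK3.sm j B A)).mul
      (contDiffAt_pi.1 (ha.comp z s) B))

variable {X : Type} [TopologicalSpace X] [ChartedSpace (E n) X]

/-- The components of a field of forms. -/
def fm (m : ℕ) (β : X → E n [⋀^Fin q]→ₗ[ℂ] ℂ) (e : OpenPartialHomeomorph X (E n)) (z : E n) :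
    Fs n → ℂ := tr m (jm (chartAt (E n) (e.symm z) ∘ e.symm) z) (cm n q (β (e.symm z)))

variable {β : X → E n [⋀^Fin q]→ₗ[ℂ] ℂ} {x : X} {e e' : OpenPartialHomeomorph X (E n)}

theorem rd_eq (v : Fin q → E n) (z : E n) : rd m β x v z =
    pb m (HS.jacM x z) (β ((chartAt (E n) x).symm z)) fun s => star (v s) := by
  rw [rd, jacAt, BCHN.det_eq, mul_comm]
  refine congrArg₂ (· * ·) rfl (congrArg _ (funext fun s => ?_))
  rw [Matrix.star_mulVec, ← Matrix.mulVec_transpose]
  rfl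

theorem sm_iff {z : E n} :
    (∀ v, ContDiffAt ℝ ∞ (rd m β x v) z) ↔ ContDiffAt ℝ ∞ (fm m β (chartAt (E n) x)) z := by
  have e : fm m β (chartAt (E n) x) =
      fun w => cmpt (pb m (HS.jacM x w) (β ((chartAt (E n) x).symm w))) :=
    funext fun w => (cm_pb _ _).symm
  rw [e]
  refine ⟨fun h => contDiffAt_pi.2 fun B => ?_, fun h v => ?_⟩
  · simp only [cmpt]
    split_ifs with c
    · refine (h fun s => Pi.single (B.orderEmbOfFin c s) 1).congr_of_eventuallyEq
        (Eventually.of_forall fun w => ?_)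
      simp only [rd_eq, Pi.star_single, star_one]
    · exact contDiffAt_const
  · obtain ⟨k, hk⟩ := (bALT n q).2.1 fun s => star (v s)
    rw [show rd m β x v = _ from funext fun w => (rd_eq v w).trans (hk _)]
    exact ContDiffAt.sum fun B _ => contDiffAt_const.mul (contDiffAt_pi.1 h B)

/-- The Jacobian matrix. -/
def jj (e e' : OpenPartialHomeomorph X (E n)) (x : X) : Mat n := jm (e ∘ e'.symm) (e' x)

theorem fm_at (hx : x ∈ e.source) :
    fm m β e (e x) = tr m (jj (chartAt (E n) x) e x) (cm n q (β x)) := by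
  rw [fm, e.left_inv hx, jj]

variable [IsManifold 𝓘(ℂ, E n) ω X]

theorem jj_mul {d : OpenPartialHomeomorph X (E n)} (hd : d ∈ (mf n X).C) (he : e ∈ (mf n X).C)
    (he' : e' ∈ (mf n X).C) (h : x ∈ d.source) (hx : x ∈ e.source) (hx' : x ∈ e'.source) :
    jj d e' x = jj d e x * jj e e' x :=
  ((mTR n (mf n X)).2.1 d hd e he x h hx).2.2.2.2 e' he' hx'

theorem law (he : e ∈ (mf n X).C) (he' : e' ∈ (mf n X).C) (hx : x ∈ e.source)
    (hx' : x ∈ e'.source) : fm m β e' (e' x) = tr m (jj e e' x) (fm m β e (e x)) := by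
  rw [fm_at hx, fm_at hx', ← tr_mul,
    ← jj_mul (HW.ch_mem x) he he' (mem_chart_source (E n) x) hx hx']

theorem fm_zero (he : e ∈ (mf n X).C) (hx : x ∈ e.source) : fm m β e (e x) = 0 ↔ β x = 0 := by
  refine ⟨fun h => cm_inj ?_, fun h => by rw [fm_at hx, h, map_zero, map_zero]⟩
  have c := mem_chart_source (E n) x
  have := law (m := m) (β := β) he (HW.ch_mem x) hx c
  rwa [h, map_zero, fm_at c, show jj (chartAt (E n) x) (chartAt (E n) x) x = 1 from
    (mTR n (mf n X)).2.2.1 _ (HW.ch_mem x) x c, tr_one] at this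

theorem move (he : e ∈ (mf n X).C) (he' : e' ∈ (mf n X).C) (hx : x ∈ e.source)
    (hx' : x ∈ e'.source) {a : E n → Fs n → ℂ} {t : E n → ℂ} (ha : ContDiffAt ℝ ∞ a (e x))
    (ht : ContDiffAt ℝ ∞ t (e' x))
    (h : ∀ᶠ w in 𝓝 (e' x), fm m β e (e (e'.symm w)) = t w • a (e (e'.symm w))) :
    ContDiffAt ℝ ∞ (fm m β e') (e' x) := by
  have hN : HolN (e ∘ e'.symm) (e' x) := ((mTR n (mf n X)).2.1 e he e' he' x hx hx').1
  refine (ht.smul (tr_sm (m := m) (a := a) hN ?_)).congr_of_eventuallyEq ?_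
  · rwa [Function.comp_apply, e'.left_inv hx']
  · filter_upwards [(e'.isOpen_inter_preimage_symm e.open_source).mem_nhds
      ⟨e'.map_source hx', by rwa [mem_preimage, e'.left_inv hx']⟩, h] with w hw h1
    have := law (m := m) (β := β) he he' hw.2 (e'.map_target hw.1)
    rwa [h1, map_smul, jj, e'.right_inv hw.1] at this

end DI1

open DI1 in
theorem kDI1 (hRAI : St_RAI) : St_DI1 := by
  intro n X ι I _ _ _ _ U u h i m p L q hL
  have hc := fun x : X => mem_chart_source (E n) x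
  have sub : ∀ {e : OpenPartialHomeomorph X (E n)} {x : X}, e ∈ h.M.C → x ∈ e.source →
    x ∈ U (i e) := fun he hx => hL.sub _ he hx
  have lw : ∀ {e e' : OpenPartialHomeomorph X (E n)} {x : X},
      e ∈ h.M.C → e' ∈ h.M.C → x ∈ e.source → x ∈ e'.source → ∀ a,
      L.c e e' x • (La (h.M.J e e' x))ᴴ *ᵥ a =
        (∏ k, u k (i e') (i e) x ^ p k) • tr m (jj e e' x) a := fun he he' hx hx' a => by
    rw [hL.eq _ he _ he' _ hx hx', tr_ap, smul_smul, mul_comm]
    rfl
  refine ⟨fun α hα => ⟨⟨fun (e : OpenPartialHomeomorph X (E n)) he z hz => ?_,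
    fun (e : OpenPartialHomeomorph X (E n)) he (e' : OpenPartialHomeomorph X (E n)) he' (x : X) hx
      hx' => ?_⟩, fun e z => funext fun B => ?_, fun j x hx => ?_⟩, fun A hA => ?_,
    fun k c α => ⟨fun hα j x => ⟨fun hx => ?_, fun hx => ⟨sm_iff.2 ?_, fun l hl => ?_⟩⟩,
      fun e z => ?_⟩⟩
  · have hx := e.map_target hz
    have := move (m := m) (β := α (i e)) (HW.ch_mem _) he.1 (hc _) hx
      (sm_iff.1 ((hα (i e) _).2 (sub he hx)).1) (contDiffAt_const (c := 1))
      (Eventually.of_forall fun w => (one_smul _ _).symm)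
    rwa [e.right_inv hz] at this
  · refine Eq.trans ?_ (lw he he' hx hx' (fm m (α (i e)) e (e x))).symm
    show fm m (α (i e')) e' (e' x) = _
    rw [← law he.1 he'.1 hx hx', fm_at (e := e') hx', fm_at (e := e') hx',
      ((hα (i e') x).2 (sub he' hx')).2 _ (sub he hx), map_smul, map_smul]
  · rw [show Ph i m α e z = cmpt _ from (cm_pb _ _).symm, pj]
    split_ifs with c
    · rfl
    · rw [cmpt, dif_neg c]
  · have he := Mf.ch_mem (M := h.M) x
    have hs := Mf.mem_ch (M := h.M) x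
    refine Iff.trans ?_ (fm_zero (X := X) (m := m) (β := α (i (h.M.ch x))) he.1 hs).symm
    rw [((hα j x).2 hx).2 _ (sub he hs), smul_eq_zero_iff_right (Finset.prod_ne_zero_iff.2
      fun k _ => zpow_ne_zero _ (h.unit k _ _ _ ⟨hx, sub he hs⟩).2)]
  · have hB := (hRAI n h.M L).2.1 q A hA
    choose d he hs using show ∀ x : X, ∃ e : OpenPartialHomeomorph X (E n), e ∈ h.M.C ∧
      x ∈ e.source from h.M.cov
    choose γ hγ using fun x : X => (bALT n q).2.2 (pj q (A (d x) (d x x))) fun B hB => if_neg hB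
    let α : ι → X → E n [⋀^Fin q]→ₗ[ℂ] ℂ := fun j x => if x ∈ U j then
      (∏ k, u k j (i (d x)) x ^ p k) • pb m (jj (d x) (chartAt (E n) x) x) (γ x) else 0
    have co : ∀ a b x, x ∈ U a → x ∈ U b → α a x = (∏ k, u k a b x ^ p k) • α b x :=
      fun a b x ha hb => by
        simp only [α, if_pos ha, if_pos hb, smul_smul, ← Finset.prod_mul_distrib, ← mul_zpow,
          ← h.coc _ a b _ x ha hb (sub (he x) (hs x))]
    have eq : ∀ e : OpenPartialHomeomorph X (E n), e ∈ h.M.C → ∀ x ∈ e.source,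
        fm m (α (i e)) e (e x) = pj q (A e (e x)) := fun e h1 x hx => by
      refine Eq.trans ?_ ((hB.cmp _ (he x) e h1 x (hs x) hx).trans
        (lw (he x) h1 (hs x) hx (pj q (A (d x) (d x x))))).symm
      simp only [fm_at hx, α, if_pos (sub h1 hx), map_smul, cm_pb, ← tr_mul]
      rw [← jj_mul (he x).1 (HW.ch_mem x) h1.1 (hs x) (hc x) hx, ← hγ]
      rfl
    refine ⟨α, fun j x => ⟨fun hx => if_neg hx, fun hx =>
      ⟨sm_iff.2 ?_, fun l hl => co j l x hx hl⟩⟩, Mf.allOn_of_source (M := h.M) eq⟩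
    have ev : ∀ᶠ w in 𝓝 (chartAt (E n) x x), w ∈ (chartAt (E n) x).target ∧
        (chartAt (E n) x).symm w ∈ U j ∩ (d x).source :=
      ((chartAt (E n) x).isOpen_inter_preimage_symm ((h.opn j).inter (d x).open_source)).mem_nhds
        ⟨(chartAt (E n) x).map_source (hc x), by
          rw [mem_preimage, (chartAt (E n) x).left_inv (hc x)]
          exact ⟨hx, hs x⟩⟩
    refine move (t := fun w => ∏ k, u k j (i (d x)) ((chartAt (E n) x).symm w) ^ p k)
      (a := fun w => pj q (A (d x) w)) (he x).1 (HW.ch_mem x) (hs x) (hc x)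
      (hB.sm _ (he x) _ ((d x).map_source (hs x)))
      ((mHOL n _ _).2.2 (ev.mono fun w hw => ?_)).1 (ev.mono fun w hw => ?_)
    · refine (HasFDerivAt.finsetProd fun k _ => DifferentiableAt.hasFDerivAt ?_).differentiableAt
      have := h.unit k j _ _ ⟨hw.2.1, sub (he x) hw.2.2⟩
      exact (KP.T6.hol_chart (fun y => (HW.ch_mem x y).2) hw.1 this.1).zpow (Or.inl this.2)
    · rw [← eq _ (he x) _ hw.2.2, fm_at hw.2.2, fm_at hw.2.2,
        co j _ _ hw.2.1 (sub (he x) hw.2.2), map_smul, map_smul]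
  · simp only [Finset.sum_apply, Pi.smul_apply]
    exact Finset.sum_eq_zero fun s _ => by rw [(hα s j x).1 hx, smul_zero]
  · have : fm m ((∑ s, c s • α s) j) (chartAt (E n) x) =
        fun w => ∑ s, c s • fm m (α s j) (chartAt (E n) x) w := funext fun w => by
      simp only [fm, Finset.sum_apply, Pi.smul_apply, map_sum, map_smul]
    rw [this]
    exact ContDiffAt.sum fun s _ => (sm_iff.1 ((hα s j x).2 hx).1).const_smul _
  · simp only [Finset.sum_apply, Pi.smul_apply, Finset.smul_sum]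
    exact Finset.sum_congr rfl fun s _ => by rw [((hα s j x).2 hx).2 l hl, smul_comm]
  · show fm m _ e z = ∑ s, c s • fm m (α s (i e)) e z
    simp only [fm, Finset.sum_apply, Pi.smul_apply, map_sum, map_smul]

end Pool.Agent.Lib.KS
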