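import Pool.Agent.Lib.KS.Neg1
import Pool.Agent.Lib.KP.B_NHS
import Pool.Agent.Lib.K3S.B_TW

/-! Project ks: the maximum principle on a hypersurface, and division. -/

open scoped Classical Topology ContDiff ComplexOrder Matrix
open Set Filter Complex

noncomputable section

namespace Pool.Agent.Lib.KS.NEG

open Pool.Agent.Lib.SV (E)
open Pool.Agent.Lib.HS32 Pool.Agent.Lib.HS32.Mf
open Pool.Agent.Lib.K3S.TW (sm2)

variable {n : ℕ} {M : Mf n} {L B : M.Co} {f S : M.Fam ℂ} {φ Ω : M.Fam ℝ}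

theorem cl (hφ : M.WtC L φ) (hf : M.SecC L f) : IsClosed {x | M.ev f x = 0} := by
  have e : {x | M.ev f x = 0} = {x | M.nrC φ f x = 0} :=
    Set.ext fun _ => (not_iff_not.1 nrC_ne).symm
  exact e ▸ isClosed_eq (hφ.nr_sm hf).continuous continuous_const

theorem zi (hf : M.SecC L f) : M.All fun e z => M.ev f (e.symm z) = 0 ↔ f e z = 0 :=
  fun e he z hz => by
    simpa only [e.right_inv hz] using not_iff_not.1 (hf.ne_iff he (e.map_target hz))

/-- A section of a bundle that is negative in a direction tangent to the hypersurface. -/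
theorem van [M.Cpt] (hf : M.HSecC L f) (hφ : M.WtC L φ) (hS : M.HSecC B S) (hΩ : M.WtC B Ω)
    (h : ∀ x, M.ev f x = 0 → ∃ e ∈ M.C, x ∈ e.source ∧ fderiv ℂ (f e) (e x) ≠ 0 ∧
      ∃ v, fderiv ℂ (f e) (e x) v = 0 ∧ nq (M.hw Ω e (e x)) v < 0) (x : M.X)
    (hx : M.ev f x = 0) : M.ev S x = 0 := by
  have c := hΩ.nr_sm hS.toSecC
  obtain ⟨y, hy, hm⟩ := (cl hφ hf.toSecC).isCompact.exists_isMaxOn ⟨x, hx⟩
    c.continuous.continuousOn
  by_contra h0
  have p : 0 < M.nrC Ω S y :=
    ((nrC_nonneg Ω S x).lt_of_ne' (nrC_ne.2 h0)).trans_le (hm hx)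
  obtain ⟨e, he, hye, d, v, v1, v2⟩ := h y hy
  have hz := e.map_source hye
  have c1 := c e he _ hz
  have p1 : 0 < (M.nrC Ω S ∘ e.symm) (e y) := by rwa [Function.comp_apply, e.left_inv hye]
  have k := levi (hf.holN e he _ hz) (not_not.1 (mt (hf.ne_iff he hye).2 (not_not.2 hy))) d
    (c1.log p1.ne') (by
      filter_upwards [(zi hf.toSecC).ev he hz, c1.continuousAt.eventually (lt_mem_nhds p1)]
        with w h1 h2 h3
      refine Real.log_le_log h2 ?_
      rw [Function.comp_apply, Function.comp_apply, e.left_inv hye]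
      exact hm (h1.2 h3)) v1
  have q := (KP.st_NHS n M B S Ω hS hΩ e he _ hz).2.2.2.2
    ((hS.ne_iff he hye).1 (nrC_ne.1 p.ne'))
  rw [show hess (fun w => ((Real.log ((M.nrC Ω S ∘ e.symm) w) : ℝ) : ℂ)) (e y) = _ from q, nq,
    Matrix.neg_mulVec, dotProduct_neg, neg_re, neg_nonpos] at k
  exact v2.not_ge k

/-- Smoothness of the zero set in all charts. -/
theorem reg (hf : M.HSecC L f)
    (h : ∀ x, ∃ e ∈ M.C, x ∈ e.source ∧ (f e (e x) = 0 → fderiv ℂ (f e) (e x) ≠ 0)) :
    M.All fun e z => f e z = 0 → fderiv ℂ (f e) z ≠ 0 := by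
  refine allOn_of_source fun e' he' x hx' h0 h1 => ?_
  obtain ⟨e, he, hx, d⟩ := h x
  refine d (not_not.1 fun k => (hf.ne_iff he' hx').1 ((hf.ne_iff he hx).2 k) h0) ?_
  have t := ((mTR n M).2.1 e' he' e he x hx' hx).1.self_of_nhds
  have p : (e' ∘ e.symm) (e x) = e' x := by simp only [Function.comp_apply, e.left_inv hx]
  have a : DifferentiableAt ℂ (f e') ((e' ∘ e.symm) (e x)) := p ▸ hf.hol.at he' hx'
  have b := (a.hasFDerivAt.comp _ t.hasFDerivAt).mul
    (L.hol e' he' e he x hx' hx).self_of_nhds.hasFDerivAt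
  rw [(b.congr_of_eventuallyEq (hf.ev e' he' e he x hx' hx)).fderiv]
  simp only [Function.comp_apply, e.left_inv hx, h0, h1, ContinuousLinearMap.zero_comp]
  ext1 v
  simp

theorem uq {a b g : E n → ℂ} {z : E n} (ha : ContinuousAt a z) (hb : ContinuousAt b z)
    (h : ∀ᶠ w in 𝓝 z, a w * g w = b w * g w) (h0 : ∃ᶠ w in 𝓝 z, g w ≠ 0) : a z = b z :=
  tendsto_nhds_unique_of_frequently_eq ha hb
    ((h0.and_eventually h).mono fun _ k => mul_right_cancel₀ k.1 k.2)

/-- Division of a section by the equation of the hypersurface. -/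
theorem div (hf : M.HSecC L f) (hr : M.All fun e z => f e z = 0 → fderiv ℂ (f e) z ≠ 0)
    (hS : M.All fun e z => HolN (S e) z)
    (hc : M.Ov fun e e' x => S e' (e' x) = S e (e x) * (B.c e e' x * L.c e e' x))
    (hv : M.All fun e z => f e z = 0 → S e z = 0) :
    ∃ s, M.HSecC B s ∧ M.All fun e z => S e z = s e z * f e z := by
  choose! u u1 u2 using fun e he z hz =>
    dvd (hf.holN e he z hz) (hr e he z hz) (hS e he z hz) (hv.ev he hz)
  have ev : M.All fun e z => (fun w => u e w w) =ᶠ[𝓝 z] u e z := fun e he z hz => by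
    filter_upwards [e.open_target.eventually_mem hz, u1 e he z hz,
      (u2 e he z hz).eventually_nhds] with w h1 h2 h3
    exact uq (u1 e he w h1).self_of_nhds.continuousAt h2.continuousAt
      (((u2 e he w h1).and h3).mono fun y k => k.1.symm.trans k.2) (fr_ne (hr e he w h1))
  have hs : M.All fun e z => HolN (fun w => u e w w) z := fun e he z hz =>
    ((u1 e he z hz).and (ev e he z hz).eventually_nhds).mono fun w k =>
      k.1.congr_of_eventuallyEq k.2
  have q : M.All fun e z => S e z = u e z z * f e z := fun e he z hz =>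
    (u2 e he z hz).self_of_nhds
  refine ⟨fun e w => u e w w, ⟨⟨fun e he z hz => ((mHOL n _ _).2.2 (hs e he z hz)).1,
    fun e he e' he' x hx hx' => ?_⟩, fun e he z hz => (hs e he z hz).self_of_nhds⟩, q⟩
  obtain ⟨t1, -, -, t3, -⟩ := (mTR n M).2.1 e he e' he' x hx hx'
  have p : (e ∘ e'.symm) (e' x) = e x := by simp only [Function.comp_apply, e'.left_inv hx']
  have k := uq (g := f e') (hs.at he' hx').self_of_nhds.continuousAt
    (((p ▸ (hs.at he hx).self_of_nhds.continuousAt :).comp t1.self_of_nhds.continuousAt).mul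
      (B.hol e he e' he' x hx hx').self_of_nhds.continuousAt) (by
      filter_upwards [t3] with w hw
      have a := hc e he e' he' _ hw.2.1 hw.2.2.1
      have b := hf.cmp e he e' he' _ hw.2.1 hw.2.2.1
      beta_reduce at a b
      rw [q e he _ hw.2.2.2.1, hw.2.2.2.2.2.1, q e' he' _ hw.1] at a
      rw [hw.2.2.2.2.2.1] at b
      rw [a, b]
      simp only [Pi.mul_apply, Function.comp_apply]
      ring) (fr_ne (hr.at he' hx'))
  simpa only [Pi.mul_apply, Function.comp_apply, e'.left_inv hx'] using k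

/-- The points that lie on one hypersurface only are dense. -/
theorem dens {X I : Type} [TopologicalSpace X] {Z : I → Set X} (hZ : ∀ k, IsClosed (Z k)) {j : I}
    (T : Finset I) (h : ∀ k ∈ T, ∀ x ∈ Z j, ∃ᶠ y in 𝓝 x, y ∈ Z j ∧ y ∉ Z k) :
    ∀ x ∈ Z j, ∃ᶠ y in 𝓝 x, y ∈ Z j ∧ ∀ k ∈ T, y ∉ Z k := by
  induction T using Finset.induction_on with
  | empty => exact fun x hx => (frequently_pure.2 ⟨hx, by simp⟩).filter_mono (pure_le_nhds x)
  | insert k T hk ih =>
    refine fun x hx => frequently_frequently_nhds.1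
      ((ih (fun l hl => h l (Finset.mem_insert_of_mem hl)) x hx).mono fun y hy => ?_)
    exact ((h k (Finset.mem_insert_self k T) y hy.1).and_eventually
      ((eventually_all_finset T).2 fun l hl =>
        (hZ l).isOpen_compl.eventually_mem (hy.2 l hl))).mono fun w hw =>
          ⟨hw.1.1, Finset.forall_mem_insert _ _ _ |>.2 ⟨hw.1.2, hw.2⟩⟩

end Pool.Agent.Lib.KS.NEG
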