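import Pool.Agent.Lib.KS.Blue
import Pool.Agent.Lib.KS.Neg2

/-! Project ks, row `NEG`: the negativity lemma. -/

open scoped Classical Topology ContDiff ComplexOrder Matrix
open Set Filter Complex

noncomputable section

namespace Pool.Agent.Lib.KS

open Pool.Agent.Lib.SV (E)
open Pool.Agent.Lib.HS32 Pool.Agent.Lib.HS32.Mf
open Pool.Agent.Lib.K3S (Dk)
open Pool.Agent.Lib.K3S.TW (sm2 iv wmu wiv prd)

namespace NEG

variable {n : ℕ} {M : Mf n} {I : Type} [Fintype I] (D : Dk M I)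

/-- The value on a vector, as a linear map. -/
def nl (v : E n) : Mat n →ₗ[ℝ] ℝ where
  toFun T := nq T v
  map_add' S T := by simp only [nq, Matrix.add_mulVec, dotProduct_add, add_re]
  map_smul' s T := by
    simp only [nq, Matrix.smul_mulVec, dotProduct_smul, smul_re, RingHom.id_apply]

theorem nl0 {T : Mat n} {v : E n} (h : T *ᵥ v = 0) : nl v T = 0 := by
  change nq T v = 0
  rw [nq, h, dotProduct_zero, zero_re]

/-- The bundle `m L` with a weight that is not positive on the kernel of the form. -/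
theorem wtA (m : ℕ) : ∃ (A : M.Co) (ψ : M.Fam ℝ), M.WtC A ψ ∧
    (∀ e e' x, A.c e e' x =
      (M.J e e' x).det ^ (m * D.c) * (∏ k, (D.L k).c e e' x ^ (m * D.a k))⁻¹) ∧
    M.All fun e z => ∀ v, D.β e z *ᵥ v = 0 → nl v (M.hw ψ e z) ≤ 0 := by
  obtain ⟨P, χ, p1, p2, p3⟩ := prd D.wt (fun k => m * D.a k) Finset.univ
  obtain ⟨g, C, -, gs, -, le⟩ := D.nef 1 one_pos
  obtain ⟨q1, q2⟩ := (wiv p1).tw D.kae.toMet (m * D.c)
  obtain ⟨r1, r2⟩ := q1.addF (gs.const_mul ((m * D.c : ℕ) : ℝ))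
  refine ⟨_, _, r1, fun e e' x => by rw [← p2]; rfl, fun e he z hz v hv => ?_⟩
  have k : 0 ≤ nl v _ := (Complex.nonneg_iff.1 ((le e he z hz).dotProduct_mulVec_nonneg v)).1
  have c0 : (D.c : ℝ) ≠ 0 := Nat.cast_ne_zero.2 D.c0.ne'
  rw [r2 e he z hz, q2 e he z hz, hw_smul _ (p1.sm e he z hz), p3 e he z hz,
    ((mLAP n M g g gs gs).1 _ e he z hz).2.2.2.1]
  simp only [Pi.add_apply, Pi.sub_apply, Pi.neg_apply, Pi.smul_apply, Finset.sum_apply, map_add,
    map_sub, map_neg, map_smul, map_sum, nl0 hv, smul_eq_mul] at k ⊢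
  have a : ∑ k, ((m * D.a k : ℕ) : ℝ) * nl v (M.hw (D.φ k) e z) =
      ((m * D.c : ℕ) : ℝ) * ∑ k, (D.a k : ℝ) / D.c * nl v (M.hw (D.φ k) e z) := by
    rw [Finset.mul_sum]
    refine Finset.sum_congr rfl fun k _ => ?_
    push_cast
    field_simp
  have b := mul_nonneg (Nat.cast_nonneg (α := ℝ) (m * D.c)) k
  rw [a]
  linarith

variable {D} {A : M.Co} {ψ : M.Fam ℝ}

theorem snc (h : AmpM D) {j k : I} (hk : j ≠ k) (x : M.X) (hx : M.ev (D.f j) x = 0) :
    ∃ᶠ y in 𝓝 x, M.ev (D.f j) y = 0 ∧ M.ev (D.f k) y ≠ 0 := by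
  by_cases h0 : M.ev (D.f k) x = 0
  swap
  · exact (frequently_pure.2 ⟨hx, h0⟩).filter_mono (pure_le_nhds x)
  obtain ⟨e, he, hxe, d⟩ := h.snc j k hk x
  have hz := e.map_source hxe
  have a := (not_iff_not.1 ((D.hol j).ne_iff he hxe)).1 hx
  obtain ⟨v, v1, v2⟩ := d a ((not_iff_not.1 ((D.hol k).ne_iff he hxe)).1 h0)
  have r := reg (D.hol j) fun y => (D.deg j y).imp fun _ t => ⟨t.1, t.2.1, fun u => (t.2.2 u).1⟩
  refine (e.tendsto_symm hxe).frequently
    (((freq ((D.hol j).holN e he _ hz) a (r e he _ hz a) ((D.hol k).holN e he _ hz) v1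
      v2).and_eventually (((zi (D.hol j).toSecC).and (zi (D.hol k).toSecC)).ev he hz)).mono
        fun w t => ⟨t.2.1.2 t.1.1, mt t.2.2.1 t.1.2⟩)

theorem one [M.Cpt] (h : AmpM D) (hA : M.WtC A ψ)
    (hψ : M.All fun e z => ∀ v, D.β e z *ᵥ v = 0 → nl v (M.hw ψ e z) ≤ 0) {p : I → ℕ}
    (hp : p ≠ 0) {s : M.Fam ℂ} (hs : M.All fun e z => HolN (s e) z)
    (hc : M.Ov fun e e' x => s e' (e' x) =
      s e (e x) * (A.c e e' x * ∏ k, (D.L k).c e e' x ^ p k)) :
    ∃ j, p j ≠ 0 ∧ M.All fun e z => D.f j e z = 0 → s e z = 0 := by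
  obtain ⟨w, g, C, w0, gs, amp⟩ := h.amp
  obtain ⟨i, hi⟩ := Function.ne_iff.1 hp
  obtain ⟨j, -, hj⟩ := Finset.exists_max_image Finset.univ (fun k => (p k : ℝ) / w k)
    ⟨i, Finset.mem_univ i⟩
  have le : ∀ k, p k * w j ≤ p j * w k := fun k => by
    exact_mod_cast (div_le_div_iff₀ (Nat.cast_pos.2 (w0 k)) (Nat.cast_pos.2 (w0 j))).1
      (hj k (Finset.mem_univ k))
  have pj : p j ≠ 0 := fun k => by
    have := le i
    rw [k, zero_mul, Nat.le_zero, mul_eq_zero] at this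
    exact this.elim hi (w0 j).ne'
  obtain ⟨W, χ, p1, p2, p3⟩ := prd D.wt w Finset.univ
  obtain ⟨q1, q2⟩ := p1.addF gs
  obtain ⟨a1, a2⟩ := hA.pw (w j)
  obtain ⟨b1, b2⟩ := q1.pw (p j)
  have hH : M.All fun e z =>
      HolN (fun y => s e y ^ w j * ∏ k, D.f k e y ^ (p j * w k - p k * w j)) z :=
    fun e he z hz => ((hs e he z hz).and (eventually_all.2 fun k =>
      (D.hol k).holN e he z hz)).mono fun y t => (t.1.fun_pow _).fun_mul
        (HasFDerivAt.finsetProd fun k _ => ((t.2 k).fun_pow _).hasFDerivAt).differentiableAt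
  have hS : M.HSecC (sm2 (A.pw (w j)) (W.pw (p j)))
      fun e z => s e z ^ w j * ∏ k, D.f k e z ^ (p j * w k - p k * w j) := by
    refine ⟨⟨fun e he z hz => ((mHOL n _ _).2.2 (hH e he z hz)).1,
      fun e he e' he' x hx hx' => ?_⟩, fun e he z hz => (hH e he z hz).self_of_nhds⟩
    have t1 := hc e he e' he' x hx hx'
    have t2 := fun k => (D.hol k).cmp e he e' he' x hx hx'
    have t3 : (∏ k, (D.L k).c e e' x ^ w k) ^ p j = (∏ k, (D.L k).c e e' x ^ p k) ^ w j *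
        ∏ k, (D.L k).c e e' x ^ (p j * w k - p k * w j) := by
      simp only [← Finset.prod_pow, ← Finset.prod_mul_distrib, ← pow_mul, ← pow_add,
        Nat.add_sub_cancel' (le _)]
      simp only [mul_comm]
    beta_reduce at t1 t2 ⊢
    simp only [sm2, Co.pw, p2, t1, t2, t3, mul_pow, Finset.prod_mul_distrib]
    ring
  have v := van (D.hol j) (D.wt j) hS (wmu a1 b1) fun x hx => by
    obtain ⟨e, he, hxe, d⟩ := D.deg j x
    have hz := e.map_source hxe
    obtain ⟨d1, v, v0, v1, v2⟩ := d ((not_iff_not.1 ((D.hol j).ne_iff he hxe)).1 hx)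
    refine ⟨e, he, hxe, d1, v, v1, show nl v _ < 0 from ?_⟩
    have k : 0 < nl v _ := (Complex.pos_iff.1 ((amp e he _ hz).dotProduct_mulVec_pos v0)).1
    rw [map_sub, map_smul, nl0 v2, smul_zero, zero_sub, neg_pos] at k
    rw [hw_add (a1.sm e he _ hz) (b1.sm e he _ hz), a2 e he _ hz, b2 e he _ hz, q2 e he _ hz,
      p3 e he _ hz, map_add, map_smul, map_smul]
    exact add_neg_of_nonpos_of_neg
      (mul_nonpos_of_nonneg_of_nonpos (Nat.cast_nonneg _) (hψ e he _ hz v v2))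
      (mul_neg_of_pos_of_neg (Nat.cast_pos.2 (Nat.pos_of_ne_zero pj)) k)
  obtain ⟨R, ρ, r1, r2, -⟩ := prd D.wt p Finset.univ
  have hs' : M.SecC (sm2 A R) s := ⟨fun e he z hz => ((mHOL n _ _).2.2 (hs e he z hz)).1,
    fun e he e' he' x hx hx' => by simpa only [sm2, r2] using hc e he e' he' x hx hx'⟩
  refine ⟨j, pj, fun e he z hz h0 => (zi hs' e he z hz).1 ((cl (wmu hA r1) hs').closure_subset
    (mem_closure_iff_frequently.2 ((dens (fun k => cl (D.wt k) (D.hol k).toSecC)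
      (Finset.univ.erase j) (fun k hk => snc h (Finset.ne_of_mem_erase hk).symm) _
      ((zi (D.hol j).toSecC e he z hz).2 h0)).mono fun y hy => ?_)))⟩
  refine eq_zero_of_pow_eq_zero ((mul_eq_zero.1 (v y hy.1)).resolve_right
    (Finset.prod_ne_zero_iff.2 fun k _ => ?_))
  by_cases t : k = j
  · rw [t, Nat.sub_self, pow_zero]
    exact one_ne_zero
  · exact pow_ne_zero _ (hy.2 k (Finset.mem_erase.2 ⟨t, Finset.mem_univ k⟩))

theorem ind [M.Cpt] (h : AmpM D) (hA : M.WtC A ψ)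
    (hψ : M.All fun e z => ∀ v, D.β e z *ᵥ v = 0 → nl v (M.hw ψ e z) ≤ 0) (N : ℕ) :
    ∀ (p : I → ℕ) (s : M.Fam ℂ), ∑ k, p k = N → (M.All fun e z => HolN (s e) z) →
      (M.Ov fun e e' x => s e' (e' x) = s e (e x) * (A.c e e' x * ∏ k, (D.L k).c e e' x ^ p k)) →
      ∃ s', M.HSecC A s' ∧ M.All fun e z => s e z = s' e z * ∏ k, D.f k e z ^ p k := by
  induction N with
  | zero =>
    intro p s hp hs hc
    have z : ∀ k, p k = 0 := fun k => Finset.sum_eq_zero_iff.1 hp k (Finset.mem_univ k)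
    simp only [z, pow_zero, Finset.prod_const_one, mul_one] at hc ⊢
    exact ⟨s, ⟨⟨fun e he z hz => ((mHOL n _ _).2.2 (hs e he z hz)).1, hc⟩,
      fun e he z hz => (hs e he z hz).self_of_nhds⟩, fun _ _ _ _ => rfl⟩
  | succ N ih =>
    intro p s hp hs hc
    obtain ⟨j, pj, hv⟩ := one h hA hψ (by rintro rfl; simp at hp) hs hc
    obtain ⟨q, rfl⟩ : ∃ q, p = q + Pi.single j 1 := ⟨p - Pi.single j 1, (tsub_add_cancel_of_le
      fun k => by
        rcases eq_or_ne k j with rfl | t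
        · simpa using Nat.one_le_iff_ne_zero.2 pj
        · simp [t]).symm⟩
    have t : ∀ g : I → ℂ,
        ∏ k, g k ^ (q + Pi.single j 1 : I → ℕ) k = (∏ k, g k ^ q k) * g j := fun g => by
      simp only [Pi.add_apply, pow_add, Finset.prod_mul_distrib]
      simp [Pi.single_apply]
    obtain ⟨R, ρ, r1, r2, -⟩ := prd D.wt q Finset.univ
    obtain ⟨s1, a1, a2⟩ := div (B := sm2 A R) (D.hol j) (reg (D.hol j) fun y =>
      (D.deg j y).imp fun _ t => ⟨t.1, t.2.1, fun u => (t.2.2 u).1⟩) hs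
      (fun e he e' he' x hx hx' => by
        simpa only [sm2, r2, t, mul_assoc] using hc e he e' he' x hx hx') hv
    obtain ⟨s', b1, b2⟩ := ih q s1 (by simpa [Finset.sum_add_distrib] using hp) a1.holN
      fun e he e' he' x hx hx' => by simpa only [sm2, r2] using a1.cmp e he e' he' x hx hx'
    refine ⟨s', b1, fun e he z hz => ?_⟩
    beta_reduce
    rw [t, a2 e he z hz, b2 e he z hz, mul_assoc]

end NEG

open NEG in
theorem kNEG : St_NEG := fun n M _ I _ D h m t ht => by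
  obtain ⟨A, ψ, hA, c, hψ⟩ := wtA D m
  have ne : M.Ov fun e e' x => ∏ k, (D.L k).c e e' x ^ (m * D.a k) ≠ 0 :=
    fun e he e' he' x hx hx' => Finset.prod_ne_zero_iff.2 fun k _ =>
      pow_ne_zero _ ((D.L k).ne e he e' he' x hx hx')
  obtain ⟨s, s1, s2⟩ := ind h hA hψ _ (fun k => m * D.a k) t rfl
    (fun e he z hz => ht.hol.ev he hz) fun e he e' he' x hx hx' => by
      beta_reduce
      rw [c, inv_mul_cancel_right₀ (ne e he e' he' x hx hx')]
      exact ht.cmp e he e' he' x hx hx'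
  refine ⟨s, ⟨s1.holN, fun e he e' he' x hx hx' => ?_⟩, s2⟩
  have k := s1.cmp e he e' he' x hx hx'
  beta_reduce at k ⊢
  rw [k, c, mul_assoc, inv_mul_cancel_right₀ (ne e he e' he' x hx hx')]
  simp

end Pool.Agent.Lib.KS
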