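import Pool.Agent.Lib.KS.Blue
import Pool.Agent.Lib.HW.Br

/-! Row AMP: transversality and relative ampleness on the manifold layer. -/

open scoped Classical Topology ContDiff ComplexOrder Matrix Manifold
open Set Complex Filter

noncomputable section

namespace Pool.Agent.Lib.KS

open Pool.Agent.Lib.SV (E)
open Pool.Agent.Lib.HS32 Pool.Agent.Lib.KP.T6
open Pool.Agent.Lib.HS.BBR (mf)
open Pool.Agent.Lib.RB.R32 (fam)

theorem AMP.pd_ctr {n : ℕ} {M : Mf n} {T : M.Fam (Mat n)} (hT : M.Form T)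
    (h : ∀ x, ∃ e ∈ M.C, x ∈ e.source ∧ ∀ y ≠ 0, 0 < nq (T e (e x)) y) :
    M.All fun e z => (T e z).PosDef :=
  Mf.allOn_of_source fun e he x hx => by
    obtain ⟨e', he', hx', h0⟩ := h x
    have hh := hT.herm e' he' _ (e'.map_source hx')
    have h1 : T e (e x) = _ := hT.cmp e' he' e he x hx' hx
    rw [h1]
    exact (Matrix.PosDef.of_dotProduct_mulVec_pos hh fun y hy => Complex.pos_iff.2
      ⟨h0 y hy, (hh.im_star_dotProduct_mulVec_self y).symm⟩).conjTranspose_mul_mul_same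
      (Matrix.mulVec_injective_of_isUnit ((Matrix.isUnit_iff_isUnit_det _).2
        ((mTR n M).2.1 e' he' e he x hx' hx).2.1.isUnit))

theorem AMP.clo_sum {n : ℕ} {M : Mf n} {I : Type} {T : I → M.Fam (Mat n)} (hT : ∀ k, M.Clo (T k))
    (b : I → ℝ) (s : Finset I) : M.Clo fun e z => ∑ k ∈ s, b k • T k e z := by
  induction s using Finset.induction_on with
  | empty => exact Mf.clo_zero.congr fun _ _ _ _ => by simp
  | insert a s ha ih =>
    exact (((hT a).smul (b a)).add ih).congr fun _ _ _ _ => by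
      simp only [Finset.sum_insert ha, Pi.add_apply, Pi.smul_apply]

theorem kAMP (hK : St_KEY) : St_AMP := by
  intro n X ι I _ _ _ _ G β U f u c a h i D o hA
  obtain ⟨h1, w, φ, C, w0, gl, h2⟩ := hA
  have hc : ∀ x : X, chartAt (E n) x ∈ (mf n X).C := HW.ch_mem
  obtain ⟨r, r1, r2, r3, r4⟩ : ∃ r : X → OpenPartialHomeomorph X (E n), (∀ x, r x ∈ h.M.C) ∧
      (∀ x, x ∈ (r x).source) ∧ (∀ x, (r x : X → E n) = chartAt (E n) x) ∧
      ∀ x, ((r x).symm : E n → X) = (chartAt (E n) x).symm := by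
    choose r r1 r2 r3 r4 using fun x : X =>
      restr (mf n X) (U := U) h.opn h.cov (hc x) (mem_chart_source (E n) x)
    exact ⟨r, r1, r2, r3, r4⟩
  have e0 : ∀ x : X, D.β (r x) (r x x) = β x := fun x => by
    have h0 : jm (chartAt (E n) x ∘ (chartAt (E n) x).symm) (chartAt (E n) x x) = 1 :=
      (mTR n (mf n X)).2.2.1 _ (hc x) x (mem_chart_source (M := X) (E n) x)
    rw [o.β]
    change (jm (chartAt (E n) ((r x).symm (r x x)) ∘ (r x).symm) (r x x))ᴴ *
      β ((r x).symm (r x x)) * jm (chartAt (E n) ((r x).symm (r x x)) ∘ (r x).symm) (r x x) = _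
    rw [(r x).left_inv (r2 x), r3, r4, h0, Matrix.conjTranspose_one, Matrix.one_mul, Matrix.mul_one]
  have ef : ∀ k (x : X), D.f k (r x) = f k (i (r x)) ∘ (r x).symm := fun k x =>
    funext fun z => o.f k (r x) z
  have e1 : ∀ k (x : X), D.f k (r x) (r x x) = f k (i (r x)) x := fun k x =>
    (o.f k (r x) _).trans (congrArg _ ((r x).left_inv (r2 x)))
  have e2 : ∀ k (x : X), fderiv ℂ (D.f k (r x)) (r x x) = EX.dAt n (f k (i (r x))) x := fun k x => by
    rw [ef, EX.dAt, r3, r4]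
  refine ⟨fun j k jk (x : X) => ⟨r x, r1 x, r2 x, fun a1 a2 => ?_⟩, ?_⟩
  · have := h1 j k _ jk x (o.sub _ (r1 x) (r2 x)) ((e1 j x).symm.trans a1) ((e1 k x).symm.trans a2)
    rwa [← e2, ← e2] at this
  obtain ⟨g, sg, hg⟩ := hK n X ι I U u h i D.L D.φ (w ·) φ o.sub o.L D.wt gl
    fun j x hx => (h2 j x hx).1
  have cB := AMP.clo_sum (fun k => (D.wt k).clo) (fun k => (w k : ℝ)) Finset.univ
  have cT : h.M.Clo fun e z => C • D.β e z -
      (∑ k, (w k : ℝ) • h.M.hw (D.φ k) e z + h.M.hs g e z) :=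
    ((D.cβ.smul C).sub (cB.add ((mHES n h.M).1 g sg))).congr fun _ _ _ _ => rfl
  refine ⟨w, g, C, w0, sg, ?_⟩
  refine AMP.pd_ctr cT.toForm fun (x : X) => ⟨r x, r1 x, r2 x, fun y hy => ?_⟩
  obtain ⟨j, hj⟩ := h.cov x
  obtain ⟨s1, s2⟩ := hg _ (r1 x) j _ ((r x).map_source (r2 x)) (by rwa [(r x).left_inv (r2 x)])
  have h3 := (h2 j x hj).2 y hy
  rw [← r3, ← r4, HW.levi_eq s1] at h3
  have h4 := (congrArg (nq · y) s2).symm.trans_lt h3
  change 0 < nq (C • D.β (r x) (r x x) - _) y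
  rw [e0, nq, Matrix.sub_mulVec, dotProduct_sub, sub_re, Matrix.smul_mulVec, dotProduct_smul,
    smul_re, smul_eq_mul]
  exact sub_pos.2 h4

end Pool.Agent.Lib.KS
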