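import Pool.Agent.Lib.KS.Blue

/-! Project ks, row PLU: pluricanonical forms in the preferred charts. -/

open scoped Topology Matrix Manifold ContDiff
open Set Filter

noncomputable section

namespace Pool.Agent.Lib.KS

open Pool.Agent.Lib.SV (E)
open Pool.Agent.Lib.HS32
open Pool.Agent.Lib.KP.T6 (restr)
open Pool.Agent.Lib.HS.BBR (mf cp_chart)

theorem kPLU : St_PLU := by
  intro n X ι I _ _ _ U u h m k t hi ht
  let c : X → OpenPartialHomeomorph X (E n) := chartAt (E n)
  have hc : ∀ x, c x ∈ (mf n X).C := fun x y => ⟨cp_chart x y, cp_chart y x⟩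
  have hs : ∀ x, x ∈ (c x).source := mem_chart_source (E n)
  choose r r1 r2 r3 r4 using fun x : X => restr (mf n X) (U := U) h.opn h.cov (hc x) (hs x)
  refine ⟨fun j x => t j (r x) (r x x), Fintype.linearIndependent_iff.2 fun a ha => ?_,
    fun j y => ?_⟩
  · refine congrFun (hi a fun e he z hz => ?_)
    have k1 : ∀ j, t j e z = t j (r (e.symm z)) (r (e.symm z) (e.symm z)) *
        (h.M.J (r (e.symm z)) e (e.symm z)).det ^ m := fun j => by
      have := (ht j).cmp _ (r1 (e.symm z)) e he _ (r2 _) (e.map_target hz)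
      beta_reduce at this
      rwa [e.right_inv hz] at this
    have k2 : ∑ j, a j * t j (r (e.symm z)) (r (e.symm z) (e.symm z)) = 0 :=
      (Finset.sum_apply _ _ _).symm.trans (congrFun ha (e.symm z))
    simp only [k1, smul_eq_mul, ← mul_assoc, ← Finset.sum_mul]
    exact mul_eq_zero_of_left k2 _
  · have e0 : r y y = c y y := congrFun (r3 y) y
    have hy := (r y).map_source (r2 y)
    rw [e0] at hy
    refine ((ht j).hol _ (r1 y) _ hy).congr_of_eventuallyEq ?_
    filter_upwards [(r y).open_target.mem_nhds hy] with w hw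
    obtain ⟨x, hx, hx', e1, e2⟩ : ∃ x : X, x ∈ (r y).source ∧ r y x = w ∧ (c y).symm w = x ∧
        c y x = w := ⟨(r y).symm w, (r y).map_target hw, (r y).right_inv hw,
      (congrFun (r4 y) w).symm, (congrFun (r3 y) _).symm.trans ((r y).right_inv hw)⟩
    have h4 : t j (r y) (r y x) = t j (r x) (r x x) * (jm (r x ∘ (r y).symm) (r y x)).det ^ m :=
      (ht j).cmp _ (r1 x) _ (r1 y) _ (r2 _) hx
    have h5 : HolN (r x ∘ (r y).symm) (r y x) :=
      ((mTR n h.M).2.1 _ (r1 x) _ (r1 y) _ (r2 _) hx).1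
    have e3 : (r x ∘ (r y).symm : E n → E n) = c x ∘ (c y).symm :=
      congrArg₂ (fun (f : X → E n) (g : E n → X) => f ∘ g) (r3 x) (r4 y)
    rw [e3, hx'] at h4 h5
    rw [h4, ← (mCHN n _ _ h5).2.2.2.2.2.2.1, ← e1]
    rfl

end Pool.Agent.Lib.KS
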