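import Pool.Agent.Lib.KS.All3
import Pool.Agent.Lib.KS.B_AMP
import Pool.Agent.Lib.KS.B_PLU

/-! Project ks: the case without boundary as a special case of the pairs. -/

open scoped Classical Topology ContDiff ComplexOrder Matrix Manifold
open Set MeasureTheory Filter

noncomputable section

namespace Pool.Agent.Lib.KS

open Pool.Agent.Lib.SV (E Pluri)
open Pool.Agent.Lib.HS32 Pool.Agent.Lib.HS32.Mf Pool.Agent.Lib.K3S Pool.Agent.Lib.K3S.MS
open Pool.Agent.Lib.KX (Pp Mv3)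

variable {n : ℕ} {M : Mf n} {I : Type} [Fintype I]

/-- The pair `P` is the datum `D`. -/
structure Eqv (D : Dk M I) (P : Pp M I) : Prop where
  H : P.H = D.H
  T : P.T = D.T
  β : P.β = D.β
  L : P.Lk = D.L
  f : P.f = D.f
  φ : P.φk = D.φ
  c : P.c = D.c
  a : ∀ k, P.a k = D.a k
  law : M.Ov fun e e' x =>
    P.L.c e e' x * ∏ k, (D.L k).c e e' x ^ D.a k = (M.J e e' x).det ^ D.c

theorem dkp [M.Cpt] (D : Dk M I) : ∃ P, Eqv D P := by
  have fin := (mMU n M _ D.kae.toMet).2.1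
  choose B B0 hB using fun k => (sg bSG D k).1.sm.exists_bound
  choose C hC using fun k => (sg bSG D k).2.2
  obtain ⟨L, φ, l1, l2, l3⟩ := BR3.bun D.kae.toMet D.wt D.c fun k => -D.a k
  have c0 : (D.c : ℝ) ≠ 0 := Nat.cast_ne_zero.2 D.c0.ne'
  refine ⟨⟨⟨D.H, D.T, D.β, fun k => M.hw (D.φ k), fun k => M.nrC (D.φ k) (D.f k),
    fun k => (D.a k : ℝ) / D.c, D.pos, D.kae, clo D, D.cβ, D.nβ, vol D, fun k => (sg bSG D k).1,
    fun e he z hz => ?_, fun k _ => bORT bSG n M I D k, D.nef,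
    bKLT _ I _ _ _ (∑ k, B k) (∑ k, |C k|) (fun k => by positivity) (fun k =>
      ⟨(sg bSG D k).1.sm.continuous.measurable, fun x => ⟨(sg bSG D k).1.nn x,
        ((le_abs_self _).trans (hB k x)).trans (Finset.single_le_sum (fun j _ => (B0 j).le)
          (Finset.mem_univ k))⟩⟩) fun k δ hδ => ((hC k δ hδ).trans (le_abs_self _)).trans
      (Finset.single_le_sum (f := fun k => |C k|) (fun j _ => abs_nonneg _) (Finset.mem_univ k))⟩,
    D.L, D.f, D.φ, D.hol, D.wt, fun _ => rfl, fun _ => rfl, D.c, D.c0, fun k => D.a k,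
    fun k => by simpa using div_mul_cancel₀ _ c0, L, φ, l1, fun e he z hz => ?_⟩,
    rfl, rfl, rfl, rfl, rfl, rfl, rfl, fun _ => rfl, fun e he e' he' x hx hx' => ?_⟩
  · simp only [Dk.T, Pi.sub_apply, Pi.neg_apply, Finset.sum_apply, Pi.smul_apply]
    abel
  · simp only [l3 e he z hz, Dk.T, Pi.sub_apply, Pi.neg_apply, Finset.sum_apply, Pi.smul_apply,
      smul_sub, Finset.smul_sum, smul_smul, mul_div_cancel₀ _ c0, Int.cast_neg, Int.cast_natCast,
      neg_smul, Finset.sum_neg_distrib, smul_neg]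
    abel
  · simp only [l2 e he e' he' x hx hx', zpow_neg, zpow_natCast, Finset.prod_inv_distrib]
    exact inv_mul_cancel_right₀ (Finset.prod_ne_zero_iff.2 fun k _ =>
      pow_ne_zero _ ((D.L k).ne e he e' he' x hx hx')) _

namespace Eqv

variable {D : Dk M I} {P : Pp M I} (h : Eqv D P)
include h

theorem pw (m : ℕ) : M.Ov fun e e' x =>
    P.L.c e e' x ^ m * ∏ k, (D.L k).c e e' x ^ (m * D.a k) = (M.J e e' x).det ^ (m * D.c) :=
  fun e he e' he' x hx hx' => by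
    simp only [mul_comm m, pow_mul, Finset.prod_pow, ← mul_pow, h.law e he e' he' x hx hx']

open NEG in
theorem neg [M.Cpt] (hA : AmpM D) : Neg3 P := fun m p _ t ht hc => by
  obtain ⟨g, C, -, gs, -, le⟩ := P.nef 1 one_pos
  obtain ⟨q1, q2⟩ := P.wL.addF (gs.const_mul (P.c : ℝ))
  obtain ⟨r1, r2⟩ := q1.pw m
  obtain ⟨w, g', C', w0, a⟩ := hA.amp
  refine ind3 (P := fun _ => True) (β := P.β) (by
    rw [h.β, h.f, h.φ]
    exact ⟨fun k _ => D.deg k, fun j k _ _ => hA.snc j k, w, g', C', fun k => iff_true_intro (w0 k),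
      a⟩) P.hol P.wt r1 (fun e he z hz v hv => ?_) _ p t rfl (fun _ _ => trivial) ht hc
  have k : 0 ≤ nl v _ := (Complex.nonneg_iff.1 ((le e he z hz).dotProduct_mulVec_nonneg v)).1
  rw [r2 e he z hz, q2 e he z hz, P.cur e he z hz, ((mLAP n M g g gs gs).1 _ e he z hz).2.2.2.1]
  simp only [Pi.add_apply, Pi.smul_apply, map_add, map_sub, map_smul, nl0 hv, smul_eq_mul] at k ⊢
  rw [← mul_add]
  exact mul_nonpos_of_nonneg_of_nonpos (Nat.cast_nonneg _)
    (mul_nonpos_of_nonneg_of_nonpos (Nat.cast_nonneg _) (by linarith))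

theorem mv {d : ℕ} (hM : Mv2 D d) : Mv3 P.L d := hM.imp fun C hC => hC.mono fun a ha => by
  obtain ⟨k, V, v1, v2, v3⟩ := ha
  refine ⟨k, V, v1, v2, fun s => ⟨(v3 s).1, fun e he e' he' x hx hx' => ?_⟩⟩
  have h1 := (v3 s).2 e he e' he' x hx hx'
  beta_reduce at h1 ⊢
  rw [pow_succ, ← h.pw a e he e' he' x hx hx', mul_right_comm, mul_comm _ (∏ _, _), mul_smul,
    mul_comm] at h1
  exact smul_right_injective _ (Finset.prod_ne_zero_iff.2 fun k _ =>
    pow_ne_zero _ ((D.L k).ne e he e' he' x hx hx')) h1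

theorem sc {m : ℕ} {t : M.Fam ℂ} (ht : M.HSecC (P.L.pw m) t) : Sc D m 0 t :=
  ⟨ht.holN, fun e he e' he' x hx hx' => by
    simp only [ht.cmp e he e' he' x hx hx', ← h.pw m e he e' he' x hx hx', Co.pw, Pi.zero_apply,
      pow_zero, Finset.prod_const_one, mul_one, mul_assoc]⟩

end Eqv

theorem Eqv.pl {X ι : Type} [TopologicalSpace X] [ChartedSpace (E n) X] [IsManifold 𝓘(ℂ, E n) ω X]
    {U : ι → Set X} {u : I → ι → ι → X → ℂ} {h : Cv n U u} [h.M.Cpt] {D : Dk h.M I} {P : Pp h.M I}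
    (o : Eqv D P) {d : ℕ} (h' : ∃ C : ℕ, {m : ℕ | ∃ (k : ℕ) (t : Fin k → h.M.Fam ℂ),
      (m + 1) ^ d ≤ C * k ∧ Ind t ∧ ∀ s, h.M.HSecC (P.L.pw m) (t s)}.Infinite) :
    ∃ C' : ℕ, {m : ℕ | ∃ (k : ℕ) (s : Fin k → X → ℂ), (m + 1) ^ d ≤ C' * k ∧
      LinearIndependent ℂ s ∧ ∀ j, s j ∈ Pluri n X m}.Infinite := by
  obtain ⟨C', h'⟩ := h'
  have inj : Function.Injective fun m : ℕ => m * D.c := fun _ _ h =>
    Nat.eq_of_mul_eq_mul_right D.c0 h
  refine ⟨D.c ^ d * C', (h'.image inj.injOn).mono ?_⟩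
  rintro _ ⟨m, ⟨k, t, t1, t2, t3⟩, rfl⟩
  obtain ⟨t', t4, t5⟩ := sc_mul bSG D t2 fun s => o.sc (t3 s)
  obtain ⟨s, s1, s2⟩ := kPLU n X ι I U u h _ k t' t4 t5
  refine ⟨k, s, ?_, s1, s2⟩
  rw [mul_assoc]
  refine le_trans ?_ (Nat.mul_le_mul_left _ t1)
  rw [← mul_pow]
  exact Nat.pow_le_pow_left (by nlinarith [D.c0]) d

theorem kk4 (hT : St_TK3) : St_KK2 := by
  intro n X ι I _ _ _ _ _ _ _ G β U f u c e q d C hn hG hβ hC hA hc hN hq
  obtain ⟨h, i, D, o⟩ := aBR0 n X ι I G β U f u c e hn hG hβ hC hc hN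
  have : h.M.Cpt := ⟨‹_›, ‹_›, ‹_›⟩
  obtain ⟨P, p⟩ := dkp D
  exact p.pl (hT n _ I P d (p.mv (aMV2 n X ι I G β U f u c e h i D q d C o hq))
    (p.neg (kAMP kKEY n X ι I G β U f u c e h i D o hA)))

end Pool.Agent.Lib.KS
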