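import Pool.Agent.Lib.KS.Blue
import Pool.Agent.Lib.ZK47.B_BRG

/-! Project ks, row KEY: the curvature of a metric given on the covering. -/

open scoped Classical Topology ContDiff ComplexOrder Matrix ENNReal Manifold
open Set MeasureTheory Complex Metric Filter

noncomputable section

namespace Pool.Agent.Lib.KS

open Pool.Agent.Lib.SV (E)
open Pool.Agent.Lib.HS32 Pool.Agent.Lib.HS.BBR Pool.Agent.Lib.KP.T6
open Pool.Agent.Lib.ZK47.Br (hsum)

theorem kKEY : St_KEY := by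
  intro n X ι I _ _ _ _ U u h i L φ b p hi' L1 hφ p1 p2
  have hi : ∀ e : OpenPartialHomeomorph X (E n), e ∈ h.M.C → e.source ⊆ U (i e) := hi'
  have hc : ∀ x : X, chartAt (E n) x ∈ (mf n X).C := HW.ch_mem
  have gl : ∀ a a', ∀ x ∈ U a ∩ U a',
      p a x = p a' x + ∑ k, b k * Real.log (normSq (u k a a' x)) := fun a a' x hx =>
    EReal.coe_eq_coe_iff.1 ((p1 a a' x hx).trans (EReal.coe_add _ _).symm)
  have sp : ∀ e : OpenPartialHomeomorph X (E n), e ∈ h.M.C → ∀ j, ∀ z ∈ e.target,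
      e.symm z ∈ U j → ContDiffAt ℝ ∞ (p j ∘ e.symm) z := fun e he j z hz hj => by
    have : ContDiffAt ℝ ∞ (p j ∘ e.symm) (e (e.symm z)) :=
      ((mTR n (mf n X)).2.2.2.1 ℝ (p j)).2.1 _ (hc (e.symm z)) e he.1 _
        (mem_chart_source (M := X) (E n) _) (e.map_target hz) (p2 j _ hj)
    rwa [e.right_inv hz] at this
  let Φ : h.M.Fam ℝ := fun (e : OpenPartialHomeomorph X (E n)) z =>
    p (i e) (e.symm z) - ∑ k, b k * φ k e z
  have iv : h.M.Inv Φ := by
    intro (e : OpenPartialHomeomorph X (E n)) he (e' : OpenPartialHomeomorph X (E n)) he' (x : X)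
      hx hx'
    have a1 : ∀ k, φ k e' (e' x) = φ k e (e x) + Real.log (normSq (u k (i e') (i e) x)) :=
      fun k => L1 k e e' x ▸ (hφ k).cmp e he e' he' x hx hx'
    change p (i e') (e'.symm (e' x)) - ∑ k, b k * φ k e' (e' x) =
      p (i e) (e.symm (e x)) - ∑ k, b k * φ k e (e x)
    simp only [e.left_inv hx, e'.left_inv hx', a1, mul_add, Finset.sum_add_distrib]
    rw [gl (i e') (i e) x ⟨hi e' he' hx', hi e he hx⟩]
    ring
  have sg : h.M.Sm (h.M.ev Φ) := iv.sm fun e he z hz =>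
    (sp e he _ z hz (hi e he (e.map_target hz))).sub
      (ContDiffAt.sum fun k _ => contDiffAt_const.mul ((hφ k).sm e he z hz))
  refine ⟨h.M.ev Φ, sg, fun e he j z hz hj => ⟨sp e he j z hz hj, ?_⟩⟩
  have ev : ∀ᶠ w in 𝓝 z, w ∈ e.target ∧ e.symm w ∈ U j :=
    (e.isOpen_inter_preimage_symm (h.opn j)).mem_nhds ⟨hz, hj⟩
  have hu : ∀ k, ContDiffAt ℝ ∞ (fun w => Real.log (normSq (u k j (i e) (e.symm w)))) z ∧
      hess (fun w => (Real.log (normSq (u k j (i e) (e.symm w))) : ℝ)) z = 0 := fun k => by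
    have h1 : HolN (fun w => u k j (i e) (e.symm w)) z := ev.mono fun w hw =>
      hol_chart (fun y => (he.1 y).2) hw.1 (h.unit k _ _ _ ⟨hw.2, hi e he (e.map_target hw.1)⟩).1
    obtain ⟨l1, l2, -⟩ := ((mHOL n _ _).2.2 h1).2.2.2
      (h.unit k _ _ _ ⟨hj, hi e he (e.map_target hz)⟩).2
    exact ⟨l1, l2⟩
  have e1 : (fun w => (p j (e.symm w) : ℂ)) =ᶠ[𝓝 z] fun w =>
      ((∑ k, b k * φ k e w : ℝ) : ℂ) + h.M.lc (h.M.ev Φ) e w +
        ((∑ k, b k * Real.log (normSq (u k j (i e) (e.symm w))) : ℝ) : ℂ) := by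
    filter_upwards [ev] with w hw
    have a1 : h.M.lc (h.M.ev Φ) e w = ((p (i e) (e.symm w) - ∑ k, b k * φ k e w : ℝ) : ℂ) :=
      congrArg ofReal (iv.rep e he w hw.1)
    rw [gl j (i e) _ ⟨hw.2, hi e he (e.map_target hw.1)⟩, a1]
    push_cast
    ring
  have s1 := cd_ofReal (ContDiffAt.sum (s := Finset.univ) fun k _ =>
    (contDiffAt_const (c := b k)).mul ((hφ k).sm e he z hz))
  rw [hess_congr e1, hess_add (s1.add (sg.lc e he z hz))
    (cd_ofReal (ContDiffAt.sum fun k _ => contDiffAt_const.mul (hu k).1)),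
    hess_add s1 (sg.lc e he z hz), hsum fun k => (hφ k).sm e he z hz, hsum fun k => (hu k).1]
  simp only [(hu _).2, smul_zero, Finset.sum_const_zero, add_zero]
  rfl

end Pool.Agent.Lib.KS
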