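import Pool.Agent.Lib.KS.Blue
import Pool.Agent.Lib.ZE.O_TOP

/-! Row BR0: from the data of the statement to the data on the manifold layer. -/

open scoped Classical Topology ContDiff ComplexOrder Matrix ENNReal Manifold
open Set MeasureTheory Complex Metric Filter

noncomputable section

namespace Pool.Agent.Lib.KS

open Pool.Agent.Lib.SV (E)
open Pool.Agent.Lib.HS32 Pool.Agent.Lib.HS.BBR Pool.Agent.Lib.RB.R32 Pool.Agent.Lib.KP.T6
open Pool.Agent.Lib.HS (inChart)
open Pool.Agent.Lib.ZK47.Br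

theorem kBR0 (hKEY : St_KEY) : St_BR0 := by
  intro n X ι I _ _ _ _ _ _ _ G w U f u c a hn hG hw hC c0 hN
  set b : I → ℝ := fun k => -(a k / c : ℝ) with hb
  have opn := hC.opn
  have cov := hC.cov
  have hol := hC.hol
  have unit := hC.unit
  have nf : ∀ k j, ∀ x ∈ U j, ∃ᶠ y in 𝓝 x, f k j y ≠ 0 := fun k j x hx =>
    ZE.TOP.frq_of fun h => (hC.deg k j x hx h).1
  have h : Cv n U u := ⟨opn, cov, fun k i j x hx => ⟨(unit k i j x hx).1, (unit k i j x hx).2.1⟩,
    fun k a b d x => coc opn (unit k) (nf k) a b d x⟩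
  let M : Mf n := h.M
  have cpt : M.Cpt := ⟨‹_›, ‹_›, ‹_›⟩
  have hc : ∀ x : X, chartAt (E n) x ∈ (mf n X).C := HW.ch_mem
  obtain ⟨r, r1, r2, r3, r4⟩ : ∃ r : X → OpenPartialHomeomorph X (E n), (∀ x, r x ∈ M.C) ∧
      (∀ x, x ∈ (r x).source) ∧ (∀ x, (r x : X → E n) = chartAt (E n) x) ∧
      ∀ x, ((r x).symm : E n → X) = (chartAt (E n) x).symm := by
    choose r r1 r2 r3 r4 using fun x : X =>
      restr (mf n X) (U := U) opn cov (hc x) (mem_chart_source (E n) x)
    exact ⟨r, r1, r2, r3, r4⟩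
  have hι : ∀ e : OpenPartialHomeomorph X (E n), ∃ i, e ∈ M.C → e.source ⊆ U i := fun e => by
    by_cases he : e ∈ M.C
    · exact he.2.imp fun _ hi _ => hi
    · obtain ⟨x⟩ : Nonempty X := inferInstance
      exact (cov x).imp fun _ _ h => absurd h he
  choose i hi using hι
  choose L L1 L2 using fun k => ex_co opn cov hi (hol k) (unit k)
    (coc opn (unit k) (nf k))
  choose φ hφ using fun k => KP.st_WT n M (L k)
  have g1 := HW.kae hG
  let H : M.Fam (Mat n) := fam (X := X) G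
  have kH : M.Kae H := ⟨⟨⟨⟨fun e he => g1.sm e he.1, fun e he e' he' => g1.cmp e he.1 e' he'.1⟩,
    fun e he => g1.herm e he.1⟩, fun e he => g1.cl e he.1⟩, fun e he => g1.pos e he.1⟩
  have fr : ∀ x, H (r x) = inChart G x := fun x => by
    funext z
    change (jm (chartAt (E n) ((r x).symm z) ∘ (r x).symm) z)ᴴ * G ((r x).symm z) *
      jm (chartAt (E n) ((r x).symm z) ∘ (r x).symm) z = _
    rw [r4]
    rfl
  have w0 := HW.kae hw.1
  have w1 : (mf n X).Clo (fam w) := (w0.toClo.sub g1.toClo).congr fun e _ z _ => by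
    simp only [Pi.sub_apply, fam, Pi.add_apply, Matrix.mul_add, Matrix.add_mul, add_sub_cancel_left]
  let β : M.Fam (Mat n) := fam (X := X) w
  have cβ : M.Clo β := ⟨⟨⟨fun e he => w1.sm e he.1, fun e he e' he' => w1.cmp e he.1 e' he'.1⟩,
    fun e he => w1.herm e he.1⟩, fun e he => w1.cl e he.1⟩
  have nβ : M.Le 0 β := DM.K63.le0.2 fun e _ z _ => (hw.2.1 _).conjTranspose_mul_mul_same _
  have e0 : ∀ x : X, β (r x) (r x x) = w x := fun x => by
    have h0 : jm (chartAt (E n) x ∘ (chartAt (E n) x).symm) (chartAt (E n) x x) = 1 :=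
      (mTR n (mf n X)).2.2.1 _ (hc x) x (mem_chart_source (M := X) (E n) x)
    change (jm (chartAt (E n) ((r x).symm (r x x)) ∘ (r x).symm) (r x x))ᴴ *
      w ((r x).symm (r x x)) * jm (chartAt (E n) ((r x).symm (r x x)) ∘ (r x).symm) (r x x) = _
    rw [(r x).left_inv (r2 x), r3, r4, h0, Matrix.conjTranspose_one, Matrix.one_mul, Matrix.mul_one]
  let B : M.Fam (Mat n) := fun e z => ∑ k, b k • M.hw (φ k) e z
  have cB : M.Clo B := by
    have : ∀ s : Finset I, M.Clo fun e z => ∑ k ∈ s, b k • M.hw (φ k) e z := fun s => by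
      induction s using Finset.induction_on with
      | empty => exact Mf.clo_zero.congr fun _ _ _ _ => by simp
      | insert a s ha ih =>
        exact (((hφ a).clo.smul (b a)).add ih).congr fun _ _ _ _ => by
          simp only [Finset.sum_insert ha, Pi.add_apply, Pi.smul_apply]
    exact this _
  have sl : ∀ e ∈ M.C, ∀ z ∈ e.target, ContDiffAt ℝ ∞ (fun w => Real.log (H e w).det.re) z :=
    fun e he z hz => ((mCOF n _ _ (kH.sm e he z hz)).2.2.2.2.2 (Mf.AllOn.ev kH.pos he hz)).2.1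
  have cR := (mHES n M).2.2.2.2.2.2.2.2.1 _ kH.toMet
  have nw : ∀ ε > (0 : ℝ), ∃ (ψ : M.X → ℝ) (C : ℝ), 0 ≤ C ∧ M.Sm ψ ∧
      M.Le 0 (B - M.ric H + ε • β + M.hs ψ) ∧ M.Le (B - M.ric H + ε • β + M.hs ψ) (C • β) := by
    intro ε hε
    obtain ⟨p, C, p1, p2⟩ := hN ε hε
    obtain ⟨g, sg, hg⟩ := hKEY n X ι I U u h i L φ b p hi L1 hφ p1 fun j x hx => (p2 j x hx).1
    have hf : M.Clo (B - M.ric H + ε • β + M.hs g) :=
      ((cB.sub cR).add (cβ.smul ε)).add ((mHES n M).1 g sg)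
    have ctr : ∀ (x : X) (y : E n), 0 ≤ nq ((B - M.ric H + ε • β + M.hs g) (r x) (r x x)) y ∧
        nq ((B - M.ric H + ε • β + M.hs g) (r x) (r x x)) y ≤ (C + ε) * nq (w x) y := fun x y => by
      have hz := (r x).map_source (r2 x)
      obtain ⟨j, hj⟩ := cov x
      obtain ⟨s1, s2⟩ := hg _ (r1 x) j _ hz (by rwa [(r x).left_inv (r2 x)])
      have h1 := (p2 j x hj).2 y
      rw [← fr, ← r3, ← r4] at h1
      have h3 : hess (fun w => ((p j ((r x).symm w) + Real.log (H (r x) w).det.re : ℝ) : ℂ))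
          (r x x) = B (r x) (r x x) + M.hs g (r x) (r x x) - M.ric H (r x) (r x x) := by
        simp only [ofReal_add]
        refine (hess_add (cd_ofReal s1) (cd_ofReal (sl _ (r1 x) _ hz))).trans ?_
        rw [Mf.ric, sub_neg_eq_add, ← s2]
        rfl
      have h4 := (HW.levi_eq (s1.add (sl _ (r1 x) _ hz)) y).trans (congrArg (nq · y) h3)
      have h5 : (B - M.ric H + ε • β + M.hs g) (r x) (r x x) =
          ε • w x + (B (r x) (r x x) + M.hs g (r x) (r x x) - M.ric H (r x) (r x x)) := by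
        simp only [Pi.add_apply, Pi.sub_apply, Pi.smul_apply, e0]
        abel
      have h7 := h1.1.trans_eq h4
      have h8 := h4.symm.trans_le h1.2
      rw [nq] at h7 h8
      rw [h5, nq, nq, Matrix.add_mulVec, dotProduct_add, add_re, Matrix.smul_mulVec,
        dotProduct_smul, smul_re, smul_eq_mul]
      constructor <;> linarith
    refine ⟨g, max C 0 + ε, by positivity, sg,
      ZE.TOP.le_ctr hf.toForm fun x => ⟨r x, r1 x, r2 x, fun y => (ctr x y).1⟩,
      Mf.le_iff_sub.2 (ZE.TOP.le_ctr ((cβ.toForm.smul _).sub hf.toForm) fun x =>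
        ⟨r x, r1 x, r2 x, fun y => ?_⟩)⟩
    have h1 := (ctr x y).2
    have h2 : 0 ≤ nq (w x) y := (Complex.nonneg_iff.1 ((hw.2.1 x).dotProduct_mulVec_nonneg y)).1
    have h3 := mul_le_mul_of_nonneg_right (add_le_add_left (le_max_left C 0) ε) h2
    change 0 ≤ nq ((max C 0 + ε) • β (r x) (r x x) -
      (B - M.ric H + ε • β + M.hs g) (r x) (r x x)) y
    rw [e0, nq, Matrix.sub_mulVec,
      dotProduct_sub, sub_re, Matrix.smul_mulVec, dotProduct_smul, smul_re, smul_eq_mul]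
    rw [nq, nq] at h1
    rw [nq] at h3
    linarith
  have eq : -M.ric H - ∑ k, ((a k : ℝ) / c) • M.hw (φ k) = B - M.ric H := by
    funext e z
    simp only [B, hb, Pi.sub_apply, Pi.neg_apply, Finset.sum_apply, Pi.smul_apply, neg_smul,
      Finset.sum_neg_distrib]
    abel
  refine ⟨h, i, {
      H := H, β := β, L := L, f := _, φ := φ, a := a, c := c, pos := hn, c0 := c0, kae := kH
      cβ := cβ, nβ := nβ, hol := L2, wt := hφ
      big := let ⟨x, hx⟩ := hw.2.2
        ⟨r x, r1 x, r x x, (r x).map_source (r2 x), (e0 x).symm ▸ hx⟩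
      deg := fun k (x : X) => ⟨r x, r1 x, r2 x, fun h0 => ?_⟩
      nef := eq ▸ nw }, hi, rfl, rfl, rfl, rfl, L1, fun _ _ _ => rfl⟩
  have := hC.deg k _ x (hi _ (r1 x) (r2 x))
    ((congrArg (f k (i (r x))) ((r x).left_inv (r2 x))).symm.trans h0)
  rw [EX.dAt, ← r3, ← r4, ← e0] at this
  exact this

end Pool.Agent.Lib.KS
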