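import Pool.Agent.Lib.KS.Blue
import Pool.Agent.Lib.HLK.B_CHT
import Pool.Agent.Lib.HLK.B_FK3

/-! Project ks, row CHP: regularity in a chart. -/

open scoped Classical Topology ContDiff ComplexOrder Matrix ENNReal NNReal
open Set MeasureTheory Complex Metric Filter

noncomputable section

namespace Pool.Agent.Lib.KS

open Pool.Agent.Lib.SV (E)
open Pool.Agent.Lib.HS32 Pool.Agent.Lib.HLK Pool.Agent.Lib.HLK.CHT
open Pool.Agent.Lib.IDX (geo)

namespace CHP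

/-- The local homotopy. -/
def Lo : Prop := ∀ (n : ℕ) (r : ℝ), 0 < r →
  ∃ (K : (E n → Fs n → ℂ) → E n → Fs n → ℂ) (ρ : E n → ℝ) (C : ℝ≥0),
    ContDiff ℝ ∞ ρ ∧ HasCompactSupport ρ ∧
    (∀ f g, ContDiff ℝ ∞ f → ContDiff ℝ ∞ g → K (f - g) = K f - K g) ∧
    ∀ f, ContDiff ℝ ∞ f → ContDiff ℝ ∞ (K f) ∧
      (∀ z, f z = (∫ x, ρ (z - x) • f x) + fq (K f) z + K (fq f) z) ∧
      ∀ S, MeasurableSet S → ∫⁻ z in S, ‖K f z‖ₑ ^ 2 ≤ C * ∫⁻ z in cthickening r S, ‖f z‖ₑ ^ 2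

theorem quad {X V : Type} [TopologicalSpace X] [NormedAddCommGroup V] [NormedSpace ℝ V]
    [ProperSpace V] {K : Set X} (hK : IsCompact K) {q : X × V → ℝ}
    (hc : ∀ z ∈ K, ∀ w, ContinuousAt q (z, w)) (hp : ∀ z ∈ K, ∀ w ≠ 0, 0 < q (z, w))
    (hh : ∀ z w (t : ℝ), q (z, t • w) = t ^ 2 * q (z, w)) : ∃ A : ℝ≥0, ∀ z ∈ K, ∀ w,
      ‖w‖ₑ ^ 2 ≤ A * ENNReal.ofReal (q (z, w)) ∧ ENNReal.ofReal (q (z, w)) ≤ A * ‖w‖ₑ ^ 2 := by
  have n0 : ∀ u ∈ sphere (0 : V) 1, u ≠ 0 := fun u hu => ne_zero_of_mem_unit_sphere ⟨u, hu⟩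
  obtain ⟨A, hA⟩ := (hK.prod (isCompact_sphere (0 : V) 1)).bddAbove_image
    (f := fun p => q p + (q p)⁻¹) fun p h => ((hc _ h.1 p.2).add ((hc _ h.1 p.2).inv₀
      (hp _ h.1 _ (n0 _ h.2)).ne')).continuousWithinAt
  refine ⟨A.toNNReal, fun z hz w => ?_⟩
  have e : ∀ t : ℝ, (A.toNNReal : ℝ≥0∞) * ENNReal.ofReal t = ENNReal.ofReal (max A 0 * t) :=
    fun t => by rw [ENNReal.ofReal_mul (le_max_right _ _), ← Real.coe_toNNReal',
      ENNReal.ofReal_coe_nnreal]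
  rw [← ofReal_norm, ← ENNReal.ofReal_pow (norm_nonneg _), e, e]
  by_cases c : w = 0
  · have := hh z w 0
    rw [zero_smul, ← c] at this
    rw [this, c]
    simp
  have w0 := norm_pos_iff.2 c
  have u1 : ‖w‖⁻¹ • w ∈ sphere (0 : V) 1 := by
    rw [mem_sphere_zero_iff_norm, norm_smul, norm_inv, norm_norm, inv_mul_cancel₀ w0.ne']
  have h1 : q (z, ‖w‖⁻¹ • w) + (q (z, ‖w‖⁻¹ • w))⁻¹ ≤ max A 0 :=
    (hA ⟨(z, ‖w‖⁻¹ • w), ⟨hz, u1⟩, rfl⟩).trans (le_max_left _ _)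
  have h2 := hp z hz _ (n0 _ u1)
  have h3 := hh z (‖w‖⁻¹ • w) ‖w‖
  rw [smul_inv_smul₀ w0.ne'] at h3
  rw [h3]
  generalize q (z, ‖w‖⁻¹ • w) = t at h1 h2
  have h4 := inv_pos.2 h2
  have h5 : 1 ≤ max A 0 * t := by
    rw [← inv_mul_cancel₀ h2.ne']
    exact mul_le_mul_of_nonneg_right (by linarith) h2.le
  have h6 := sq_nonneg ‖w‖
  exact ⟨ENNReal.ofReal_le_ofReal (by nlinarith), ENNReal.ofReal_le_ofReal (by nlinarith)⟩

theorem tz {ι : Type} {l : Filter ι} {f : ι → ℝ≥0∞} {c : ℝ≥0∞} (hc : c ≠ ⊤)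
    (h : Tendsto f l (𝓝 0)) : Tendsto (fun j => c * f j) l (𝓝 0) := by
  simpa using ENNReal.Tendsto.const_mul h (Or.inr hc)

theorem tl {ι : Type} {l : Filter ι} {f g : ι → ℝ≥0∞} (h : Tendsto g l (𝓝 0))
    (e : ∀ j, f j ≤ g j) : Tendsto f l (𝓝 0) :=
  tendsto_of_tendsto_of_tendsto_of_le_of_le tendsto_const_nhds h (fun _ => zero_le) e

theorem sq2 {V : Type} [NormedAddCommGroup V] (x y : V) :
    ‖x + y‖ₑ ^ 2 ≤ 2 * ‖x‖ₑ ^ 2 + 2 * ‖y‖ₑ ^ 2 := by
  refine (pow_le_pow_left' (enorm_add_le x y) 2).trans ?_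
  simp only [enorm_eq_nnnorm]
  norm_cast
  rw [← mul_add]
  exact add_sq_le

variable {n : ℕ} {M : Mf n} {σ : Type} [Fintype σ] [DecidableEq σ]

/-- The local squared norm, as an upper integral. -/
def nE (g : Geo M σ) (S : Set M.X) (r : Pre g) : ℝ≥0∞ :=
  ∫⁻ x in S, ENNReal.ofReal (g.b.pn r.val x) ∂M.mu g.H

theorem tN [M.Cpt] {g : Geo M σ} {ι : Type} {l : Filter ι} {S : Set M.X} {r : ι → Pre g} :
    Tendsto (fun j => nS g S (r j)) l (𝓝 0) ↔ Tendsto (fun j => nE g S (r j)) l (𝓝 0) := by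
  have e : ∀ j, ENNReal.ofReal (nS g S (r j)) = nE g S (r j) := fun j =>
    ofReal_integral_eq_lintegral_ofReal (Pre.itg (r j) (r j)).re.integrableOn
      (ae_of_all _ fun x => Pre.pn_nonneg _ x)
  simp only [← e]
  refine ⟨fun h => by simpa using ENNReal.tendsto_ofReal h, fun h => ?_⟩
  refine ((ENNReal.tendsto_toReal ENNReal.zero_ne_top).comp h).congr fun j => ?_
  exact ENNReal.toReal_ofReal (integral_nonneg fun x => Pre.pn_nonneg _ x)

theorem cmp [M.Cpt] (g : Geo M σ) {e : M.Ch} (he : e ∈ M.C) {R S : E n → Mx σ}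
    (hR : ∀ z ∈ e.target, SmX S z ∧ R z * S z = 1 ∧ S z * R z = 1) {K : Set (E n)}
    (hK : IsCompact K) (hs : K ⊆ e.target) : ∃ A : ℝ≥0, ∀ B ⊆ K, MeasurableSet B → ∀ s : Pre g,
      ∫⁻ z in B, ‖R z *ᵥ s.val e z‖ₑ ^ 2 ≤ A * nE g (e.symm '' B) s ∧
      nE g (e.symm '' B) s ≤ A * ∫⁻ z in B, ‖R z *ᵥ s.val e z‖ₑ ^ 2 := by
  have cx : ∀ {T : E n → Mx σ} {z}, SmX T z → ContinuousAt T z := fun h =>
    continuousAt_pi.2 fun i => continuousAt_pi.2 fun j => (h i j).continuousAt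
  have cF : Continuous fun p : (Mx σ × Mx σ) × ℝ × (σ → ℂ) =>
      p.2.1 * (star (p.1.1 *ᵥ p.2.2) ⬝ᵥ p.1.2 *ᵥ p.1.1 *ᵥ p.2.2).re := by fun_prop
  obtain ⟨A, hA⟩ := quad hK (q := fun p : E n × (σ → ℂ) => (g.H e p.1).det.re *
      (star (S p.1 *ᵥ p.2) ⬝ᵥ g.b.G e p.1 *ᵥ S p.1 *ᵥ p.2).re)
    (fun z hz w => cF.continuousAt.comp (f := fun p : E n × (σ → ℂ) =>
      ((S p.1, g.b.G e p.1), (g.H e p.1).det.re, p.2))
      (((cx (hR z (hs hz)).1).fst'.prodMk (cx (g.ok.gsm e he z (hs hz))).fst').prodMk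
        ((cd_re (g.met.sm e he z (hs hz)).det).continuousAt.fst'.prodMk continuousAt_snd)))
    (fun z hz w hw => mul_pos (Mf.pd_det_re (g.met.pos e he z (hs hz)))
      (Complex.lt_def.1 ((g.ok.pos e he z (hs hz)).dotProduct_mulVec_pos fun c => hw (by
        rw [← Matrix.one_mulVec w, ← (hR z (hs hz)).2.1, ← Matrix.mulVec_mulVec, c,
          Matrix.mulVec_zero]))).1)
    fun z w t => by
      simp only [Matrix.mulVec_smul, star_smul, star_trivial, smul_dotProduct, dotProduct_smul,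
        Complex.smul_re, smul_eq_mul]
      ring
  refine ⟨A, fun B hB mB s => ?_⟩
  have k : ∀ z ∈ B, ENNReal.ofReal (g.H e z).det.re * ENNReal.ofReal (g.b.pn s.val (e.symm z)) =
      ENNReal.ofReal ((g.H e z).det.re * (star (S z *ᵥ R z *ᵥ s.val e z) ⬝ᵥ g.b.G e z *ᵥ
        S z *ᵥ R z *ᵥ s.val e z).re) := fun z hz => by
    have t := hs (hB hz)
    rw [ENNReal.ofReal_mul (Mf.pd_det_re (g.met.pos e he z t)).le, Bun.pn,
      (g.ok.pp_rep s.sec s.sec).1 e he z t, Matrix.mulVec_mulVec _ (S z), (hR z t).2.2,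
      Matrix.one_mulVec]
  rw [nE, ((mMU n M g.H g.met).2.2.2.2.2.1 e he B mB (hB.trans hs)).2.1,
    ← lintegral_const_mul' _ _ ENNReal.coe_ne_top, ← lintegral_const_mul' _ _ ENNReal.coe_ne_top]
  exact ⟨setLIntegral_mono' mB fun z hz => k z hz ▸ (hA z (hB hz) _).1,
    setLIntegral_mono' mB fun z hz => k z hz ▸ (hA z (hB hz) _).2⟩

theorem core (hLOC : Lo) (hLIM : St_LIM) [M.Cpt] (g : Geo M (Fs n)) (Q : Pre g →+ Pre g)
    {e : M.Ch} (he : e ∈ M.C) {R S : E n → Mx (Fs n)}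
    (hR : ∀ z ∈ e.target, SmX R z ∧ SmX S z ∧ R z * S z = 1 ∧ S z * R z = 1)
    (hQ : ∀ s : Pre g, ∀ z ∈ e.target,
      fq (fun w => R w *ᵥ s.val e w) z = R z *ᵥ (Q s).val e z)
    (fc : ∀ z (f f' : E n → Fs n → ℂ), f =ᶠ[𝓝 z] f' → fq f z = fq f' z)
    (fs : ∀ z (f : E n → Fs n → ℂ), ContDiffAt ℝ ∞ f z → ContDiffAt ℝ ∞ (fq f) z)
    {K : Set M.X} (hK : IsCompact K) (hs : K ⊆ e.source) : Pk (nS g) Q K := by
  rintro b a₀ hb ⟨V, oV, KV, hV⟩
  have cK : IsCompact (e '' K) := hK.image_of_continuousOn (e.continuousOn.mono hs)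
  obtain ⟨r4, r0, hr⟩ := cK.exists_cthickening_subset_open (e.isOpen_inter_preimage_symm oV) (by
    rintro _ ⟨x, hx, rfl⟩
    exact ⟨e.map_source (hs hx), by rw [mem_preimage, e.left_inv (hs hx)]; exact KV hx⟩)
  obtain ⟨r, rfl⟩ : ∃ r, r4 = 4 * r := ⟨r4 / 4, by ring⟩
  replace r0 : 0 < r := by linarith
  have cT := cK.cthickening (r := 4 * r)
  obtain ⟨χ, χs, χ0, χ1, χb⟩ := TH.exists_cut (cK.cthickening (r := 3 * r)) isOpen_thickening
    (cthickening_subset_thickening' (δ₂ := 4 * r) (by linarith) (by linarith) _)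
  replace χ0 : ∀ z ∉ cthickening (4 * r) (e '' K), χ z = 0 := fun z hz =>
    image_eq_zero_of_notMem_tsupport fun c => hz (thickening_subset_cthickening _ _ (χ0 c))
  have s1 : cthickening r (thickening r (e '' K)) ⊆ thickening (3 * r) (e '' K) :=
    (cthickening_thickening_subset r0.le _ _).trans
      (cthickening_subset_thickening' (by linarith) (by linarith) _)
  have s2 : thickening (3 * r) (e '' K) ⊆ cthickening (4 * r) (e '' K) :=
    thickening_subset_cthickening_of_le (by linarith) _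
  replace χ1 : ∀ z ∈ thickening (3 * r) (e '' K), ∀ᶠ w in 𝓝 z, χ w = 1 := fun z hz =>
    (isOpen_thickening.eventually_mem hz).mono fun w hw =>
      χ1 w (thickening_subset_cthickening _ _ hw)
  have oB : IsOpen (thickening r (e '' K)) := isOpen_thickening
  have kB : e '' K ⊆ thickening r (e '' K) := self_subset_thickening r0 _
  have s0 := self_subset_cthickening (δ := r) (thickening r (e '' K))
  generalize cthickening (4 * r) (e '' K) = T at hr cT χ0 s2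
  generalize thickening r (e '' K) = B at s0 s1 oB kB
  have hT : T ⊆ e.target := fun z hz => (hr hz).1
  have BT : B ⊆ T := s0.trans (s1.trans s2)
  have χn : ∀ z (v : Fs n → ℂ), ‖χ z • v‖ₑ ^ 2 ≤ ‖v‖ₑ ^ 2 := fun z v => by
    refine pow_le_pow_left' (enorm_le_iff_norm_le.2 ?_) 2
    rw [norm_smul, Real.norm_of_nonneg (χb z).1]
    exact mul_le_of_le_one_left (norm_nonneg _) (χb z).2
  obtain ⟨A, hA⟩ := cmp g he (fun z hz => (hR z hz).2) cT hT
  obtain ⟨P, ρ, C, ρs, ρc, Ps, hP⟩ := hLOC n r r0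
  obtain ⟨lo, hlo⟩ : ∃ lo : Pre g → E n → Fs n → ℂ,
    ∀ s z, lo s z = χ z • R z *ᵥ s.val e z := ⟨_, fun _ _ => rfl⟩
  have l0 : ∀ s, ∀ z ∉ T, lo s z = 0 := fun s z hz => by rw [hlo, χ0 z hz, zero_smul]
  have ls : ∀ s, ContDiff ℝ ∞ (lo s) := fun s => contDiff_iff_contDiffAt.2 fun z => by
    by_cases c : z ∈ T
    · rw [funext (hlo s)]
      exact χs.1.contDiffAt.smul (cd_mv (hR z (hT c)).1 (s.sec.sm e he z (hT c)))
    · exact contDiffAt_const.congr_of_eventuallyEq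
        ((cT.isClosed.isOpen_compl.eventually_mem c).mono (l0 s))
  have ld : ∀ s s' z, lo s z - lo s' z = lo (s - s') z := fun s s' z => by
    simp only [hlo, Pre.val_sub, Pi.sub_apply, Matrix.mulVec_sub, smul_sub]
  have lb : ∀ s, ∫⁻ z, ‖lo s z‖ₑ ^ 2 ≤ A * nE g V s := fun s => by
    rw [← setLIntegral_eq_of_support_subset (s := T) fun z hz => by_contra fun c => hz (by
      simp [l0 s z c])]
    refine ((lintegral_mono fun z => ?_).trans (hA T Subset.rfl cT.measurableSet s).1).trans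
      (mul_le_mul_right (lintegral_mono_set ?_) _)
    · rw [hlo]
      exact χn _ _
    · rintro _ ⟨z, hz, rfl⟩
      exact (hr hz).2
  have u0 : ∀ f : E n → Fs n → ℂ, ∀ z ∉ T, χ z • S z *ᵥ f z = 0 := fun f z hz => by
    rw [χ0 z hz, zero_smul]
  obtain ⟨up, hup⟩ : ∃ up : (E n → Fs n → ℂ) → Pre g, ∀ f, ContDiff ℝ ∞ f →
      (up f).val = wf g.b e fun z => χ z • S z *ᵥ f z :=
    ⟨fun f => if h : ContDiff ℝ ∞ f then Pre.mk _ (wf_sec g.ok he cT hT (u0 f) fun z hz =>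
      χs.1.contDiffAt.smul (cd_mv (hR z (hT hz)).2.1 h.contDiffAt)) else 0, fun f h => by
      simp only [dif_pos h, Pre.val_mk]⟩
  have u1 : ∀ f, ContDiff ℝ ∞ f → ∀ z ∈ e.target, R z *ᵥ (up f).val e z = χ z • f z :=
    fun f hf z hz => by
      rw [hup f hf, wf_self g.ok he _ hz, Matrix.mulVec_smul, Matrix.mulVec_mulVec,
        (hR z hz).2.2.1, Matrix.one_mulVec]
  have c0 : Tendsto (fun p : ℕ × ℕ => ∫⁻ z, ‖lo (b p.1) z - lo (b p.2) z‖ₑ ^ 2) atTop (𝓝 0) :=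
    tl (tz ENNReal.coe_ne_top (tN.1 hb)) fun p => by
      simp only [ld]
      exact (lb _).trans (mul_le_mul_right (lintegral_mono_set (subset_univ _)) _)
  obtain ⟨a, sa, ha⟩ := hLIM n ρ T (fun j => lo (b j)) ρs ρc cT
    (fun j => ⟨(ls _).continuous, l0 _⟩) c0
  have sP := fun s => (hP _ (ls s)).1
  refine ⟨up (a + P (lo a₀)), fun j => up (P (lo (b j))), tN.2 ?_, e.symm '' B,
    e.symm.isOpen_image_of_subset_source oB (BT.trans hT),
    fun x hx => ⟨e x, kB ⟨x, hx, rfl⟩, e.left_inv (hs hx)⟩, tN.2 ?_⟩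
  · refine tl (tz (c := A) ENNReal.coe_ne_top (tz (c := C) ENNReal.coe_ne_top c0)) fun p => ?_
    rw [nE, Measure.restrict_univ, ← setLIntegral_eq_of_support_subset (s := e.symm '' T)
      fun y hy => by_contra fun c => hy ?_]
    · refine (hA T Subset.rfl cT.measurableSet _).2.trans (mul_le_mul_right ?_ _)
      refine le_trans (setLIntegral_mono' cT.measurableSet fun z hz => ?_)
        (((hP _ ((ls (b p.1)).sub (ls (b p.2)))).2.2 T cT.measurableSet).trans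
          (mul_le_mul_right (setLIntegral_le_lintegral _ _) _))
      rw [Pre.val_sub, Pi.sub_apply, Pi.sub_apply, Matrix.mulVec_sub, u1 _ (sP _) z (hT hz),
        u1 _ (sP _) z (hT hz), ← smul_sub, ← Pi.sub_apply, ← Ps _ _ (ls _) (ls _)]
      exact χn _ _
    · have z0 : ∀ s, (up (P (lo s))).val (M.ch y) (M.ch y y) = 0 := fun s => by
        rw [hup _ (sP s)]
        exact (wf_zero cT hT (u0 _) (Mf.mem_ch y) c).self_of_nhds
      simp [Bun.pn, Bun.pp, Mf.ev, z0]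
  obtain ⟨η, hη, h1⟩ : ∃ η : ℕ → ℝ≥0∞, Tendsto η atTop (𝓝 0) ∧
      ∀ j z, ‖(∫ x, ρ (z - x) • lo (b j) x) - a z‖ₑ ≤ η j :=
    ⟨fun j => ⨆ z, edist (a z) (∫ x, ρ (z - x) • lo (b j) x), ENNReal.tendsto_nhds_zero.2
      fun ε ε0 => (EMetric.tendstoUniformly_iff.1 ha ε ε0).mono fun j hj =>
        iSup_le fun z => (hj z).le, fun j z => by
      rw [← edist_eq_enorm_sub, edist_comm]
      exact le_iSup (fun z => edist (a z) (∫ x, ρ (z - x) • lo (b j) x)) z⟩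
  have h2 : Tendsto (fun j => volume T * (2 * η j ^ 2) +
      2 * (C * (A * nE g V (Q (b j) - a₀)))) atTop (𝓝 0) := by
    have := (tz (cT.measure_lt_top (μ := volume)).ne (tz (c := 2) (by simp)
      ((ENNReal.Tendsto.pow (n := 2) hη).trans (by simp)))).add (tz (c := 2) (by simp) (tz (c := C) ENNReal.coe_ne_top
        (tz (c := A) ENNReal.coe_ne_top (tN.1 hV))))
    rwa [add_zero] at this
  refine tl (tz (c := A) ENNReal.coe_ne_top h2) fun j => ?_
  have sq : ContDiff ℝ ∞ (fq (lo (b j))) :=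
    contDiff_iff_contDiffAt.2 fun z => fs z _ (ls _).contDiffAt
  refine (hA B BT oB.measurableSet _).2.trans (mul_le_mul_right ?_ _)
  refine (setLIntegral_mono' oB.measurableSet (g := fun z => 2 * η j ^ 2 +
    2 * ‖P (fq (lo (b j)) - lo a₀) z‖ₑ ^ 2) fun z hz => ?_).trans ?_
  · have t := hT (BT hz)
    have o := χ1 z (s1 (s0 hz))
    have e1 : R z *ᵥ (b j).val e z = lo (b j) z := by rw [hlo, o.self_of_nhds, one_smul]
    have e2 : R z *ᵥ (Q (up (P (lo (b j))))).val e z = fq (P (lo (b j))) z := by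
      rw [← hQ _ z t]
      refine fc _ _ _ ?_
      filter_upwards [o, e.open_target.mem_nhds t] with w h h'
      rw [u1 _ (sP _) w h', h, one_smul]
    have e3 : R z *ᵥ (b j - up (a + P (lo a₀)) - Q (up (P (lo (b j))))).val e z =
        ((∫ x, ρ (z - x) • lo (b j) x) - a z) + P (fq (lo (b j)) - lo a₀) z := by
      simp only [Pre.val_sub, Pi.sub_apply, Matrix.mulVec_sub]
      rw [e1, e2, u1 (a + P (lo a₀)) (sa.add (sP _)) z t, o.self_of_nhds, one_smul, Ps _ _ sq (ls _),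
        Pi.add_apply, Pi.sub_apply]
      nth_rw 1 [(hP _ (ls (b j))).2.1 z]
      abel
    rw [e3]
    exact (sq2 _ _).trans (add_le_add_left (mul_le_mul_right (pow_le_pow_left' (h1 j z) 2) _) _)
  rw [lintegral_add_left measurable_const, setLIntegral_const, mul_comm,
    lintegral_const_mul' _ _ (by simp)]
  refine add_le_add (mul_le_mul_left (measure_mono BT) _) (mul_le_mul_right
    (((hP _ (sq.sub (ls a₀))).2.2 B oB.measurableSet).trans (mul_le_mul_right ?_ _)) _)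
  refine ((setLIntegral_mono' isClosed_cthickening.measurableSet fun z hz => le_of_eq ?_).trans
    (setLIntegral_le_lintegral _ _)).trans (lb _)
  have o := χ1 z (s1 hz)
  rw [← ld, hlo (Q _), o.self_of_nhds, one_smul, ← hQ _ z (hT (s2 (s1 hz))),
    fc z (lo (b j)) (fun w => R w *ᵥ (b j).val e w) (o.mono fun w h => by rw [hlo, h, one_smul])]

end CHP

theorem kCHP (hLOC : CHP.Lo) (hLIM : St_LIM) (hLOW : St_LOW) (hRAI : St_RAI) : St_CHP := by
  intro n M _ H L φ hH hb hq hK _ e he K hs cK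
  obtain ⟨r1, -, -, r2⟩ := hRAI n M L
  refine CHP.core hLOC hLIM (geo L φ hH hb) _ he (R := fun z => La (H e z))
    (S := fun z => La (H e z)⁻¹) (fun z hz => ⟨FK3.sm (hH.sm e he z hz), FK3.sm
      ((hH.sm e he z hz).inv (hH.pos e he z hz).det_pos.ne'), (r1 H φ hH).2.2 e he z hz⟩)
    (fun s z hz => ?_) (fun z => (r2 z).2.1) (fun z => (r2 z).2.2.1) cK hs
  exact (hLOW n M H s.val hK e he z hz (s.sec.sm e he z hz)).trans
    (congrArg _ (Pre.op_val (g := geo L φ hH hb) hq s e he z hz).symm)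

end Pool.Agent.Lib.KS
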