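import Pool.Agent.Lib.KS.Blue
import Pool.Agent.Lib.HLK.B_CUT

/-! Row CUT: local squared norms and cut-off operators. -/

open scoped Classical Topology ContDiff ComplexOrder Matrix
open Set MeasureTheory Complex Filter

noncomputable section

namespace Pool.Agent.Lib.KS

open Pool.Agent.Lib.SV (E)
open Pool.Agent.Lib.HS32 Pool.Agent.Lib.HLK Pool.Agent.Lib.GH
open Pool.Agent.Lib.IDX (geo)

namespace CUT

variable {n : ℕ} {M : Mf n} {σ : Type} [Fintype σ] [DecidableEq σ] {g : Geo M σ}

theorem pn_smul {t s : M.Fam (σ → ℂ)} {x : M.X} {a : ℝ} (h : M.ev t x = (a : ℂ) • M.ev s x) :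
    g.b.pn t x = a ^ 2 * g.b.pn s x := by
  rw [Bun.pn, Bun.pn, Bun.pp, Bun.pp, h, star_smul, smul_dotProduct, Matrix.mulVec_smul,
    dotProduct_smul, Complex.star_def, Complex.conj_ofReal, smul_smul, smul_eq_mul,
    ← Complex.ofReal_mul, Complex.re_ofReal_mul, sq]

theorem pn_add (t s : M.Fam (σ → ℂ)) (x : M.X) :
    g.b.pn (t + s) x ≤ 2 * g.b.pn t x + 2 * g.b.pn s x := by
  have h := Pre.pn_nonneg (g := g) (t - s) x
  have e1 : M.ev (t + s) x = M.ev t x + M.ev s x := rfl
  have e2 : M.ev (t - s) x = M.ev t x - M.ev s x := rfl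
  simp only [Bun.pn, Bun.pp, e1, e2, star_add, star_sub, Matrix.mulVec_add, Matrix.mulVec_sub,
    add_dotProduct, sub_dotProduct, dotProduct_add, dotProduct_sub, add_re, sub_re] at h ⊢
  linarith

theorem itg [M.Cpt] (r : Pre g) : Integrable (g.b.pn r.val) (M.mu g.H) := (Pre.itg r r).re

theorem le_of [M.Cpt] {t s : Pre g} {A : ℝ} (h : ∀ x, g.b.pn t.val x ≤ A * g.b.pn s.val x)
    (S : Set M.X) : nS g S t ≤ A * nS g S s := by
  rw [nS, nS, ← integral_const_mul]
  exact integral_mono (itg t).integrableOn ((itg s).const_mul A).integrableOn h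

theorem le_loc [M.Cpt] {t s : Pre g} {A : ℝ} {V : Set M.X}
    (h : ∀ x, g.b.pn t.val x ≤ A * g.b.pn s.val x) (h0 : ∀ x ∉ V, g.b.pn t.val x = 0)
    {S : Set M.X} (hS : IsOpen S) : nS g S t ≤ A * nS g (S ∩ V) s := by
  refine le_trans (le_of_eq ?_) (le_of h _)
  exact setIntegral_eq_of_subset_of_forall_sdiff_eq_zero hS.measurableSet inter_subset_left
    fun x hx => h0 x fun hv => hx.2 ⟨hx.1, hv⟩

theorem loc (hZ : HLK.St_ZER) [M.Cpt] (g : Geo M σ) (D : Op M σ)
    (hq : ∀ W, g.b.Sec W → g.b.Sec (D.ap W))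
    (hs : M.All fun e z => ∀ k, SmX (D.A k e) z ∧ SmX (D.B k e) z)
    (hqq : ∀ W, g.b.Sec W → M.All fun e z => D.ap (D.ap W) e z = 0) :
    Loc (nS g) (Pre.op D hq).toAddMonoidHom where
  nn S r := integral_nonneg fun x => Pre.pn_nonneg _ x
  emp r := setIntegral_empty
  add S r r' := by
    rw [nS, nS, nS, ← integral_const_mul, ← integral_const_mul,
      ← integral_add ((itg r).const_mul 2).integrableOn ((itg r').const_mul 2).integrableOn]
    exact integral_mono (itg _).integrableOn
      (((itg r).const_mul 2).add ((itg r').const_mul 2)).integrableOn fun x => pn_add _ _ x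
  neg S r := integral_congr_ae (Eventually.of_forall fun x => by
    have := pn_smul (g := g) (t := (-r).val) (s := r.val) (x := x) (a := -1) (by
      rw [ofReal_neg, ofReal_one, neg_one_smul]; rfl)
    rw [this]
    ring)
  mono S S' r h := setIntegral_mono_set (itg r).integrableOn
    (Eventually.of_forall fun x => Pre.pn_nonneg _ x) h.eventuallyLE
  un S S' r := by
    rw [nS, nS, nS, ← integral_add_measure (itg r).integrableOn (itg r).integrableOn]
    exact integral_mono_measure (Measure.restrict_union_le S S')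
      (Eventually.of_forall fun x => Pre.pn_nonneg _ x)
      (Integrable.add_measure (itg r).integrableOn (itg r).integrableOn)
  qq r := Pre.ext (funext fun e => funext fun z => by
    show (if e ∈ M.C ∧ z ∈ e.target then D.ap (Pre.op D hq r).val e z else 0) = 0
    split_ifs with c
    · refine Eq.trans ?_ (hqq _ r.sec e c.1 z c.2)
      have ev := (Pre.op_val hq r).ev c.1 c.2
      have e1 : ∀ k, dzv k ((Pre.op D hq r).val e) z = dzv k (D.ap r.val e) z :=
        fun k => funext fun i => dz_congr (ev.mono fun w hw => congrFun hw i)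
      have e2 : ∀ k, dzbv k ((Pre.op D hq r).val e) z = dzbv k (D.ap r.val e) z :=
        fun k => funext fun i => dzb_congr (ev.mono fun w hw => congrFun hw i)
      rw [Op.ap, Op.ap.eq_1 D (D.ap r.val)]
      simp only [e1, e2, ev.self_of_nhds]
    · rfl)
  cut K V hK hV hKV := by
    obtain ⟨χ, hχ, h01, h1, hts⟩ := (mCOV n M).2.2.2.2.2 K V hK hV hKV
    obtain ⟨C, c0, hC⟩ := (hZ n M σ σ g.b g.b
      (fun e z => ∑ k, (dz k (M.lc χ e) z • D.A k e z + dzb k (M.lc χ e) z • D.B k e z)) g.ok g.ok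
      (fun e he z hz i j => by
        have hc : ContDiffAt ℝ ∞ (M.lc χ e) z := cd_ofReal (hχ e he z hz)
        simp only [Matrix.sum_apply, Matrix.add_apply, Matrix.smul_apply, smul_eq_mul]
        exact ContDiffAt.sum fun k _ => ((cd_dz hc k).mul ((hs e he z hz k).1 i j)).add
          ((cd_dzb hc k).mul ((hs e he z hz k).2 i j)))).2
      fun W hW => HLK.CUT.sec_congr (g.b.secs.sub_mem (hq _ (HLK.CUT.sec_mul hχ hW))
        (HLK.CUT.sec_mul hχ (hq W hW))) fun e he z hz =>
          (HLK.CUT.comm D hχ hW.sm e he z hz).symm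
    let m := HLK.CUT.mul g hχ
    have em : ∀ (r : Pre g) x, M.ev (m r).val x = (χ x : ℂ) • M.ev r.val x := fun r x => by
      show (χ ((M.ch x).symm (M.ch x x)) : ℂ) • M.ev r.val x = _
      rw [Mf.ch_symm]
    have ed : ∀ (r : Pre g) x, M.ev (r - m r).val x = ((1 - χ x : ℝ) : ℂ) • M.ev r.val x :=
      fun r x => by
        rw [ofReal_sub, ofReal_one, sub_smul, one_smul, ← em]
        rfl
    have ec : ∀ r : Pre g, M.All fun e z => (Pre.op D hq (m r) - m (Pre.op D hq r)).val e z =
        (∑ k, (dz k (M.lc χ e) z • D.A k e z + dzb k (M.lc χ e) z • D.B k e z)) *ᵥ r.val e z :=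
      fun r e he z hz => by
        refine Eq.trans ?_ (HLK.CUT.comm D hχ r.sec.sm e he z hz)
        show (Pre.op D hq (m r)).val e z - (χ (e.symm z) : ℂ) • (Pre.op D hq r).val e z = _
        rw [Pre.op_val hq _ e he z hz, Pre.op_val hq _ e he z hz]
        rfl
    have cz : ∀ (r : Pre g) x (a : ℝ), (∀ᶠ y in 𝓝 x, χ y = a) →
        g.b.pn (Pre.op D hq (m r) - m (Pre.op D hq r)).val x = 0 := fun r x a h => by
      have t : Tendsto (M.ch x).symm (𝓝 (M.ch x x)) (𝓝 x) := by
        have := ((M.ch x).continuousAt_symm (Mf.ch_tgt x)).tendsto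
        rwa [Mf.ch_symm] at this
      have ev : M.lc χ (M.ch x) =ᶠ[𝓝 (M.ch x x)] fun _ => (a : ℂ) :=
        (t.eventually h).mono fun w hw => congrArg ofReal hw
      refine (pn_smul (s := r.val) (a := 0) (((ec r).ch x).trans ?_)).trans (by ring)
      simp only [dz_congr ev, dzb_congr ev, dz_const, dzb_const, zero_smul, add_zero,
        Finset.sum_const_zero, Matrix.zero_mulVec, ofReal_zero]
    have z0 : ∀ x ∉ V, ∀ᶠ y in 𝓝 x, χ y = 0 := fun x hx =>
      notMem_tsupport_iff_eventuallyEq.1 fun h => hx (hts h)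
    refine ⟨m.toAddMonoidHom, (Pre.op D hq ∘ₗ m - m ∘ₗ Pre.op D hq).toAddMonoidHom,
      interior {x | χ x = 1}, C + 1, isOpen_interior, subset_interior_iff_mem_nhdsSet.2 h1,
      by linarith, fun r => ⟨(add_sub_cancel _ _).symm, fun S hS => ⟨le_loc (fun x => ?_)
        (fun x hx => ?_) hS, le_loc (fun x => ?_) (fun x hx => cz r x 0 (z0 x hx)) hS,
        le_of (fun x => ?_) S, setIntegral_eq_zero_of_forall_eq_zero fun x hx => ?_,
        setIntegral_eq_zero_of_forall_eq_zero fun x hx =>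
          cz r x 1 (mem_interior_iff_mem_nhds.1 hx.2)⟩⟩⟩
    · refine (pn_smul (em r x)).trans_le (mul_le_mul_of_nonneg_right ?_ (Pre.pn_nonneg _ x))
      nlinarith [h01 x]
    · refine (pn_smul (em r x)).trans ?_
      rw [(z0 x hx).self_of_nhds]
      ring
    · have := hC r.val x
      rw [Bun.pn, ← Pre.pp_congr (ec r) (ec r)] at this
      exact this.trans (mul_le_mul_of_nonneg_right (by linarith) (Pre.pn_nonneg _ x))
    · refine (pn_smul (ed r x)).trans_le (mul_le_mul_of_nonneg_right ?_ (Pre.pn_nonneg _ x))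
      nlinarith [h01 x]
    · refine (pn_smul (ed r x)).trans ?_
      rw [show χ x = 1 from interior_subset (s := {x | χ x = 1}) hx.2]
      ring

end CUT

theorem kCUT (hSQ : HLK.St_SQ) (hZER : HLK.St_ZER) : St_CUT := by
  intro n M _ H L φ hH hb hq hK _
  refine CUT.loc hZER (geo L φ hH hb) (oQ H) hq (fun e he z hz k => ⟨fun _ _ => contDiffAt_const,
    fun i j => ?_⟩) fun W hW => (hSQ n M H L φ W hH hW).2 hK
  simp only [oQ, Matrix.sum_apply, Matrix.smul_apply, smul_eq_mul]
  exact ContDiffAt.sum fun l _ =>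
    (((hH.sm e he z hz).inv (hH.det_ne e he z hz)) l k).mul contDiffAt_const

end Pool.Agent.Lib.KS
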