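import Pool.Agent.Lib.KS.Blue
import Pool.Agent.Lib.K3E.B_ALT

/-! Project ks: the operator in the two languages, at one point. -/

open scoped Classical Matrix
open Complex Finset

noncomputable section

namespace Pool.Agent.Lib.KS

open Pool.Agent.Lib.SV (E)
open Pool.Agent.Lib.HS32 Pool.Agent.Lib.HLK
open Pool.Agent.Lib.K3E (cmpt)
open Pool.Agent.Lib.K3E.ALT

namespace DI0

variable {n q : ℕ}

theorem cr_vec (k : Fin n) (c : Fs n → ℂ) (A : Fs n) : (cr k *ᵥ c) A =
    if k ∈ A then (-1) ^ ((A.erase k).filter (· < k)).card * c (A.erase k) else 0 :=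
  FK2.cr_mul (Matrix.of fun B _ => c B) k A A

theorem alt (D : Fin n → E n [⋀^Fin q]→ₗ[ℂ] ℂ) :
    cmpt (AlternatingMap.alternatizeUncurryFin (∑ l, (LinearMap.proj l).smulRight (D l))) =
      ∑ l, cr l *ᵥ cmpt (D l) := by
  funext A
  simp only [Finset.sum_apply, cr_vec]
  rw [← sum_filter, filter_mem_eq_inter, univ_inter]
  by_cases h : A.card = q + 1
  · rw [cmpt, dif_pos h, AlternatingMap.alternatizeUncurryFin_apply]
    refine Eq.trans (sum_congr rfl fun s _ => ?_) (sum_bij (fun s _ => A.orderEmbOfFin h s)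
      (fun s _ => orderEmbOfFin_mem _ _ _) (fun s _ t _ e => (A.orderEmbOfFin h).injective e)
      (fun a ha => by
        obtain ⟨s, rfl⟩ : a ∈ Set.range (A.orderEmbOfFin h) := by
          rw [range_orderEmbOfFin]; exact ha
        exact ⟨s, mem_univ _, rfl⟩) fun s _ => rfl)
    have h' : (A.erase (A.orderEmbOfFin h s)).card = q := by
      rw [card_erase_of_mem (orderEmbOfFin_mem _ _ _), h]; rfl
    rw [FK2.card_lt, cmpt, dif_pos h', ← FK2.emb_erase h s h', LinearMap.sum_apply,
      sum_eq_single (A.orderEmbOfFin h s) (fun l _ hl => by simp [hl]) (by simp)]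
    simp only [LinearMap.smulRight_apply, LinearMap.proj_apply, Pi.single_eq_same, one_smul,
      zsmul_eq_mul, Int.cast_pow, Int.cast_neg, Int.cast_one]
    rfl
  · rw [cmpt, dif_neg h]
    refine (sum_eq_zero fun l hl => mul_eq_zero_of_right _ (dif_neg fun e => h ?_)).symm
    rw [← card_erase_add_one hl, e]

theorem app (c : Fin n → ℂ) (D : Fin n → E n [⋀^Fin q]→ₗ[ℂ] ℂ) (u : Fin q → E n)
    (s : Finset (Fin n)) : (∑ l ∈ s, c l • D l) u = ∑ l ∈ s, c l * D l u := by
  induction s using Finset.induction_on with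
  | empty => rfl
  | insert a s h ih => rw [sum_insert h, sum_insert h, AlternatingMap.add_apply, ih]; rfl

theorem bar (f : E n → ℂ) (z v : E n) :
    (fderiv ℝ f z v + I * fderiv ℝ f z (I • v)) / 2 = ∑ l, star (v l) * dzb l f z := by
  rw [fderiv_eq_sum, fderiv_eq_sum, mul_sum, ← sum_add_distrib, sum_div]
  refine sum_congr rfl fun l _ => ?_
  rw [Pi.smul_apply, smul_eq_mul, star_mul', star_def, conj_I]
  linear_combination (dz l f z * v l - dzb l f z * (starRingEnd ℂ) (v l)) / 2 * I_sq

end DI0

open DI0 in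
theorem kDI0 : St_DI0 := by
  intro n q a b z ha
  have hc : ∀ B, DifferentiableAt ℝ (fun w => cmpt (a w) B) z := fun B => by
    by_cases h : B.card = q
    · simp only [cmpt, dif_pos h]
      exact cd_diff (ha _)
    · simp only [cmpt, dif_neg h, differentiableAt_const]
  let D : Fin n → E n [⋀^Fin q]→ₗ[ℂ] ℂ := fun l =>
    ∑ B, dzbv l (fun w => cmpt (a w)) z B • bs q B
  have d1 : ∀ l, cmpt (D l) = dzbv l (fun w => cmpt (a w)) z := fun l =>
    cmpt_sum _ fun B h => by simp only [dzbv, cmpt, dif_neg h, dzb_const]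
  have d2 : ∀ l u, D l u = dzb l (fun w => a w u) z := fun l u => by
    rw [show (fun w => a w u) = fun w => ∑ B, bs q B u * cmpt (a w) B from
      funext fun w => expand _ _, dzb_sum fun B _ => (hc B).const_mul _, sum_app]
    exact sum_congr rfl fun B _ => (dzb_const_mul _ (hc B)).symm
  have e := alt D
  simp only [d1] at e
  rw [fq, ← e]
  have k : ∀ v : Fin (q + 1) → E n, AlternatingMap.alternatizeUncurryFin
      (∑ l, (LinearMap.proj l).smulRight (D l)) (fun s => star (v s)) =
      ∑ s : Fin (q + 1), (-1) ^ (s : ℕ) *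
        ∑ l, star (v s l) * dzb l (fun w => a w fun r => star (s.removeNth v r)) z := fun v => by
    rw [AlternatingMap.alternatizeUncurryFin_apply]
    refine sum_congr rfl fun s _ => ?_
    simp only [zsmul_eq_mul, Int.cast_pow, Int.cast_neg, Int.cast_one, ← d2, LinearMap.sum_apply,
      LinearMap.smulRight_apply, LinearMap.proj_apply]
    exact congrArg _ (app (star (v s)) D _ _)
  simp only [bar, ← k]
  refine ⟨fun h => congrArg cmpt (AlternatingMap.ext fun v => ?_), fun h v => by rw [inj h]⟩
  simpa only [star_star] using h fun s => star (v s)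

end Pool.Agent.Lib.KS
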