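import Pool.Agent.Lib.KS.Blue
import Pool.Agent.Lib.K3E.B_ALT

/-! Project ks, row DI2. -/

open scoped Classical Topology ContDiff ComplexOrder Matrix Manifold ENNReal NNReal
open Set MeasureTheory Complex Metric Filter

set_option linter.unusedVariables false

noncomputable section

namespace Pool.Agent.Lib.KS

open Pool.Agent.Lib.SV (E jacAt)
open Pool.Agent.Lib.HS32 Pool.Agent.Lib.HLK
open Pool.Agent.Lib.K3E (cmpt bALT)
open Pool.Agent.Lib.HS (jacM)
open Pool.Agent.Lib.HS.BBR (mf)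
open Pool.Agent.Lib.KP.T6 (rs restr hol_chart)

namespace DI2

variable {n q : ℕ}

theorem la_bar (g : Mat n) : (La (g.map star))ᵀ = (La g)ᴴ := by
  ext A B
  simp only [Matrix.transpose_apply, Matrix.conjTranspose_apply, La, Matrix.of_apply]
  split_ifs with h
  · exact ((starRingEnd ℂ).map_det _).symm
  · exact (star_zero ℂ).symm

theorem cm_smul (c : ℂ) (α : E n [⋀^Fin q]→ₗ[ℂ] ℂ) : cmpt (c • α) = c • cmpt α := by
  funext B
  simp only [cmpt, Pi.smul_apply]
  split_ifs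
  · rfl
  · exact (smul_zero _).symm

variable {X : Type} [TopologicalSpace X] [ChartedSpace (E n) X]

/-- The form in the chart at `x`. -/
def loc (m : ℕ) (γ : X → E n [⋀^Fin q]→ₗ[ℂ] ℂ) (x : X) (w : E n) : E n [⋀^Fin q]→ₗ[ℂ] ℂ :=
  jacAt n X x w ^ m •
    (γ ((chartAt (E n) x).symm w)).compLinearMap ((jacM x w).map star).mulVecLin

theorem loc_ap (m : ℕ) (γ : X → E n [⋀^Fin q]→ₗ[ℂ] ℂ) (x : X) (v : Fin q → E n) :
    (fun w => loc m γ x w fun r => star (v r)) = rd m γ x v := by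
  funext w
  rw [loc, rd, AlternatingMap.smul_apply, smul_eq_mul, mul_comm,
    AlternatingMap.compLinearMap_apply]
  refine congrArg (fun t => γ _ t * _) (funext fun s => funext fun a => ?_)
  simp [Matrix.mulVec, dotProduct]

theorem loc_cm (m : ℕ) (γ : X → E n [⋀^Fin q]→ₗ[ℂ] ℂ) (x : X) (w : E n) :
    cmpt (loc m γ x w) =
      (jacM x w).det ^ m • (La (jacM x w))ᴴ *ᵥ cmpt (γ ((chartAt (E n) x).symm w)) := by
  rw [loc, cm_smul, (bALT n q).1, la_bar, jacAt, BCHN.det_eq]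
  rfl

end DI2

open DI2 in
theorem kDI2 (hDI0 : St_DI0) (hDI1 : St_DI1) (hRAI : St_RAI) : St_DI2 := by
  intro n X ι I _ _ _ _ U u h i m p L q hI hL α hα β hβ
  have hc : ∀ x : X, chartAt (E n) x ∈ (mf n X).C := HW.ch_mem
  obtain ⟨r, r1, r2, r3, r4⟩ : ∃ r : X → OpenPartialHomeomorph X (E n), (∀ x, r x ∈ h.M.C) ∧
      (∀ x, x ∈ (r x).source) ∧ (∀ x, (r x : X → E n) = chartAt (E n) x) ∧
      ∀ x, ((r x).symm : E n → X) = (chartAt (E n) x).symm := by
    choose r r1 r2 r3 r4 using fun x : X =>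
      restr (mf n X) (U := U) h.opn h.cov (hc x) (mem_chart_source (E n) x)
    exact ⟨r, r1, r2, r3, r4⟩
  have a1 := ((hDI1 n X ι I U u h i m p L q hI).1 α hα).1
  have b1 := ((hDI1 n X ι I U u h i m p L (q + 1) hI).1 β hβ).1
  have ph : ∀ (k : ℕ) (γ : ι → X → E n [⋀^Fin k]→ₗ[ℂ] ℂ) (x : X) (w : E n),
      Ph i m γ (r x) w = (jacM x w).det ^ m •
        (La (jacM x w))ᴴ *ᵥ cmpt (γ (i (r x)) ((chartAt (E n) x).symm w)) := fun k γ x w => by
    rw [Ph, r4]
    rfl
  have key : ∀ j, ∀ x ∈ U j, (∀ v, β j x (fun s => star (v s)) = db m (α j) x v) ↔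
      Ph i m β (r x) (r x x) = fq (Ph i m α (r x)) (r x x) := by
    intro j x hx
    rw [r3 x]
    have hs := mem_chart_source (E n) x
    have hz := (chartAt (E n) x).map_source hs
    have hx0 : x ∈ U (i (r x)) := hI.sub _ (r1 x) (r2 x)
    have ev : ∀ᶠ w in 𝓝 (chartAt (E n) x x), w ∈ (chartAt (E n) x).target ∧
        (chartAt (E n) x).symm w ∈ U j ∩ U (i (r x)) :=
      ((chartAt (E n) x).isOpen_inter_preimage_symm ((h.opn j).inter (h.opn _))).mem_nhds
        ⟨hz, by rw [mem_preimage, (chartAt (E n) x).left_inv hs]; exact ⟨hx, hx0⟩⟩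
    have hg : HolN (fun w => ∏ k, u k j (i (r x)) ((chartAt (E n) x).symm w) ^ p k)
        (chartAt (E n) x x) := ev.mono fun w hw =>
      (HasFDerivAt.finsetProd fun k _ =>
        ((hol_chart (fun y => (hc x y).2) hw.1 (h.unit k _ _ _ hw.2).1).zpow
          (Or.inl (h.unit k _ _ _ hw.2).2)).hasFDerivAt).differentiableAt
    have e1 : (fun w => cmpt (loc m (α j) x w)) =ᶠ[𝓝 (chartAt (E n) x x)] fun w =>
        (∏ k, u k j (i (r x)) ((chartAt (E n) x).symm w) ^ p k) • Ph i m α (r x) w :=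
      ev.mono fun w hw => by
        beta_reduce
        rw [loc_cm, ph, ((hα j _).2 hw.2.1).2 _ hw.2.2, cm_smul, Matrix.mulVec_smul, smul_comm]
    have sm : ContDiffAt ℝ ∞ (Ph i m α (r x)) (chartAt (E n) x x) := by
      have := a1.sm _ (r1 x) _ ((r x).map_source (r2 x))
      rwa [r3 x] at this
    have j1 : jacM x (chartAt (E n) x x) = 1 := by
      have h0 : jm (chartAt (E n) x ∘ (chartAt (E n) x).symm) (chartAt (E n) x x) = 1 :=
        (mTR n (mf n X)).2.2.1 _ (hc x) x hs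
      rw [← h0, jacM, (chartAt (E n) x).left_inv hs]
      rfl
    have l1 : La (1 : Mat n) = 1 := by
      ext A B
      rw [K3E.ALT.la_one, Matrix.one_apply]
    have d := hDI0 n q (loc m (α j) x) (β j x) (chartAt (E n) x x) fun v => by
      have := ((hα j x).2 hx).1 fun s => star (v s)
      rw [← loc_ap] at this
      simpa only [star_star] using this
    simp only [loc_ap] at d
    obtain ⟨-, f2, -, -, f5⟩ := (hRAI n h.M L).2.2.2 (chartAt (E n) x x)
    refine d.trans ?_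
    rw [f2 _ _ e1, f5 _ _ hg sm, ph, j1, l1, (chartAt (E n) x).left_inv hs,
      ((hβ j x).2 hx).2 _ hx0, cm_smul, Matrix.det_one, one_pow, one_smul, Matrix.conjTranspose_one,
      Matrix.one_mulVec]
    exact smul_right_inj (Finset.prod_ne_zero_iff.2 fun k _ =>
      zpow_ne_zero _ (h.unit k _ _ x ⟨hx, hx0⟩).2)
  refine ⟨fun H e he z hz => ?_, fun H j x hx =>
    (key j x hx).2 (H _ (r1 x) _ ((r x).map_source (r2 x)))⟩
  have k1 := (key _ (e.symm z) (hI.sub _ (r1 _) (r2 _))).1 (H _ _ (hI.sub _ (r1 _) (r2 _)))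
  have k2 := b1.cmp _ (r1 (e.symm z)) e he _ (r2 _) (e.map_target hz)
  have k3 := (hL _ a1).cmp _ (r1 (e.symm z)) e he _ (r2 _) (e.map_target hz)
  beta_reduce at k2 k3 ⊢
  rw [e.right_inv hz] at k2 k3
  exact k2.trans ((congrArg (fun t => _ • _ *ᵥ t) k1).trans k3.symm)

end Pool.Agent.Lib.KS
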