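import Pool.Agent.Lib.KS.Blue

/-! Project ks: independent Dolbeault classes in the language of families of components. -/

open scoped Classical Topology ContDiff ComplexOrder Matrix Manifold ENNReal NNReal
open Set MeasureTheory Complex Metric Filter

set_option linter.unusedVariables false

noncomputable section

namespace Pool.Agent.Lib.KS

open Pool.Agent.Lib.SV (E Pluri)
open Pool.Agent.Lib.HS32 Pool.Agent.Lib.HLK Pool.Agent.Lib.GH

namespace DIC

theorem la_one {n : ℕ} (g : Mat n) :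
    (La g)ᴴ *ᵥ (Pi.single ∅ 1 : Fs n → ℂ) = Pi.single ∅ 1 := by
  funext B
  rw [Matrix.mulVec_single_one, Matrix.col_apply, Matrix.conjTranspose_apply]
  by_cases hB : B = ∅
  · subst hB
    have : IsEmpty (Fin (∅ : Fs n).card) := by rw [Finset.card_empty]; infer_instance
    simp only [La, Matrix.of_apply, dif_pos, Matrix.det_isEmpty, star_one, Pi.single_eq_same]
  · have h1 : ¬ B.card = (∅ : Fs n).card := by rwa [Finset.card_empty, Finset.card_eq_zero]
    simp only [La, Matrix.of_apply, dif_neg h1, star_zero, Pi.single_eq_of_ne hB]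

theorem fq_const {n : ℕ} (a : Fs n → ℂ) (z : E n) : fq (fun _ => a) z = 0 := by
  refine Finset.sum_eq_zero fun l _ => ?_
  have : dzbv l (fun _ : E n => a) z = 0 := by
    funext B
    simp [dzbv, dzb]
  rw [this, Matrix.mulVec_zero]

theorem pj_one {n : ℕ} (a : ℂ) :
    pj 0 (a • (Pi.single ∅ 1 : Fs n → ℂ)) = a • Pi.single ∅ 1 := by
  funext B
  by_cases hB : B = ∅
  · subst hB
    simp [pj]
  · simp [pj, hB]

theorem ch_mem {n : ℕ} (M : Mf n) (x : M.X) : M.ch x ∈ M.C ∧ M.ch x x ∈ (M.ch x).target :=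
  ⟨(M.cov x).choose_spec.1, (M.ch x).map_source (M.cov x).choose_spec.2⟩

end DIC

open DIC in
/-- Independent classes. -/
theorem kDIC (hDI1 : St_DI1) (hDI2 : St_DI2) (hRAI : St_RAI) : St_DIC := by
  intro n X ι I _ _ _ _ U u h i m p L hI hfq
  have d1 := fun q => hDI1 n X ι I U u h i m p L q hI
  have d2 := fun q => hDI2 n X ι I U u h i m p L q hI hfq
  obtain ⟨-, -, -, r⟩ := hRAI n h.M L
  have z0 : ∀ q, (0 : ι → X → E n [⋀^Fin q]→ₗ[ℂ] ℂ) ∈ Sm n U u m p q ∧
      ∀ e z, Ph i m (0 : ι → X → E n [⋀^Fin q]→ₗ[ℂ] ℂ) e z = 0 := fun q => by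
    have := (d1 q).2.2 0 Fin.elim0 Fin.elim0
    simp only [Finset.univ_eq_empty, Finset.sum_empty] at this
    exact ⟨this.1 fun s => s.elim0, this.2⟩
  have cl : ∀ q, ∀ α ∈ Sm n U u m p q, (α ∈ Cl n U u m p q ↔
      h.M.All fun e z => fq (Ph i m α e) z = 0) := fun q α hα => by
    have := d2 q α hα 0 (z0 (q + 1)).1
    constructor
    · intro hc e he z hz
      exact (this.1 (fun j x hx v => (congrFun (hc.2 j x hx) v).symm) e he z hz).symm.trans
        ((z0 _).2 e z)
    · intro hc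
      exact ⟨hα, fun j x hx => funext fun v => (this.2 (fun e he z hz =>
        ((z0 _).2 e z).trans (hc e he z hz).symm) j x hx v).symm⟩
  have sp : ∀ q, ∀ α ∈ Submodule.span ℂ (Cl n U u m p q), α ∈ Sm n U u m p q ∧
      h.M.All fun e z => fq (Ph i m α e) z = 0 := fun q α hα => by
    obtain ⟨k, c, g, rfl⟩ := Submodule.mem_span_set'.1 hα
    obtain ⟨a1, a2⟩ := (d1 q).2.2 k c fun s => g s
    refine ⟨a1 fun s => (g s).2.1, fun e he z hz => ?_⟩
    refine (congrArg (fq · z) (funext (a2 e))).trans (((r z).2.2.2.1 k c _ fun s =>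
      ((d1 q).1 _ (g s).2.1).1.sm e he z hz).trans (Finset.sum_eq_zero fun s _ => ?_))
    exact smul_eq_zero_of_right _ ((cl q _ (g s).2.1).1 (g s).2 e he z hz)
  have ex : ∀ q, ∀ γ ∈ Sm n U u m p q, ∀ B, Lw L B →
      (h.M.All fun e z => Ph i m γ e z = fq (B e) z) → γ ∈ Ex n U u m p q := fun q γ hγ B hB hE => by
    obtain ⟨-, b1, b2⟩ := (d1 q).1 γ hγ
    cases q with
    | zero =>
      refine funext fun j => funext fun x => ?_
      by_cases hx : x ∈ U j
      · obtain ⟨c1, c2⟩ := ch_mem h.M x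
        refine (b2 j x hx).2 ?_
        exact (b1 _ _).symm.trans ((congrArg (pj 0) (hE _ c1 _ c2)).trans ((r _).1 0 _).2)
      · exact (hγ j x).1 hx
    | succ q =>
      obtain ⟨β, hβ, b3⟩ := (d1 q).2.1 B hB
      refine ⟨hγ, β, hβ, (d2 q β hβ γ hγ).2 fun e he z hz => ?_⟩
      refine (b1 e z).symm.trans ((congrArg (pj (q + 1)) (hE e he z hz)).trans
        (((r z).1 q _).1.symm.trans ((r z).2.1 _ _ ?_)))
      filter_upwards [e.open_target.mem_nhds hz] with w hw using (b3 e he w hw).symm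
  refine ⟨fun q => ?_, fun t ht => ?_⟩
  · obtain ⟨f, hf⟩ := exists_linearIndependent_of_le_finrank (R := ℂ) (le_refl (hq n U u m p q))
    choose α h1 h2 using fun s => Submodule.mem_map.1 (f s).2
    refine ⟨fun s => Ph (X := X) i m (α s), fun s =>
      ⟨((d1 q).1 _ (sp q _ (h1 s)).1).1, (sp q _ (h1 s)).2⟩, fun c B hB hE => ?_⟩
    obtain ⟨a1, a2⟩ := (d1 q).2.2 _ c α
    have h3 := Submodule.subset_span (R := ℂ) (ex q _ (a1 fun s => (sp q _ (h1 s)).1) B hB
      fun e he z hz => (a2 e z).trans (hE e he z hz))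
    rw [SetLike.mem_coe, ← Submodule.Quotient.mk_eq_zero, ← Submodule.mkQ_apply, map_sum] at h3
    funext s
    refine Fintype.linearIndependent_iff.1 hf c (Subtype.ext ?_) s
    rw [Submodule.coe_sum, Submodule.coe_zero, ← h3]
    exact Finset.sum_congr rfl fun s _ => by rw [map_smul, h2, Submodule.coe_smul]
  · have hA : Lw L fun e z => t e z • (Pi.single ∅ 1 : Fs n → ℂ) :=
      ⟨fun e he z hz => (ht.sm e he z hz).smul contDiffAt_const, fun e he e' he' x hx hx' => by
        beta_reduce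
        rw [Matrix.mulVec_smul, la_one, smul_smul, ht.cmp e he e' he' x hx hx', mul_comm]⟩
    obtain ⟨s, hs, s1⟩ := (d1 0).2.1 _ hA
    simp only [pj_one] at s1
    refine ⟨s, (cl 0 s hs).2 fun e he z hz => ?_, fun j x hx => ?_⟩
    · have o : ∀ᶠ w in 𝓝 z, w ∈ e.target := e.open_target.mem_nhds hz
      exact ((r z).2.1 _ _ (o.mono fun w hw => s1 e he w hw)).trans (((r z).2.2.2.2 (t e)
        (fun _ => _) (o.mono fun w hw => ht.hol e he w hw) contDiffAt_const).trans
        (smul_eq_zero_of_right _ (fq_const _ z)))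
    · obtain ⟨c1, c2⟩ := ch_mem h.M x
      refine (((d1 0).1 s hs).2.2 j x hx).trans ((Eq.congr_left (s1 _ c1 _ c2)).trans ?_)
      exact smul_eq_zero.trans (or_iff_left (by simp))

end Pool.Agent.Lib.KS
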