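import Pool.Agent.Lib.KS.Blue

/-! Row EXA: a limit of exact sections is exact. -/

open scoped Classical Topology ContDiff ComplexOrder Matrix
open Set MeasureTheory Complex Metric Filter

noncomputable section

namespace Pool.Agent.Lib.KS

open Pool.Agent.Lib.SV (E)
open Pool.Agent.Lib.HS32 Pool.Agent.Lib.HLK
open Pool.Agent.Lib.IDX (geo)

namespace EXA

theorem fin {C : Type} [SeminormedAddCommGroup C] [InnerProductSpace ℂ C] (P Q : C →ₗ[ℂ] C)
    (adj : ∀ a b, inner ℂ (Q a) b = -inner ℂ a (P b)) (qq : ∀ r, Q (Q r) = 0) {b b' : ℕ → C}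
    {a α : C} (h1 : Tendsto (fun j => ‖Q (b j) - α‖) atTop (𝓝 0))
    (h2 : Tendsto (fun j => ‖b j - a - Q (b' j)‖) atTop (𝓝 0)) : ‖α - Q a‖ = 0 := by
  have key : ∀ j, ‖α - Q a‖ ^ 2 ≤
      ‖b j - a - Q (b' j)‖ * ‖P (α - Q a)‖ + ‖Q (b j) - α‖ * ‖α - Q a‖ := fun j => by
    have e : α - Q a = Q (b j - a - Q (b' j)) - (Q (b j) - α) := by
      rw [map_sub, map_sub, qq]
      abel
    have e2 : inner ℂ (α - Q a) (α - Q a) = -inner ℂ (b j - a - Q (b' j)) (P (α - Q a)) -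
        inner ℂ (Q (b j) - α) (α - Q a) := by
      rw [← adj, ← inner_sub_left, ← e]
    have e3 : ‖α - Q a‖ ^ 2 = ‖inner ℂ (α - Q a) (α - Q a)‖ := by
      rw [inner_self_eq_norm_sq_to_K, norm_pow, RCLike.norm_ofReal, abs_norm]
    rw [e3, e2]
    refine (norm_sub_le _ _).trans (add_le_add ?_ (norm_inner_le_norm _ _))
    rw [norm_neg]
    exact norm_inner_le_norm _ _
  have h3 := (h2.mul_const ‖P (α - Q a)‖).add (h1.mul_const ‖α - Q a‖)
  rw [zero_mul, zero_mul, add_zero] at h3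
  exact pow_eq_zero_iff two_ne_zero |>.1
    (le_antisymm (ge_of_tendsto' h3 key) (sq_nonneg _))

variable {n : ℕ} {σ : Type} [Fintype σ] [DecidableEq σ] {M : Mf n} [M.Cpt] {g : Geo M σ}

theorem ns (r : Pre g) : nS g univ r = ‖r‖ ^ 2 := by
  rw [nS, Measure.restrict_univ, Pre.norm_sq, Bun.nr]

theorem ips {D D' : Op M σ} (h : ∀ W, g.b.Sec W → g.b.Sec (D.ap W))
    (h' : ∀ W, g.b.Sec W → g.b.Sec (D'.ap W)) (u v : Pre g) :
    inner ℂ (Pre.op D h u) v = g.b.ip g.H (D.ap u.val) v.val ∧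
    inner ℂ u (Pre.op D' h' v) = g.b.ip g.H u.val (D'.ap v.val) ∧
    inner ℂ (Pre.op D h u) (Pre.op D' h' v) = g.b.ip g.H (D.ap u.val) (D'.ap v.val) := by
  refine ⟨?_, ?_, ?_⟩ <;> rw [Pre.inner_def, Bun.ip, Bun.ip]
  · rw [Pre.pp_congr (Pre.op_val h u) fun _ _ _ _ => rfl]
  · rw [Pre.pp_congr (fun _ _ _ _ => rfl) (Pre.op_val h' v)]
  · rw [Pre.pp_congr (Pre.op_val h u) (Pre.op_val h' v)]

theorem sub {D : Op M σ} (h : ∀ W, g.b.Sec W → g.b.Sec (D.ap W)) (u v : Pre g) :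
    ‖u - Pre.op D h v‖ ^ 2 = g.b.nr g.H (u.val - D.ap v.val) := by
  have e : M.All fun e z => (u - Pre.op D h v).val e z = (u.val - D.ap v.val) e z :=
    fun e he z hz => congrArg (u.val e z - ·) (Pre.op_val h v e he z hz)
  rw [Pre.norm_sq, Bun.nr, Bun.nr]
  unfold Bun.pn
  rw [Pre.pp_congr e e]

end EXA

theorem kEXA (hRED : St_RED) (hMV : St_MV) (hCUT : St_CUT) (hCHP : St_CHP) (hLAM : HLK.St_LAM)
    (hSQ : HLK.St_SQ) (hSP : HLK.St_SP) (hADJ : HLK.St_ADJ) (hSKW : HLK.St_SKW)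
    (hWS : HLK.St_WS) (hDNS : HLK.St_DNS) (hREL : HLK.St_REL) (hINJ : IDX.St_INJ) : St_EXA := by
  intro n M _ H L φ W hH hφ hW ap
  have hm := hH.toMet
  obtain ⟨ok, -⟩ := hLAM n M H L φ hm hφ
  have hq : ∀ W, (geo L φ hm ok).b.Sec W → (geo L φ hm ok).b.Sec ((oQ H).ap W) :=
    fun W h => (hSQ n M H L φ W hm h).1
  have hp : ∀ W, (geo L φ hm ok).b.Sec W → (geo L φ hm ok).b.Sec ((oP H φ).ap W) :=
    fun W h => hSP n M H L φ W hm hφ h
  obtain ⟨k1, k2, s1⟩ := hSKW n M H L φ hH hφ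
  have eD : ∀ s : Pre (geo L φ hm ok), Pre.op (g := geo L φ hm ok) _ k1.sec s =
      Pre.op _ hq s + Pre.op _ hp s := fun s =>
    Pre.ext (funext fun e => funext fun z => by
      show (if e ∈ M.C ∧ z ∈ e.target then (oD H φ).ap s.val e z else 0) =
        (if e ∈ M.C ∧ z ∈ e.target then (oQ H).ap s.val e z else 0) +
        if e ∈ M.C ∧ z ∈ e.target then (oP H φ).ap s.val e z else 0
      by_cases c : e ∈ M.C ∧ z ∈ e.target
      · simp only [if_pos c]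
        exact (s1 _ s.sec).1 e z
      · simp only [if_neg c, add_zero])
  have adj : ∀ a b : Pre (geo L φ hm ok),
      inner ℂ (Pre.op _ hq a) b = -inner ℂ a (Pre.op _ hp b) := fun a b => by
    rw [(EXA.ips hq hp a b).1, (EXA.ips hq hp a b).2.1]
    exact hADJ n M H L _ _ _ hH hφ a.sec b.sec
  have ort : ∀ a b : Pre (geo L φ hm ok), inner ℂ (Pre.op _ hq a) (Pre.op _ hp b) = 0 :=
    fun a b => (EXA.ips hq hp a b).2.2.trans ((s1 _ a.sec).2.1 _ b.sec)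
  have ws := (hDNS (Pre (geo L φ hm ok)) (Pre.op (g := geo L φ hm ok) _ k1.sec)
    (Pre.op_skew (g := geo L φ hm ok) k1) (hWS n M _ (geo L φ hm ok) _ k1)).2
  have rel := hREL n M _ (geo L φ hm ok) _ k1 k2
  simp only [eD] at ws rel
  obtain ⟨b, b1, b2⟩ := hRED _ (Pre.op _ hp) (Pre.op _ hq) adj ort ws rel (Pre.mk W hW)
    fun η hη => by
      obtain ⟨s, t1, t2⟩ := ap (η ^ 2 / 2) (by positivity)
      refine ⟨Pre.mk s t1, lt_of_pow_lt_pow_left₀ 2 hη.le ?_⟩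
      rw [EXA.sub hq]
      exact lt_of_le_of_lt t2 (half_lt_self (by positivity))
  have loc := hCUT n M H L φ hm ok hq hH hφ
  have pk := hMV M.X _ _ _ loc fun x => ⟨(M.ch x).source,
    (M.ch x).open_source.mem_nhds ((mTR n M).1 x).2,
    hCHP n M H L φ hm ok hq hH hφ _ ((mTR n M).1 x).1⟩
  obtain ⟨a, b', -, V, -, v2, v3⟩ := pk b (Pre.mk W hW) (by
      have h := (cauchySeq_iff_tendsto_dist_atTop_0.1 b1).pow 2
      rw [zero_pow two_ne_zero] at h
      exact h.congr fun p => by rw [EXA.ns, dist_eq_norm])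
    ⟨univ, isOpen_univ, subset_rfl, by
      have h := b2.pow 2
      rw [zero_pow two_ne_zero] at h
      refine h.congr fun j => ?_
      rw [EXA.ns, LinearMap.toAddMonoidHom_coe]⟩
  rw [univ_subset_iff.1 v2] at v3
  have v4 := v3.sqrt
  rw [Real.sqrt_zero] at v4
  have z := EXA.fin _ _ adj loc.qq b2 (b' := b') (a := a) (v4.congr fun j => by
    rw [EXA.ns, Real.sqrt_sq (norm_nonneg _), LinearMap.toAddMonoidHom_coe])
  refine ⟨a.val, a.sec, fun e he w hw => ?_⟩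
  have h : W e w - (Pre.op _ hq a).val e w = 0 := (hINJ n M _ _ _).1 z e he w hw
  rw [Pre.op_val hq a e he w hw] at h
  exact sub_eq_zero.1 h

end Pool.Agent.Lib.KS
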