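import Pool.Agent.Lib.KS.Blue
import Pool.Agent.Lib.HLK.B_ONE

/-! Project ks, row HLS: a closed section is holomorphic up to a limit of exact sections. -/

open scoped Classical Topology ContDiff ComplexOrder Matrix ENNReal
open Set MeasureTheory Complex Metric Filter

set_option linter.unusedVariables false

noncomputable section

namespace Pool.Agent.Lib.KS

open Pool.Agent.Lib.SV (E)
open Pool.Agent.Lib.HS32 Pool.Agent.Lib.KP Pool.Agent.Lib.HLK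
open Pool.Agent.Lib.EXH (aw)
open Pool.Agent.Lib.HLK.ONE

namespace HLS

theorem nr_eq {n : ℕ} {σ : Type} [Fintype σ] [DecidableEq σ] {M : Mf n} [M.Cpt] {g : Geo M σ}
    {D : Op M σ} (h : ∀ W, g.b.Sec W → g.b.Sec (D.ap W)) (a b s : Pre g) :
    g.b.nr g.H (a.val - b.val - D.ap s.val) = ‖a - b - Pre.op D h s‖ ^ 2 := by
  have k : M.All fun e z => (a - b - Pre.op D h s).val e z = (a.val - b.val - D.ap s.val) e z :=
    fun e he z hz => by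
      have h1 := Pre.op_val h s e he z hz
      simp only [Pre.val_sub, Pi.sub_apply] at h1 ⊢
      rw [h1]
  rw [Pre.norm_sq, Bun.nr, Bun.nr]
  unfold Bun.pn
  rw [Pre.pp_congr k k]

theorem one (hLAM : HLK.St_LAM) (hSQ : HLK.St_SQ) (hSP : HLK.St_SP) (hADJ : HLK.St_ADJ)
    (hSKW : HLK.St_SKW) (hGB : HLK.St_GB) (hCU : HLK.St_CU) (hBOC : HLK.St_BOC) (hWS : HLK.St_WS)
    (hDNS : HLK.St_DNS) (hNEAR : HLK.St_NEAR) {n : ℕ} {M : Mf n} [M.Cpt] {H : M.Fam (Mat n)}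
    {L : M.Co} {φ : M.Fam ℝ} {A ε d : ℝ} {w : M.X → ℝ} {W : M.Fam (Fs n → ℂ)} (hH : M.Kae H)
    (hφ : M.WtC L φ) (hε : 0 < ε) (hw : M.Sm w) (w0 : ∀ x, w x ≤ 0)
    (hc : M.Le 0 (M.hw φ + M.ric H + M.hs w + ε • H)) (hW : (lam H L φ).Sec W)
    (hQ : M.All fun e z => (oQ H).ap W e z = 0) (n3 : (lam H L (aw M φ w)).nr H W ≤ A)
    (d0 : 0 < d) (d1 : d ≤ 1) :
    ∃ u s, (lam H L φ).Sec u ∧ (lam H L φ).Sec s ∧ (lam H L φ).nr H u ≤ 2 * A + 2 ∧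
      ∫ x, gb H (lam H L φ) u x ∂M.mu H ≤ ε * (n + 1) * (2 * A + 2) ∧
      (lam H L φ).nr H (W - u - (oQ H).ap s) ≤ (3 * d) ^ 2 := by
  have hm := hH.toMet
  obtain ⟨o0, l0, a0⟩ := hLAM n M H L φ hm hφ
  obtain ⟨⟨hψ, hh⟩, a1⟩ := And.intro ((a0 w).1 hw) (a0 w).2
  obtain ⟨o1, l1, -⟩ := hLAM n M H L _ hm hψ
  let g0 : Geo M (Fs n) := ⟨H, lam H L φ, hm, o0⟩
  let g1 : Geo M (Fs n) := ⟨H, lam H L (aw M φ w), hm, o1⟩
  let ι : Pre g1 →ₗ[ℂ] Pre g0 :=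
    ⟨⟨fun u => Pre.mk u.val ⟨u.sec.sm, u.sec.cmp⟩, fun _ _ => rfl⟩, fun _ _ => rfl⟩
  have ex : ∀ x, 1 ≤ Real.exp (-w x) := fun x => Real.one_le_exp (by linarith [w0 x])
  have i1 : ∀ a, ‖ι a‖ ≤ ‖a‖ := fun a => by
    refine sq2 ?_ (norm_nonneg _)
    rw [Pre.norm_sq, Pre.norm_sq]
    refine integral_mono (itg (ι a)) (itg a) fun x => ?_
    have := (a1 a.val a.val x).2.1
    have p := Pre.pn_nonneg (g := g0) a.val x
    change (lam H L φ).pn a.val x ≤ (lam H L (aw M φ w)).pn a.val x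
    change 0 ≤ (lam H L φ).pn a.val x at p
    rw [this]
    nlinarith [ex x]
  have q0 : ∀ W, g0.b.Sec W → g0.b.Sec ((oQ H).ap W) := fun W h => (hSQ n M H L _ W hm h).1
  have q1 : ∀ W, g1.b.Sec W → g1.b.Sec ((oQ H).ap W) := fun W h => (hSQ n M H L _ W hm h).1
  have p1 : ∀ W, g1.b.Sec W → g1.b.Sec ((oP H (aw M φ w)).ap W) := fun W h =>
    hSP n M H L _ W hm hψ h
  obtain ⟨k1, -, s1⟩ := hSKW n M H L _ hH hψ
  have eD : ∀ s : Pre g1, Pre.op (g := g1) _ k1.sec s = Pre.op _ q1 s + Pre.op _ p1 s := fun s =>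
    Pre.ext (funext fun e => funext fun z => by
      show (if e ∈ M.C ∧ z ∈ e.target then (oD H (aw M φ w)).ap s.val e z else 0) =
        (if e ∈ M.C ∧ z ∈ e.target then (oQ H).ap s.val e z else 0) +
        if e ∈ M.C ∧ z ∈ e.target then (oP H (aw M φ w)).ap s.val e z else 0
      by_cases c : e ∈ M.C ∧ z ∈ e.target
      · simp only [if_pos c]
        exact (s1 _ s.sec).1 e z
      · simp only [if_neg c, add_zero])
  have ort : ∀ a b : Pre g1, inner ℂ (Pre.op _ q1 a) (Pre.op _ p1 b) = 0 := fun a b =>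
    (ip_op q1 p1 a b).2.2.trans ((s1 _ a.sec).2.1 _ b.sec)
  have near := hNEAR (Pre g1) (Pre.op _ p1) (Pre.op _ q1) (fun a b => by
    rw [(ip_op q1 p1 a b).1, (ip_op q1 p1 a b).2.1]
    exact hADJ n M H L _ _ _ hH hψ a.sec b.sec) ort fun t d f hd => by
      simpa only [eD] using (hDNS (Pre g1) (Pre.op (g := g1) _ k1.sec) (Pre.op_skew (g := g1) k1)
        (hWS n M _ g1 _ k1)).1 t d f hd
  have t0 : 0 < (√ε)⁻¹ := inv_pos.2 (Real.sqrt_pos.2 hε)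
  have t2 : ε * (√ε)⁻¹ ^ 2 = 1 := by rw [inv_pow, Real.sq_sqrt hε.le, mul_inv_cancel₀ hε.ne']
  generalize (√ε)⁻¹ = t at t0 t2
  let f : Pre g1 := Pre.mk W ⟨hW.sm, hW.cmp⟩
  have f2 : ‖f‖ ^ 2 ≤ A := (Pre.norm_sq f).le.trans n3
  have f4 : (‖f‖ + d) ^ 2 ≤ 2 * A + 2 := by nlinarith [sq_nonneg (‖f‖ - d)]
  have f5 : Pre.op _ q1 f = 0 := Pre.ext (funext fun e => funext fun z => by
    show (if e ∈ M.C ∧ z ∈ e.target then (oQ H).ap W e z else 0) = 0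
    by_cases c : e ∈ M.C ∧ z ∈ e.target
    · rw [if_pos c]
      exact hQ e c.1 z c.2
    · rw [if_neg c])
  obtain ⟨u, y, r, c1, c2, c3, c4, c5, c6⟩ := near t d f t0 d0
  rw [f5, norm_zero, mul_zero, zero_mul, zero_add] at c6
  have b4 : t * ‖Pre.op _ p1 y‖ ≤ 2 * d := sq2 (c6.trans (by nlinarith)) (by positivity)
  have b5 : ‖f - u - Pre.op _ q1 ((t : ℂ) • y)‖ ≤ 3 * d := by
    have e : f - u - Pre.op _ q1 ((t : ℂ) • y) = (t : ℂ) • Pre.op _ p1 y - r := by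
      rw [map_smul, ← sub_eq_iff_eq_add.2 c1, smul_add]
      abel
    rw [e]
    refine (norm_sub_le _ _).trans ?_
    rw [norm_smul, norm_real, Real.norm_of_nonneg t0.le]
    linarith
  have u2 : ‖u‖ ^ 2 ≤ 2 * A + 2 := (pow_le_pow_left₀ (norm_nonneg _) c3 2).trans f4
  have e1 : (lam H L φ).nr H u.val = ‖ι u‖ ^ 2 := (Pre.norm_sq (ι u)).symm
  refine ⟨u.val, ((t : ℂ) • y).val, (ι u).sec, (ι ((t : ℂ) • y)).sec, by
    rw [e1]; exact (pow_le_pow_left₀ (norm_nonneg _) (i1 u) 2).trans u2, ?_,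
    (nr_eq q0 (ι f) (ι u) (ι ((t : ℂ) • y))).trans_le (pow_le_pow_left₀ (norm_nonneg _)
      ((i1 (f - u - Pre.op _ q1 ((t : ℂ) • y))).trans b5) 2)⟩
  have it := (mMU n M H hm).2.2.2.2.1 ℝ
  obtain ⟨-, g0c, g0p, -⟩ := (hGB n M _ H _ hm o0 l0).1 _ (ι u).sec
  obtain ⟨-, g1c, -, -⟩ := (hGB n M _ H _ hm o1 l1).1 _ u.sec
  have boc := hBOC n M H L _ _ hH hψ u.sec
  rw [show (lam H L (aw M φ w)).nr H ((oQ H).ap u.val) = _ from (nr_op q1 u).symm,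
    show (lam H L (aw M φ w)).nr H ((oP H _).ap u.val) = _ from (nr_op p1 u).symm] at boc
  obtain ⟨-, cc, cl⟩ := hCU n M H _ L _ _ hm
    (hψ.clo.toTen.add ((mHES n M).2.2.2.2.2.2.2.2.1 H hm).toTen) hψ u.sec
  have cl' := cl ε hε.le fun e he z hz => by
    have := hc e he z hz
    simp only [Pi.add_apply, hh e he z hz] at this ⊢
    rwa [add_right_comm (M.hw φ e z)]
  have m1 : -(ε * n * ‖u‖ ^ 2) ≤
      ∫ x, cu (M.hw (aw M φ w) + M.ric H) (lam H L (aw M φ w)) u.val x ∂M.mu H := by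
    rw [Pre.norm_sq, Bun.nr, ← integral_const_mul, ← integral_neg]
    exact integral_mono ((itg u).const_mul _).neg (it _ cc) cl'
  have m2 : ∫ x, gb H (lam H L φ) u.val x ∂M.mu H ≤
      ∫ x, gb H (lam H L (aw M φ w)) u.val x ∂M.mu H :=
    integral_mono (it _ g0c) (it _ g1c) fun x => by
      have := g0p x
      change 0 ≤ gb H (lam H L φ) u.val x at this
      simp only [(a1 u.val u.val x).2.2]
      nlinarith [ex x]
  have m3 : ‖Pre.op _ q1 u + Pre.op _ p1 u‖ ^ 2 = ‖Pre.op _ q1 u‖ ^ 2 + ‖Pre.op _ p1 u‖ ^ 2 := by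
    rw [@norm_add_sq ℂ, ort]
    simp
  have m4 : ‖Pre.op _ q1 u + Pre.op _ p1 u‖ ^ 2 ≤ ε * (2 * A + 2) := by
    have := mul_le_mul_of_nonneg_left ((pow_le_pow_left₀ (by positivity) c5 2).trans f4) hε.le
    rwa [mul_pow, ← mul_assoc, t2, one_mul] at this
  have m5 := mul_le_mul_of_nonneg_left u2 (mul_nonneg hε.le n.cast_nonneg)
  linarith

end HLS

open HLS

theorem kHLS (hLAM : HLK.St_LAM) (hSQ : HLK.St_SQ) (hSP : HLK.St_SP) (hADJ : HLK.St_ADJ)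
    (hSKW : HLK.St_SKW) (hGB : HLK.St_GB) (hCU : HLK.St_CU) (hBOC : HLK.St_BOC) (hWS : HLK.St_WS)
    (hDNS : HLK.St_DNS) (hNEAR : HLK.St_NEAR) (hVL : HLK.St_VL) : St_HLS := by
  intro n M _ H L φ W hn hH hφ ⟨C, hw⟩ hW hQ
  have hm := hH.toMet
  obtain ⟨o0, l0, a0⟩ := hLAM n M H L φ hm hφ
  have it := (mMU n M H hm).2.2.2.2.1 ℝ
  let g : Geo M (Fs n) := ⟨H, lam H L φ, hm, o0⟩
  have q0 : ∀ W, g.b.Sec W → g.b.Sec ((oQ H).ap W) := fun W h => (hSQ n M H L _ W hm h).1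
  have ps : M.Sm ((lam H L φ).pn W) := (o0.pp_rep hW hW).2.re
  obtain ⟨B, B0, hB⟩ := ps.exists_bound
  have n1 : (1 : ℝ) ≤ n := Nat.one_le_cast.2 hn
  have step : ∀ j : ℕ, ∃ u s, (lam H L φ).Sec u ∧ (lam H L φ).Sec s ∧
      (lam H L φ).nr H u ≤ 2 * (B * C) + 2 ∧
      ∫ x, gb H (lam H L φ) u x ∂M.mu H ≤ 1 / ((j : ℝ) + 1) * ((n + 1) * (2 * (B * C) + 2)) ∧
      (lam H L φ).nr H (W - u - (oQ H).ap s) ≤ (3 * (1 / ((j : ℝ) + 1))) ^ 2 := fun j => by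
    obtain ⟨ε, hε, w, w1, w2, w3, w4⟩ := hw (1 / ((j : ℝ) + 1)) (by positivity)
    have n3 : (lam H L (aw M φ w)).nr H W ≤ B * C := by
      refine le_trans ?_ (mul_le_mul_of_nonneg_left w4 B0.le)
      rw [Bun.nr, ← integral_const_mul]
      simp only [fun x => ((a0 w).2 W W x).2.1]
      refine integral_mono (it _ (ps.mul w1.neg.exp).continuous)
        (it _ ((w1.const_mul _).neg.exp.const_mul B).continuous) fun x => ?_
      exact mul_le_mul ((le_abs_self _).trans (hB x)) (Real.exp_le_exp.2 (by nlinarith [w2 x]))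
        (Real.exp_pos _).le B0.le
    obtain ⟨u, s, c1, c2, c3, c4, c5⟩ := one hLAM hSQ hSP hADJ hSKW hGB hCU hBOC hWS hDNS hNEAR hH hφ
      hε.1 w1 w2 w3 hW hQ n3 (d := 1 / ((j : ℝ) + 1)) (by positivity)
      (by rw [div_le_one (by positivity)]; linarith [j.cast_nonneg (α := ℝ)])
    refine ⟨u, s, c1, c2, c3, c4.trans ?_, c5⟩
    have c6 : 0 ≤ (lam H L φ).nr H u := (sq_nonneg _).trans_eq (Pre.norm_sq (g := g) (Pre.mk u c1))
    rw [mul_assoc]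
    exact mul_le_mul_of_nonneg_right hε.2 (mul_nonneg (by positivity) (c6.trans c3))
  choose u s s1 s2 s3 s4 s5 using step
  have A0 : 0 ≤ 2 * (B * C) + 2 :=
    ((sq_nonneg _).trans_eq (Pre.norm_sq (g := g) (Pre.mk _ (s1 0)))).trans (s3 0)
  obtain ⟨V, v1, v2, v3⟩ := hVL n M _ H _ (hyperfilter ℕ) u ((n + 1) * (2 * (B * C) + 2)) hn hm o0 l0
    (fun j => ⟨s1 j, (s3 j).trans (by nlinarith), (s4 j).trans (mul_le_of_le_one_left
      (by positivity) (by rw [div_le_one (by positivity)]; linarith [j.cast_nonneg (α := ℝ)]))⟩)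
    (by
      refine (squeeze_zero (fun j => integral_nonneg ((hGB n M _ H _ hm o0 l0).1 _ (s1 j)).2.2.1)
        s4 ?_).mono_left Nat.hyperfilter_le_atTop
      simpa using (tendsto_one_div_add_atTop_nhds_zero_nat (𝕜 := ℝ)).mul_const
        ((n + 1) * (2 * (B * C) + 2)))
  refine ⟨V, v1, v2, fun η hη => ?_⟩
  have v4 : Tendsto (fun j : ℕ => (3 * (1 / ((j : ℝ) + 1))) ^ 2) (hyperfilter ℕ) (𝓝 0) := by
    have h1 := ((tendsto_one_div_add_atTop_nhds_zero_nat (𝕜 := ℝ)).const_mul 3).pow 2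
    rw [mul_zero, zero_pow two_ne_zero] at h1
    exact h1.mono_left Nat.hyperfilter_le_atTop
  have η4 : 0 < η / 4 := by positivity
  obtain ⟨j, j1, j2⟩ := ((v3.eventually (gt_mem_nhds η4)).and (v4.eventually (gt_mem_nhds η4))).exists
  refine ⟨s j, s2 j, ?_⟩
  let a : Pre g := Pre.mk W hW
  let b : Pre g := Pre.mk V v1
  let c : Pre g := Pre.mk (u j) (s1 j)
  let y : Pre g := Pre.mk (s j) (s2 j)
  have e1 : ‖a - c - Pre.op _ q0 y‖ ^ 2 ≤ η / 4 := ((nr_eq q0 a c y).symm.trans_le (s5 j)).trans j2.le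
  have e2 : ‖c - b‖ ^ 2 ≤ η / 4 := (Pre.norm_sq (c - b)).trans_le j1.le
  have e3 : ‖a - b - Pre.op _ q0 y‖ ≤ ‖a - c - Pre.op _ q0 y‖ + ‖c - b‖ := by
    refine le_trans (le_of_eq (congrArg _ ?_)) (norm_add_le _ _)
    abel
  refine (nr_eq q0 a b y).trans_le ((pow_le_pow_left₀ (norm_nonneg _) e3 2).trans ?_)
  nlinarith [sq_nonneg (‖a - c - Pre.op _ q0 y‖ - ‖c - b‖)]

end Pool.Agent.Lib.KS
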