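import Pool.Agent.Lib.KS.Blue

/-! Project ks: the smooth limit. -/

open scoped Classical Topology ContDiff ENNReal Convolution
open Set MeasureTheory Filter

noncomputable section

namespace Pool.Agent.Lib.KS

open Pool.Agent.Lib.SV (E)
open Pool.Agent.Lib.HLK

theorem kLIM : St_LIM := by
  intro n ρ K f hρ hc hK hf h
  have m : ∀ j, MemLp (f j) 2 volume := fun j =>
    (hf j).1.memLp_of_hasCompactSupport (HasCompactSupport.intro hK (hf j).2)
  have cau : CauchySeq fun j => (m j).toLp (f j) := by
    rw [Lp.cauchySeq_Lp_iff_cauchySeq_eLpNorm]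
    have := ((ENNReal.continuous_rpow_const (y := 1 / 2)).tendsto 0).comp h
    rw [ENNReal.zero_rpow_of_pos (by norm_num)] at this
    refine this.congr fun p => ?_
    rw [eLpNorm_congr_ae ((m p.1).coeFn_toLp.sub (m p.2).coeFn_toLp),
      eLpNorm_eq_lintegral_rpow_enorm_toReal two_ne_zero ENNReal.ofNat_ne_top]
    simp only [Function.comp, ENNReal.toReal_ofNat, ENNReal.rpow_two, Pi.sub_apply]
  obtain ⟨g, hg⟩ := cauchySeq_tendsto_of_complete cau
  rw [Lp.tendsto_Lp_iff_tendsto_eLpNorm'] at hg
  have r : MemLp ρ 2 volume := hρ.continuous.memLp_of_hasCompactSupport hc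
  have mp : ∀ z : E n, MeasurePreserving (fun x => z - x) volume volume := fun z =>
    Measure.measurePreserving_sub_left volume z
  have i : ∀ (z : E n) {u : E n → Fs n → ℂ}, MemLp u 2 volume →
      Integrable fun x => ρ (z - x) • u x := fun z u hu =>
    memLp_one_iff_integrable.1 (hu.smul (r.comp_measurePreserving (mp z)))
  refine ⟨ρ ⋆[ContinuousLinearMap.lsmul ℝ ℝ, volume] g, hc.contDiff_convolution_left _ hρ
    ((Lp.memLp g).locallyIntegrable one_le_two), ?_⟩
  have t := ENNReal.Tendsto.const_mul (a := eLpNorm ρ 2 volume) hg (Or.inr r.eLpNorm_ne_top)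
  rw [mul_zero] at t
  refine EMetric.tendstoUniformly_iff.2 fun ε hε => ?_
  filter_upwards [t.eventually (gt_mem_nhds hε)] with j hj z
  refine lt_of_le_of_lt ?_ hj
  rw [convolution_lsmul_swap, edist_comm, edist_eq_enorm_sub,
    ← integral_sub (i z (m j)) (i z (Lp.memLp g)),
    eLpNorm_congr_ae ((m j).coeFn_toLp.sub EventuallyEq.rfl),
    ← eLpNorm_comp_measurePreserving r.1 (mp z)]
  refine (enorm_integral_le_lintegral_enorm _).trans (le_trans (le_of_eq ?_)
    (eLpNorm_smul_le_mul_eLpNorm (r := 1) ((m j).sub (Lp.memLp g)).1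
      (r.comp_measurePreserving (mp z)).1))
  rw [eLpNorm_one_eq_lintegral_enorm]
  simp only [Pi.smul_apply', Pi.sub_apply, smul_sub, Function.comp]

end Pool.Agent.Lib.KS
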