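import Pool.Agent.Lib.KS.Blue
import Pool.Agent.Lib.HLK.B_SQ

/-! Project ks: lowering the indices turns `Q` into the flat operator. -/

open scoped Classical Topology ContDiff ComplexOrder Matrix
open Set Complex Filter

noncomputable section

namespace Pool.Agent.Lib.KS

open Pool.Agent.Lib.SV (E)
open Pool.Agent.Lib.HS32 Pool.Agent.Lib.HLK

namespace LOW

variable {n : ℕ}

theorem prod {T : E n → Mx (Fs n)} {V : E n → Fs n → ℂ} {z : E n} (hT : SmX T z)
    (h : ContDiffAt ℝ ∞ V z) (l : Fin n) (D : Mx (Fs n))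
    (hD : ∀ A B, dzb l (fun w => T w A B) z = D A B) :
    dzbv l (fun w => T w *ᵥ V w) z = D *ᵥ V z + T z *ᵥ dzbv l V z := funext fun A => by
  simp only [dzbv, Matrix.mulVec, dotProduct, Pi.add_apply]
  rw [dzb_sum fun B _ => (cd_diff (hT A B)).fun_mul (cd_diff (contDiffAt_pi.1 h B)),
    ← Finset.sum_add_distrib]
  refine Finset.sum_congr rfl fun B _ => ?_
  rw [dzb_mul (cd_diff (hT A B)) (cd_diff (contDiffAt_pi.1 h B)), hD]

theorem swap (h2 : St_FK2) {G : Mat n} (hG : G.det ≠ 0) (l : Fin n) (v : Fs n → ℂ) :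
    ∑ k, G⁻¹ k l • (La G *ᵥ (cr k *ᵥ v)) = cr l *ᵥ (La G *ᵥ v) := by
  simp only [Matrix.mulVec_mulVec, ((h2 n).2 G).2.2.2.1, Matrix.sum_mulVec, Matrix.smul_mulVec,
    Finset.smul_sum, smul_smul]
  rw [Finset.sum_comm]
  simp only [← Finset.sum_smul, mul_comm (G⁻¹ _ l), ← Matrix.mul_apply,
    Matrix.mul_nonsing_inv _ hG.isUnit, Matrix.one_apply, ite_smul, one_smul, zero_smul,
    Finset.sum_ite_eq', Finset.mem_univ, if_true]

theorem der (h2 : St_FK2) {G : Mat n} (hG : G.det ≠ 0) (D : Mat n) (v : Fs n → ℂ) :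
    (La G * dL (G⁻¹ * D)) *ᵥ v = ∑ m, cr m *ᵥ ∑ j, D m j • (La G *ᵥ (an j *ᵥ v)) := by
  simp only [Matrix.mulVec_sum, Matrix.mulVec_smul, ← swap h2 hG, dL, ← Matrix.mulVec_mulVec,
    Matrix.sum_mulVec, Matrix.smul_mulVec, Matrix.mul_apply, Finset.sum_smul, Finset.smul_sum,
    smul_smul]
  calc _ = ∑ i, ∑ m, ∑ j, _ := Finset.sum_congr rfl fun _ _ => Finset.sum_comm
    _ = ∑ m, ∑ i, ∑ j, _ := Finset.sum_comm
    _ = ∑ m, ∑ j, ∑ i, _ := Finset.sum_congr rfl fun _ _ => Finset.sum_comm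
    _ = _ := Finset.sum_congr rfl fun _ _ => Finset.sum_congr rfl fun _ _ =>
      Finset.sum_congr rfl fun _ _ => by rw [mul_comm]

end LOW

theorem kLOW (hFK1 : St_FK1) (hFK2 : St_FK2) (hFK3 : St_FK3) : St_LOW := by
  intro n M H W hH e he z hz hW
  have d0 := hH.toMet.det_ne e he z hz
  obtain ⟨f1, f2⟩ := (hFK3 n (H e) z).2 (hH.sm e he z hz)
  have y : ∀ l a b, dMb l (H e) z a b = dMb a (H e) z l b := fun l a b => by
    simp only [(HS68.met_loc hH.toMet he hz).dMb_eq, Matrix.conjTranspose_apply, gam,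
      Matrix.mul_apply, fun c => hH.cl e he z hz c a l]
  have k := SQ.anti hFK1 (fun l m => ∑ j, dMb l (H e) z m j • (La (H e z) *ᵥ (an j *ᵥ W e z)))
    fun l m => Finset.sum_congr rfl fun j _ => by rw [y l m j]
  rw [fq, SQ.ap_eq]
  simp only [fun l => LOW.prod f1 hW l _ fun A B => (f2 d0 l A B).2, Matrix.mulVec_add,
    Finset.sum_add_distrib, LOW.der hFK2 d0]
  rw [show ∑ l, cr l *ᵥ ∑ m, cr m *ᵥ ∑ j, dMb l (H e) z m j • (La (H e z) *ᵥ (an j *ᵥ W e z)) = 0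
    from (Finset.sum_congr rfl fun l _ => Matrix.mulVec_sum _ _ _).trans k, zero_add,
    Matrix.mulVec_sum]
  refine Finset.sum_congr rfl fun l _ => ?_
  rw [← LOW.swap hFK2 d0, Matrix.mulVec_sum]
  exact Finset.sum_congr rfl fun k _ => (Matrix.mulVec_smul _ _ _).symm

end Pool.Agent.Lib.KS
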