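import Pool.Agent.Lib.KS.Blue

/-! Row LWH: the hard Lefschetz theorem for forms. -/

open scoped Classical Topology ContDiff ComplexOrder Matrix
open Set Filter

noncomputable section

namespace Pool.Agent.Lib.KS

open Pool.Agent.Lib.SV (E)
open Pool.Agent.Lib.HS32 Pool.Agent.Lib.HLK

theorem kLWH (hHLS : St_HLS) (hEXA : St_EXA) (hLOW : St_LOW) (hRAI : St_RAI) (hSQ : HLK.St_SQ) :
    St_LWH := by
  intro n M _ H L φ hH hφ
  have hm := hH.toMet
  obtain ⟨r1, -, r3, r4⟩ := hRAI n M L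
  obtain ⟨lo, ra, iv⟩ := r1 H φ hm
  have low := fun W (h : (lam H L φ).Sec W) e he z hz => hLOW n M H W hH e he z hz (h.sm e he z hz)
  have up : ∀ A, Lw L A → M.All fun e z => fq (A e) z =
      La (H e z) *ᵥ (oQ H).ap (fun e z => La (H e z)⁻¹ *ᵥ A e z) e z := fun A hA e he z hz => by
    beta_reduce
    rw [← low _ (ra A hA) e he z hz]
    refine (r4 z).2.1 _ _ ?_
    filter_upwards [e.open_target.mem_nhds hz] with w hw
    rw [Matrix.mulVec_mulVec, (iv e he w hw).1, Matrix.one_mulVec]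
  refine ⟨fun A hA => ?_, fun hn hw k A hA ind => ?_⟩
  · have h := lo _ (hSQ n M H L φ _ hm (ra A hA)).1
    refine ⟨fun e he z hz => (r4 z).2.2.1 _ (hA.sm e he z hz), fun e he e' he' x hx hx' => ?_⟩
    beta_reduce
    rw [up A hA e he _ (e.map_source hx), up A hA e' he' _ (e'.map_source hx')]
    exact h.cmp e he e' he' x hx hx'
  have one : ∀ s, ∃ V B, ((lam H L φ).Sec V ∧ Hol V) ∧ Lw L B ∧
      M.All fun e z => A s e z = La (H e z) *ᵥ V e z + fq (B e) z := fun s => by
    have hW := ra _ (hA s).1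
    obtain ⟨V, v1, v2, v3⟩ := hHLS n M H L φ _ hn hH hφ hw hW fun e he z hz => by
      have h := (up _ (hA s).1 e he z hz).symm.trans ((hA s).2 e he z hz)
      beta_reduce at h ⊢
      rw [← Matrix.one_mulVec ((oQ H).ap _ e z), ← (iv e he z hz).2, ← Matrix.mulVec_mulVec, h,
        Matrix.mulVec_zero]
    obtain ⟨B, b1, b2⟩ := hEXA n M H L φ _ hH hφ ((lam H L φ).secs.sub_mem hW v1) v3
    refine ⟨V, _, ⟨v1, v2⟩, lo B b1, fun e he z hz => ?_⟩
    beta_reduce
    rw [low B b1 e he z hz, ← b2 e he z hz, Pi.sub_apply, Pi.sub_apply, Matrix.mulVec_sub,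
      Matrix.mulVec_mulVec, (iv e he z hz).1, Matrix.one_mulVec, add_sub_cancel]
  choose V B v b h using one
  refine ⟨V, fun c hc => ind c _ (r3 k c B b) fun e he z hz => ?_, v⟩
  have h0 := congrArg (La (H e z) *ᵥ ·) (hc e he z hz)
  simp only [Matrix.mulVec_sum, Matrix.mulVec_smul, Matrix.mulVec_zero] at h0
  beta_reduce
  rw [(r4 z).2.2.2.1 k c (fun s => B s e) fun s => (b s).sm e he z hz]
  simp only [fun s => h s e he z hz, smul_add, Finset.sum_add_distrib, h0, zero_add]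

end Pool.Agent.Lib.KS
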