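import Pool.Agent.Lib.KS.Blue

/-! Project ks, row MV: gluing of the local regularity. -/

open scoped Topology
open Set Filter

set_option linter.unusedSectionVars false

noncomputable section

namespace Pool.Agent.Lib.KS

namespace MV

variable {X C ι : Type} [TopologicalSpace X] [AddCommGroup C] {N : Set X → C → ℝ} {Q : C →+ C}
  {l : Filter ι} {S S' : Set X} {r r' : ι → C}

/-- Tends to zero on `S`. -/
def Z (N : Set X → C → ℝ) (l : Filter ι) (S : Set X) (r : ι → C) : Prop :=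
  Tendsto (fun j => N S (r j)) l (𝓝 0)

theorem bd (h : Loc N Q) {A : ℝ} (hr : Z N l S r) (k : ∀ j, N S' (r' j) ≤ A * N S (r j)) :
    Z N l S' r' := squeeze_zero (fun _ => h.nn _ _) k (by simpa using hr.const_mul A)

theorem mono (h : Loc N Q) (hr : Z N l S r) (k : S' ⊆ S) : Z N l S' r :=
  squeeze_zero (fun _ => h.nn _ _) (fun _ => h.mono _ _ _ k) hr

theorem add (h : Loc N Q) (hr : Z N l S r) (hr' : Z N l S r') : Z N l S fun j => r j + r' j :=
  squeeze_zero (fun _ => h.nn _ _) (fun _ => h.add _ _ _)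
    (by simpa using (hr.const_mul 2).add (hr'.const_mul 2))

theorem sub (h : Loc N Q) (hr : Z N l S r) (hr' : Z N l S r') : Z N l S fun j => r j - r' j := by
  simp only [sub_eq_add_neg]
  exact add h hr (hr'.congr fun j => (h.neg _ _).symm)

theorem un (h : Loc N Q) (hr : Z N l S r) (hr' : Z N l S' r) : Z N l (S ∪ S') r :=
  squeeze_zero (fun _ => h.nn _ _) (fun _ => h.un _ _ _) (by simpa using hr.add hr')

theorem zero (k : ∀ j, N S (r j) = 0) : Z N l S r := tendsto_const_nhds.congr fun j => (k j).symm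

theorem cg (hr : Z N l S r) (k : ∀ j, r j = r' j) : Z N l S r' :=
  hr.congr fun j => congrArg _ (k j)

theorem two [CompactSpace X] [T2Space X] (h : Loc N Q) {K₁ K₂ : Set X} (c1 : IsClosed K₁)
    (c2 : IsClosed K₂) (p1 : Pk N Q K₁) (p2 : Pk N Q K₂) (p3 : Pk N Q (K₁ ∩ K₂)) :
    Pk N Q (K₁ ∪ K₂) := by
  rintro b a₀ hb ⟨V, o, s, z⟩
  obtain ⟨a1, b1, u1, V1, o1, s1, z1⟩ := p1 b a₀ hb ⟨V, o, subset_union_left.trans s, z⟩
  obtain ⟨a2, b2, u2, V2, o2, s2, z2⟩ := p2 b a₀ hb ⟨V, o, subset_union_right.trans s, z⟩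
  have u12 : Cau N fun j => b1 j - b2 j := cg (sub h u1 u2) fun p => by
    beta_reduce
    abel
  obtain ⟨a3, b3, u3, V3, o3, s3, z3⟩ := p3 _ (a2 - a1) u12 ⟨V1 ∩ V2, o1.inter o2,
    inter_subset_inter s1 s2, cg (sub h (mono h z2 inter_subset_right)
      (mono h z1 inter_subset_left)) fun j => by rw [map_sub]; abel⟩
  obtain ⟨m, c, W, A, oW, sW, -, hm⟩ := h.cut _ _ (c1.inter c2) o3 s3
  have f1 : Tendsto Prod.fst (atTop : Filter (ℕ × ℕ)) atTop :=
    prod_atTop_atTop_eq (α := ℕ) (β := ℕ) ▸ tendsto_fst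
  have f2 : Tendsto Prod.snd (atTop : Filter (ℕ × ℕ)) atTop :=
    prod_atTop_atTop_eq (α := ℕ) (β := ℕ) ▸ tendsto_snd
  have q3 : Z N atTop (univ ∩ V3) fun p : ℕ × ℕ => Q (b3 p.1 - b3 p.2) :=
    mono h (cg (sub h (mono h u12 (subset_univ V3)) (sub h (z3.comp f1) (z3.comp f2)))
      fun p => by simp only [map_sub, Function.comp_apply]; abel) inter_subset_right
  set D : ℕ → C := fun j => b1 j - m a3 - Q (m (b3 j)) - b2 j with hD
  have uD : Cau N D := cg (sub h u12 (add h (bd h q3 fun p => ((hm _).2 _ isOpen_univ).1)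
    (bd h (mono h u3 inter_subset_left) fun p => ((hm _).2 _ isOpen_univ).2.1))) fun p => by
      rw [← (hm _).1]
      simp only [hD, map_sub]
      abel
  have oN : IsOpen (V1 ∩ V2 ∩ V3 ∩ W) := ((o1.inter o2).inter o3).inter oW
  have k := fun r => (hm r).2 _ ((o1.inter o2).inter o3)
  have zD : Z N atTop (V1 ∩ V2 ∩ V3 ∩ W) D := cg (sub h (add h (add h
    (mono h z3 (inter_subset_left.trans inter_subset_right)) (zero fun _ => (k a3).2.2.2.1))
    (zero fun j => (k (Q (b3 j))).2.2.2.1)) (zero fun j => (k (b3 j)).2.2.2.2)) fun j => by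
      simp only [hD, (hm _).1]
      abel
  obtain ⟨U1, U2, n1, n2, t1, t2, dj⟩ := normal_separation (c1.sdiff oN) (c2.sdiff oN)
    (disjoint_left.2 fun x h1 h2 => h1.2 ⟨⟨⟨s1 h1.1, s2 h2.1⟩, s3 ⟨h1.1, h2.1⟩⟩, sW ⟨h1.1, h2.1⟩⟩)
  obtain ⟨m', c', W', A', oW', sW', -, hm'⟩ := h.cut _ _ (c1.sdiff oN) n1 t1
  have key : ∀ S, Z N atTop S (fun j => b j - a2 - Q (b2 j) - m' (b j - a2 - Q (b2 j))) →
      Z N atTop S (fun j => m' (b j - a1 - Q (b1 j))) → Z N atTop S (fun j => c' (D j)) →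
      Z N atTop S fun j => b j - (a2 + m' (a1 + Q (m a3) - a2)) - Q (b2 j + m' (D j)) :=
    fun S x1 x2 x3 => cg (sub h (add h x1 x2) x3) fun j => by
      rw [map_add Q, (hm' _).1]
      simp only [hD, map_sub, map_add, h.qq, map_zero]
      abel
  have e0 : ∀ r, N (U2 ∩ V2 ∩ U1) r = 0 := fun r => by
    rw [show U2 ∩ V2 ∩ U1 = ∅ from eq_empty_of_forall_notMem fun x hx =>
      disjoint_left.1 dj hx.2 hx.1.1, h.emp]
  refine ⟨a2 + m' (a1 + Q (m a3) - a2), fun j => b2 j + m' (D j), cg (add h u2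
    (bd h (mono h uD inter_subset_left) fun p => ((hm' _).2 _ isOpen_univ).1)) fun p => by
      simp only [map_sub]
      abel, V1 ∩ W' ∪ V1 ∩ V2 ∩ V3 ∩ W ∪ U2 ∩ V2,
    ((o1.inter oW').union oN).union (n2.inter o2), fun x hx => ?_,
    un h (un h (key _ ?_ ?_ ?_) (key _ ?_ ?_ ?_)) (key _ ?_ ?_ ?_)⟩
  · by_cases x0 : x ∈ V1 ∩ V2 ∩ V3 ∩ W
    · exact .inl (.inr x0)
    · exact hx.elim (fun x1 => .inl (.inl ⟨s1 x1, sW' ⟨x1, x0⟩⟩))
        fun x2 => .inr ⟨t2 ⟨x2, x0⟩, s2 x2⟩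
  · exact zero fun j => ((hm' _).2 _ o1).2.2.2.1
  · exact bd h (mono h z1 (inter_subset_left.trans inter_subset_left))
      fun j => ((hm' _).2 _ (o1.inter oW')).1
  · exact zero fun j => ((hm' _).2 _ o1).2.2.2.2
  · exact bd h (mono h z2 fun x hx => hx.1.1.2) fun j => ((hm' _).2 _ oN).2.2.1
  · exact bd h (mono h z1 fun x hx => hx.1.1.1.1) fun j => ((hm' _).2 _ oN).1
  · exact bd h (mono h zD inter_subset_left) fun j => ((hm' _).2 _ oN).2.1
  · exact bd h (mono h z2 inter_subset_right) fun j => ((hm' _).2 _ (n2.inter o2)).2.2.1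
  · exact bd h (zero fun j => e0 _) fun j => ((hm' _).2 _ (n2.inter o2)).1
  · exact bd h (zero fun j => e0 _) fun j => ((hm' _).2 _ (n2.inter o2)).2.1

end MV

theorem kMV : St_MV := by
  intro X C _ _ _ _ N Q h hx
  obtain ⟨O, -, s, k⟩ := isCompact_univ.induction_on
    (p := fun S => ∃ O, IsOpen O ∧ S ⊆ O ∧ ∀ K ⊆ O, IsCompact K → Pk N Q K)
    ⟨∅, isOpen_empty, Subset.rfl, fun K hK _ b _ hb _ =>
      ⟨0, b, hb, ∅, isOpen_empty, hK, MV.zero fun _ => h.emp _⟩⟩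
    (fun S T hs ⟨O, o, s, k⟩ => ⟨O, o, hs.trans s, k⟩)
    (fun S T ⟨O, o, s, k⟩ ⟨O', o', s', k'⟩ => ⟨O ∪ O', o.union o', union_subset_union s s',
      fun K hK c => by
        obtain ⟨K₁, K₂, c1, c2, t1, t2, rfl⟩ := c.binary_compact_cover o o' hK
        exact MV.two h c1.isClosed c2.isClosed (k _ t1 c1) (k' _ t2 c2)
          (k _ (inter_subset_left.trans t1) (c1.inter c2))⟩)
    fun x _ => by
      obtain ⟨O, o, k⟩ := hx x
      exact ⟨interior O, mem_nhdsWithin_of_mem_nhds (interior_mem_nhds.2 o), _, isOpen_interior,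
        Subset.rfl, fun K hK => k K (hK.trans interior_subset)⟩
  exact k _ s isCompact_univ

end Pool.Agent.Lib.KS
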