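import Pool.Agent.Lib.KS.Blue
import Pool.Agent.Lib.HLK.B_FK1
import Pool.Agent.Lib.HLK.B_FK2
import Pool.Agent.Lib.HLK.B_FK3
import Pool.Agent.Lib.HLK.B_SQ

/-! Project ks, row RAI: raising and lowering; the rules for the flat operator. -/

open scoped Classical Topology ContDiff ComplexOrder Matrix
open Set Complex Filter

noncomputable section

namespace Pool.Agent.Lib.KS

open Pool.Agent.Lib.SV (E)
open Pool.Agent.Lib.HS32 Pool.Agent.Lib.HLK

namespace RAI

variable {n : ℕ}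

theorem pj_mv {T : Mx (Fs n)} (d q : ℕ) (h : ∀ A B, A.card ≠ B.card + d → T A B = 0)
    (a : Fs n → ℂ) : T *ᵥ pj q a = pj (q + d) (T *ᵥ a) := funext fun A => by
  simp only [pj, Matrix.mulVec, dotProduct]
  split_ifs with c
  · refine Finset.sum_congr rfl fun B _ => ?_
    split_ifs with c'
    · rfl
    · rw [h A B (by omega), zero_mul, zero_mul]
  · refine Finset.sum_eq_zero fun B _ => ?_
    split_ifs with c'
    · rw [h A B (by omega), zero_mul]
    · exact mul_zero _

theorem cr_ne (l : Fin n) (A B : Fs n) (h : A.card ≠ B.card + 1) : cr l A B = 0 :=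
  if_neg fun c => h (by rw [c.2, Finset.card_insert_of_notMem c.1])

theorem pj_smul (q : ℕ) (c : ℂ) (a : Fs n → ℂ) : pj q (c • a) = c • pj q a := funext fun A => by
  simp [pj]

theorem pj_sum {ι : Type} (S : Finset ι) (q : ℕ) (a : ι → Fs n → ℂ) :
    pj q (∑ i ∈ S, a i) = ∑ i ∈ S, pj q (a i) := funext fun A => by
  simp only [pj, Finset.sum_apply]
  split_ifs <;> simp

theorem cd_mv {T : E n → Mx (Fs n)} {V : E n → Fs n → ℂ} {z : E n} (hT : SmX T z)
    (h : ContDiffAt ℝ ∞ V z) : ContDiffAt ℝ ∞ (fun w => T w *ᵥ V w) z :=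
  contDiffAt_pi.2 fun A => ContDiffAt.sum (s := Finset.univ) fun B _ =>
    (hT A B).mul (contDiffAt_pi.1 h B)

theorem dzbv_smul {h : E n → ℂ} {f : E n → Fs n → ℂ} {z : E n} (hh : HolN h z)
    (hf : ContDiffAt ℝ ∞ f z) (l : Fin n) : dzbv l (fun w => h w • f w) z = h z • dzbv l f z :=
  funext fun A => (dzb_mul (hh.self_of_nhds.restrictScalars ℝ)
    (cd_diff (contDiffAt_pi.1 hf A))).trans (by
      rw [((mHOL n h z).1 (hh.self_of_nhds.restrictScalars ℝ)).1 hh.self_of_nhds, zero_mul,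
        zero_add]
      rfl)

end RAI

open RAI in
theorem kRAI : St_RAI := by
  intro n M L
  obtain ⟨f1, f2⟩ := st_FK2 st_FK1 n
  refine ⟨fun H φ hH => ⟨fun W h => ⟨fun e he z hz => cd_mv (FK3.sm (hH.sm e he z hz))
    (h.sm e he z hz), fun e he e' he' x hx hx' => ?_⟩, fun A h => ⟨fun e he z hz => cd_mv
    (FK3.sm ((hH.sm e he z hz).inv (hH.det_ne e he z hz))) (h.sm e he z hz),
    fun e he e' he' x hx hx' => ?_⟩, fun e he z hz => ?_⟩, fun q A h => ⟨fun e he z hz =>
    contDiffAt_pi.2 fun B => ?_, fun e he e' he' x hx hx' => ?_⟩, fun k c A h => ⟨fun e he z hz =>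
    ContDiffAt.sum fun s _ => ((h s).sm e he z hz).const_smul _, fun e he e' he' x hx hx' => ?_⟩,
    fun z => ⟨fun q f => ⟨?_, funext fun A => ?_⟩, fun f g h => ?_, fun f h =>
    ContDiffAt.sum fun l _ => SQ.cd_cmv (SQ.cd_dzbv h l) _, fun k c f h => ?_, fun h f hh hf => ?_⟩⟩
  · beta_reduce
    rw [h.cmp e he e' he' x hx hx', hH.cmp e he e' he' x hx hx', (f2 _).2.2.1, (f2 _).2.2.1,
      (f2 _).1]
    simp only [lam, Matrix.smul_mulVec, Matrix.mulVec_smul, Matrix.mulVec_mulVec, smul_smul,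
      mul_inv_cancel₀ (L.ne e he e' he' x hx hx'), one_smul, Matrix.mul_assoc]
  · have hJ := ((mTR n M).2.1 e he e' he' x hx hx').2.1
    have hJ' : (M.J e e' x)ᴴ.det ≠ 0 := by rw [Matrix.det_conjTranspose]; exact star_ne_zero.2 hJ
    have a : (H e (e x))⁻¹ = M.J e e' x * (H e' (e' x))⁻¹ * (M.J e e' x)ᴴ := by
      rw [hH.cmp e he e' he' x hx hx', Matrix.mul_inv_rev, Matrix.mul_inv_rev, ← Matrix.mul_assoc,
        Matrix.mul_nonsing_inv _ hJ.isUnit, Matrix.one_mul, Matrix.mul_assoc,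
        Matrix.nonsing_inv_mul _ hJ'.isUnit, Matrix.mul_one]
    beta_reduce
    rw [h.cmp e he e' he' x hx hx', a, (f2 _).2.2.1, (f2 _).2.2.1, (f2 _).1]
    simp only [lam, Matrix.smul_mulVec, Matrix.mulVec_smul, Matrix.mulVec_mulVec, smul_smul,
      Matrix.smul_mul,
      mul_inv_cancel₀ (L.ne e he e' he' x hx hx'), one_smul, Matrix.mul_assoc]
  · have u := (hH.det_ne e he z hz).isUnit
    beta_reduce
    rw [← (f2 _).2.2.1, ← (f2 _).2.2.1, Matrix.mul_nonsing_inv _ u, Matrix.nonsing_inv_mul _ u]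
    exact ⟨f1, f1⟩
  · simp only [pj]
    split_ifs
    exacts [contDiffAt_pi.1 (h.sm e he z hz) B, contDiffAt_const]
  · beta_reduce
    rw [h.cmp e he e' he' x hx hx', pj_smul, ← (f2 _).1,
      pj_mv 0 q fun A B c => FK2.la_ne _ (Ne.symm c), add_zero]
  · simp only [Matrix.mulVec_sum, Matrix.mulVec_smul, Finset.smul_sum]
    exact Finset.sum_congr rfl fun s _ => by rw [(h s).cmp e he e' he' x hx hx', smul_comm]
  · rw [fq, fq, pj_sum]
    refine Finset.sum_congr rfl fun l _ => ?_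
    rw [← pj_mv 1 q (cr_ne l)]
    refine congrArg _ (funext fun B => ?_)
    simp only [dzbv, pj]
    split_ifs
    exacts [rfl, dzb_const 0]
  · simp only [pj, fq, Finset.sum_apply, Matrix.mulVec, dotProduct, Pi.zero_apply]
    split_ifs with c
    · exact Finset.sum_eq_zero fun l _ => Finset.sum_eq_zero fun B _ => by
        rw [cr_ne l A B (by omega), zero_mul]
    · rfl
  · exact Finset.sum_congr rfl fun l _ => congrArg _ (funext fun B =>
      dzb_congr (h.mono fun w hw => congrFun hw B))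
  · simp only [fq, Finset.smul_sum, ← Matrix.mulVec_smul]
    rw [Finset.sum_comm]
    refine Finset.sum_congr rfl fun l _ => ?_
    rw [← Matrix.mulVec_sum]
    refine congrArg _ (funext fun B => ?_)
    simp only [dzbv, Finset.sum_apply, Pi.smul_apply, smul_eq_mul]
    rw [dzb_sum fun s _ => (cd_diff (contDiffAt_pi.1 (h s) B)).const_mul _]
    exact Finset.sum_congr rfl fun s _ => dzb_const_mul _ (cd_diff (contDiffAt_pi.1 (h s) B))
  · simp only [fq, dzbv_smul hh hf, Matrix.mulVec_smul, Finset.smul_sum]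

end Pool.Agent.Lib.KS
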