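import Pool.Agent.Lib.KS.Blue

/-! Project ks, row RED: the range is closed. -/

open scoped Topology
open Set Filter

namespace Pool.Agent.Lib.KS

namespace RED

variable {C G : Type} [SeminormedAddCommGroup C] [InnerProductSpace ℂ C] [NormedAddCommGroup G]
  [InnerProductSpace ℂ G] [CompleteSpace G] (i : C →ₗᵢ[ℂ] G) (D : C →ₗ[ℂ] C)

/-- The weak kernel. -/
noncomputable abbrev ker : Submodule ℂ G := (LinearMap.range (i.toLinearMap ∘ₗ D))ᗮ

omit [CompleteSpace G] in
theorem mem_ker {u : G} : u ∈ ker i D ↔ ∀ s, inner ℂ u (i (D s)) = 0 := by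
  rw [Submodule.mem_orthogonal']
  exact ⟨fun h s => h _ ⟨s, rfl⟩, fun h _ ⟨s, e⟩ => e ▸ h s⟩

/-- The part orthogonal to the weak kernel. -/
noncomputable def ort (s : C) : G := i s - (ker i D).starProjection (i s)

theorem ort_sub (s t : C) : ort i D (s - t) = ort i D s - ort i D t := by
  simp only [ort, map_sub]
  abel

theorem ort_smul (c : ℂ) (s : C) : ort i D (c • s) = c • ort i D s := by
  simp only [ort, map_smul, smul_sub]

theorem lim0 {a : ℕ → ℝ} (h0 : ∀ j, 0 ≤ a j) (c : ℝ) (h : ∀ j : ℕ, a j ≤ c * (1 / ((j : ℝ) + 1))) :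
    Tendsto a atTop (𝓝 0) :=
  squeeze_zero h0 h (by simpa using (tendsto_one_div_add_atTop_nhds_zero_nat (𝕜 := ℝ)).const_mul c)

variable (ws : ∀ u ∈ ker i D, ∀ η : ℝ, 0 < η → ∃ s, ‖u - i s‖ < η ∧ ‖D s‖ < η)
include ws

theorem near (s : C) (η : ℝ) (h : 0 < η) : ∃ r, ‖i r - ort i D s‖ < η ∧ ‖D r - D s‖ < η := by
  obtain ⟨t, t1, t2⟩ := ws _ ((ker i D).starProjection_apply_mem (i s)) η h
  refine ⟨s - t, ?_, ?_⟩
  · have : i (s - t) - ort i D s = (ker i D).starProjection (i s) - i t := by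
      simp only [ort, map_sub]
      abel
    rwa [this]
  · have : D (s - t) - D s = -D t := by
      rw [map_sub]
      abel
    rwa [this, norm_neg]

theorem poin (sk : ∀ a b, inner ℂ a (D b) = -inner ℂ (D a) b)
    (tb : TotallyBounded (i '' {s | ‖s‖ ≤ 1 ∧ ‖D s‖ ≤ 1})) :
    ∃ c : ℝ, ∀ s, ‖ort i D s‖ ≤ c * ‖D s‖ := by
  by_contra hc
  push Not at hc
  have key : ∀ j : ℕ, ∃ s, ‖ort i D s‖ = 1 / 2 ∧ ‖D s‖ ≤ 1 / 2 * (1 / ((j : ℝ) + 1)) := by
    intro j
    obtain ⟨s, hs⟩ := hc (j + 1)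
    have p : (0 : ℝ) < j + 1 := by positivity
    have q : 0 < ‖ort i D s‖ := lt_of_le_of_lt (by positivity) hs
    have e : ‖(((2 * ‖ort i D s‖)⁻¹ : ℝ) : ℂ)‖ = (2 * ‖ort i D s‖)⁻¹ := by
      rw [Complex.norm_real, Real.norm_of_nonneg (by positivity)]
    refine ⟨(((2 * ‖ort i D s‖)⁻¹ : ℝ) : ℂ) • s, ?_, ?_⟩
    · rw [ort_smul, norm_smul, e]
      field_simp
    · rw [map_smul, norm_smul, e, inv_mul_le_iff₀ (by positivity)]
      have : 2 * ‖ort i D s‖ * (1 / 2 * (1 / ((j : ℝ) + 1))) = ‖ort i D s‖ / (j + 1) := by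
        field_simp
      rw [this, le_div_iff₀ p]
      linarith
  choose s s1 s2 using key
  have one : ∀ j : ℕ, 1 / ((j : ℝ) + 1) ≤ 1 := fun j => by
    rw [div_le_one (by positivity)]
    linarith [(Nat.cast_nonneg j : (0 : ℝ) ≤ j)]
  choose r r1 r2 using fun j : ℕ =>
    near i D ws (s j) (1 / 2 * (1 / ((j : ℝ) + 1))) (by positivity)
  have r3 : ∀ j : ℕ, ‖D (r j)‖ ≤ 1 * (1 / ((j : ℝ) + 1)) := fun j => by
    linarith [norm_sub_norm_le (D (r j)) (D (s j)), r2 j, s2 j]
  have r4 : ∀ j, i (r j) ∈ closure (i '' {s | ‖s‖ ≤ 1 ∧ ‖D s‖ ≤ 1}) := fun j =>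
    subset_closure ⟨r j, ⟨by
      linarith [norm_sub_norm_le (i (r j)) (ort i D (s j)), r1 j, s1 j, one j, i.norm_map (r j)],
      by linarith [r3 j, one j]⟩, rfl⟩
  obtain ⟨a, -, φ, hφ, ha⟩ := (tb.closure.isCompact_of_isClosed isClosed_closure).tendsto_subseq r4
  have l1 : Tendsto (fun j => ort i D (s (φ j))) atTop (𝓝 a) := by
    have := ha.sub ((tendsto_zero_iff_norm_tendsto_zero.2
      (lim0 (fun _ => norm_nonneg _) _ fun j => (r1 j).le)).comp hφ.tendsto_atTop)
    simpa [Function.comp_def] using this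
  have a1 : a ∈ (ker i D)ᗮ := (ker i D).isClosed_orthogonal.mem_of_tendsto l1
    (Eventually.of_forall fun j => (ker i D).sub_starProjection_mem_orthogonal _)
  have a2 : a ∈ ker i D := (mem_ker i D).2 fun t => by
    refine tendsto_nhds_unique (ha.inner (tendsto_const_nhds (x := i (D t)))) ?_
    have := ((tendsto_zero_iff_norm_tendsto_zero.2 (lim0 (fun _ => norm_nonneg _) _ r3)).comp
      hφ.tendsto_atTop).inner (𝕜 := ℂ) (tendsto_const_nhds (x := t))
    simpa [Function.comp_def, sk, i.inner_map_map] using this.neg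
  have a3 : ‖a‖ = 1 / 2 := tendsto_nhds_unique l1.norm (by simp only [s1]; exact tendsto_const_nhds)
  rw [inner_self_eq_zero.1 (Submodule.inner_right_of_mem_orthogonal a2 a1), norm_zero] at a3
  norm_num at a3

theorem main (sk : ∀ a b, inner ℂ a (D b) = -inner ℂ (D a) b)
    (tb : TotallyBounded (i '' {s | ‖s‖ ≤ 1 ∧ ‖D s‖ ≤ 1})) (α : C) (hα : i α ∈ (ker i D)ᗮ) :
    ∃ b : ℕ → C, CauchySeq b ∧ Tendsto (fun j => ‖D (b j) - α‖) atTop (𝓝 0) := by
  obtain ⟨c, hc⟩ := poin i D ws sk tb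
  rw [Submodule.orthogonal_orthogonal_eq_closure] at hα
  obtain ⟨x, x1, x2⟩ := mem_closure_iff_seq_limit.1 hα
  choose s hs using x1
  have s1 : Tendsto (fun j => D (s j)) atTop (𝓝 α) := by
    rw [i.isometry.isUniformInducing.isInducing.tendsto_nhds_iff]
    exact x2.congr fun j => (hs j).symm
  choose r r1 r2 using fun j : ℕ => near i D ws (s j) (1 * (1 / ((j : ℝ) + 1))) (by positivity)
  have c1 : CauchySeq fun j => ort i D (s j) := by
    rw [cauchySeq_iff_tendsto_dist_atTop_0]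
    have := (cauchySeq_iff_tendsto_dist_atTop_0.1 s1.cauchySeq).const_mul c
    rw [mul_zero] at this
    refine squeeze_zero (fun _ => dist_nonneg) (fun p => ?_) this
    rw [dist_eq_norm, dist_eq_norm, ← ort_sub, ← map_sub]
    exact hc _
  refine ⟨r, ?_, ?_⟩
  · have := c1.add (tendsto_zero_iff_norm_tendsto_zero.2
      (lim0 (fun _ => norm_nonneg _) _ fun j => (r1 j).le)).cauchySeq
    rw [cauchySeq_iff_tendsto_dist_atTop_0] at this ⊢
    simpa [i.dist_map] using this
  · rw [← tendsto_iff_norm_sub_tendsto_zero]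
    simpa using s1.add (tendsto_zero_iff_norm_tendsto_zero.2
      (lim0 (fun _ => norm_nonneg _) _ fun j => (r2 j).le))

end RED

theorem kRED : St_RED := by
  intro C _ _ P Q h1 h2 ws tb α hα
  let i : C →ₗᵢ[ℂ] UniformSpace.Completion C := UniformSpace.Completion.toComplₗᵢ
  have h3 : ∀ a b, inner ℂ a (Q b) = -inner ℂ (P a) b := fun a b => by
    rw [← inner_conj_symm, h1, map_neg, inner_conj_symm]
  have py : ∀ a b : C, inner ℂ a b = 0 → ‖a‖ ≤ ‖a + b‖ := fun a b h => by
    have := norm_add_sq_eq_norm_sq_add_norm_sq_of_inner_eq_zero (𝕜 := ℂ) a b h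
    exact (mul_self_le_mul_self_iff (norm_nonneg _) (norm_nonneg _)).2
      (by linarith [mul_self_nonneg ‖b‖])
  have den : ∀ u : UniformSpace.Completion C, (∀ s, inner ℂ u (i (Q s)) = 0) →
      inner ℂ u (i α) = 0 := fun u hu => by
    have : α ∈ closure (range Q) := Metric.mem_closure_iff.2 fun η h => by
      obtain ⟨s, hs⟩ := hα η h
      exact ⟨_, ⟨s, rfl⟩, by rwa [dist_eq_norm]⟩
    refine closure_minimal (t := {a | inner ℂ u (i a) = 0}) ?_ (isClosed_eq ?_ continuous_const) this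
    · rintro _ ⟨s, rfl⟩
      exact hu s
    · exact continuous_const.inner i.continuous
  have w : ∀ u ∈ RED.ker i (Q + P), ∀ η : ℝ, 0 < η → ∃ s, ‖u - i s‖ < η ∧ ‖(Q + P) s‖ < η :=
    fun u hu η h => by
      obtain ⟨s, s1, s2⟩ := ws u 0 (fun s => by
        rw [inner_zero_left]
        exact (RED.mem_ker i _).1 hu s) η h
      exact ⟨s, s1, by rwa [zero_add, UniformSpace.Completion.norm_coe] at s2⟩
  obtain ⟨b, b1, b2⟩ := RED.main i (Q + P) w (fun a b => by
    rw [LinearMap.add_apply, LinearMap.add_apply, inner_add_left, inner_add_right, h1, h3]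
    ring) tb α ((Submodule.mem_orthogonal _ _).2 fun u hu => den u fun s => by
      choose t t1 t2 using fun j : ℕ => w u hu (1 * (1 / ((j : ℝ) + 1))) (by positivity)
      have l1 : Tendsto (fun j => i (t j)) atTop (𝓝 u) := tendsto_iff_norm_sub_tendsto_zero.2
        (RED.lim0 (fun _ => norm_nonneg _) _ fun j => by
          rw [norm_sub_rev]
          exact (t1 j).le)
      have l2 : Tendsto (fun j => P (t j)) atTop (𝓝 0) := tendsto_zero_iff_norm_tendsto_zero.2
        (RED.lim0 (fun _ => norm_nonneg _) _ fun j => ((py _ (Q (t j)) (by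
          rw [← inner_conj_symm, h2, map_zero])).trans_eq (by rw [add_comm]; rfl)).trans (t2 j).le)
      refine tendsto_nhds_unique (l1.inner (tendsto_const_nhds (x := i (Q s)))) ?_
      simpa [i.inner_map_map, h3] using (l2.inner (𝕜 := ℂ) (tendsto_const_nhds (x := s))).neg)
  refine ⟨b, b1, squeeze_zero (fun _ => norm_nonneg _) (fun j => ?_) b2⟩
  have e : inner ℂ (P (b j)) α = 0 := by
    rw [← i.inner_map_map]
    exact den _ fun s => by rw [i.inner_map_map, ← inner_conj_symm, h2, map_zero]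
  refine (py _ (P (b j)) ?_).trans_eq (by rw [LinearMap.add_apply, add_sub_right_comm])
  rw [inner_sub_left, h2, ← inner_conj_symm, e, map_zero, sub_zero]

end Pool.Agent.Lib.KS
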