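import Pool.Agent.Lib.KS.B_MVS

/-! Project ks: the interface with the twist, and the two theorems from the trunk. -/

open scoped Classical Topology ContDiff ComplexOrder Matrix Manifold
open Set MeasureTheory Filter

set_option linter.unusedVariables false

noncomputable section

namespace Pool.Agent.Lib.KS

open Pool.Agent.Lib.SV (E Pluri)
open Pool.Agent.Lib.HS (Mat)
open Pool.Agent.Lib.HS32 hiding Mat
open Pool.Agent.Lib.HLK Pool.Agent.Lib.K3S Pool.Agent.Lib.GH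

/-- Many holomorphic multivectors with values in `K + a L`. -/
def Mv2 {n : ℕ} {M : Mf n} {I : Type} [Fintype I] (D : Dk M I) (d : ℕ) : Prop :=
  ∃ C : ℕ, {a : ℕ | ∃ (k : ℕ) (V : Fin k → M.Fam (Fs n → ℂ)), (a + 1) ^ d ≤ C * k ∧ Ind V ∧
    ∀ s, Hol (V s) ∧ M.Ov fun e e' x => (M.J e e' x).det ^ (a * D.c + 1) • V s e (e x) =
      (∏ k, (D.L k).c e e' x ^ (a * D.a k)) • La (M.J e e' x) *ᵥ V s e' (e' x)}.Infinite

/-- The trunk: the Kodaira dimension. -/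
def St_TK2 : Prop := ∀ (n : ℕ) (M : Mf n) [M.Cpt] (I : Type) [Fintype I] (D : Dk M I) (d : ℕ),
  Mv2 D d → Neg D → ∃ C : ℕ, {m : ℕ | ∃ (k : ℕ) (t : Fin k → M.Fam ℂ), (m + 1) ^ d ≤ C * k ∧
    Ind t ∧ ∀ s, Sc D m 0 (t s)}.Infinite

/-- The trunk: semi-ampleness. -/
def St_TG2 : Prop := ∀ (n : ℕ) (M : Mf n) [M.Cpt] (I : Type) [Fintype I] (D : Dk M I) (d : ℕ),
  Mv2 D d → Nu D d → Neg D → ∃ m, 0 < m ∧ ∀ x, ∃ s, Sc D m 0 s ∧ M.ev s x ≠ 0

/-- The Kodaira dimension; `c K = L + ∑ e k D k`. -/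
def St_KK2 : Prop := ∀ (n : ℕ) (X ι I : Type) [TopologicalSpace X] [ChartedSpace (E n) X]
  [IsManifold 𝓘(ℂ, E n) ω X] [CompactSpace X] [T2Space X] [ConnectedSpace X] [Fintype I]
  (G β : X → Mat n) (U : ι → Set X) (f : I → ι → X → ℂ) (u : I → ι → ι → X → ℂ) (c : ℕ)
  (e : I → ℕ) (q d C : ℕ), 0 < n → Kaehler G → Semi n G β → Ctr n β U f u → Amp U u β f → 0 < c →
  NefW n G β U u (fun k => -(e k / c)) →
  {a : ℕ | (a + 1) ^ d ≤ C * hq n U u (a * c + 1) (fun k => -(a * e k)) q}.Infinite →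
  ∃ C' : ℕ, {m : ℕ | ∃ (k : ℕ) (s : Fin k → X → ℂ), (m + 1) ^ d ≤ C' * k ∧
    LinearIndependent ℂ s ∧ ∀ j, s j ∈ Pluri n X m}.Infinite

/-- The multivectors. -/
def St_MV2 : Prop := ∀ (n : ℕ) (X ι I : Type) [TopologicalSpace X] [ChartedSpace (E n) X]
  [IsManifold 𝓘(ℂ, E n) ω X] [CompactSpace X] [T2Space X] [ConnectedSpace X] [Fintype I]
  (G β : X → Mat n) (U : ι → Set X) (f : I → ι → X → ℂ) (u : I → ι → ι → X → ℂ) (c : ℕ)
  (a : I → ℕ) (h : Cv n U u) (i : _) (D : _) (q d C : ℕ), Org h G β f c a i D →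
  {b : ℕ | (b + 1) ^ d ≤ C * hq n U u (b * c + 1) (fun k => -(b * a k)) q}.Infinite → Mv2 D d

theorem kMV2 (hDIC : St_DIC) (hLWH : St_LWH) (hZE : ZE.St_ZE) (hDT : St_DT)
    (hKAN : K3E.St_KAN) : St_MV2 := by
  intro n X ι I _ _ _ _ _ _ _ G β U f u c a h i D q d C o hq
  have : h.M.Cpt := ⟨‹_›, ‹_›, ‹_›⟩
  obtain ⟨L, φ, A, ψ, -, -, -, t4, t5, t6⟩ := KBO.tower hKAN D
  refine ⟨C, (hq.sdiff (finite_lt_nat 1)).mono fun b hb => ?_⟩
  have b1 : 1 ≤ b := Nat.le_of_not_lt hb.2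
  obtain ⟨l1, l2⟩ := hLWH n _ D.H (L b) (φ b) D.kae (t4 b).wl
  obtain ⟨A, a1, a2⟩ := (hDIC n X ι I U u h i (b * c + 1) (fun k => -(b * a k)) (L b)
    ⟨o.sub, fun e he e' he' x hx hx' => by
      have h4 : ∏ k, (D.L k).c e e' x ^ (b * D.a k) ≠ 0 :=
        Finset.prod_ne_zero_iff.2 fun k _ => pow_ne_zero _ ((D.L k).ne e he e' he' x hx hx')
      beta_reduce
      rw [← o.c, ← t6 b e he e' he' x hx hx', mul_assoc]
      simp only [← o.L, ← o.a, zpow_neg, ← Nat.cast_mul, zpow_natCast, Finset.prod_inv_distrib]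
      rw [mul_inv_cancel₀ h4, mul_one]⟩ l1).1 q
  obtain ⟨V, v1, v2⟩ := l2 D.pos (MVS.zw hZE hDT D
    (Nat.cast_pos.2 (Nat.mul_pos b1 D.c0)) (t5 b)) _ A a1 a2
  refine ⟨_, V, hb.1, v1, fun s => ⟨(v2 s).2, fun e he e' he' x hx hx' => ?_⟩⟩
  have h3 := (L b).ne e he e' he' x hx hx'
  beta_reduce at h3 ⊢
  rw [← t6 b e he e' he' x hx hx', (v2 s).1.cmp e he e' he' x hx hx']
  simp only [lam, Matrix.smul_mulVec, smul_smul]
  rw [mul_right_comm, mul_inv_cancel₀ h3, one_mul]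

theorem sc_mul (hSG : St_SG) {n : ℕ} {M : Mf n} [M.Cpt] {I : Type} [Fintype I] (D : Dk M I)
    {m k : ℕ} {t : Fin k → M.Fam ℂ} (i : Ind t) (h : ∀ s, Sc D m 0 (t s)) :
    ∃ t' : Fin k → M.Fam ℂ, Ind t' ∧ ∀ s, M.HSec (m * D.c) (t' s) := by
  have dn : Dense (⋂ k, {x | M.nrC (D.φ k) (D.f k) x ≠ 0}) := dense_iInter_of_isOpen
    (fun k => isOpen_ne_fun (MS.sg hSG D k).1.sm.continuous continuous_const)
    fun k => (MS.sg hSG D k).2.1
  have sm : ∀ s, M.All fun e z => ContDiffAt ℝ ∞ (t s e) z := fun s e he z hz =>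
    ((mHOL n _ _).2.2 ((h s).hol e he z hz)).1
  refine ⟨fun s e z => t s e z * ∏ k, D.f k e z ^ (m * D.a k),
    fun c hc => i c fun e he z hz => by_contra fun h => ?_, fun s => ⟨⟨fun e he z hz =>
      (sm s e he z hz).mul (contDiffAt_prod fun i _ => ((D.hol i).sm e he z hz).pow _),
      fun e he e' he' x hx hx' => ?_⟩, fun e he z hz => ((h s).hol e he z hz).self_of_nhds.mul
      (HasFDerivAt.finsetProd fun i _ =>
        (((D.hol i).hol e he z hz).fun_pow _).hasFDerivAt).differentiableAt⟩⟩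
  · have o : IsOpen {x | x ∈ e.source ∧ ∑ s, c s • t s e (e x) ≠ 0} :=
      isOpen_iff_mem_nhds.2 fun x hx => by
        filter_upwards [e.open_source.mem_nhds hx.1, (ContinuousAt.comp (f := e)
          (ContDiffAt.sum fun s _ => (sm s e he _ (e.map_source hx.1)).const_smul
            (c s)).continuousAt (e.continuousAt hx.1)).eventually_ne hx.2] with y h1 h2
          using ⟨h1, h2⟩
    obtain ⟨x, x1, x2⟩ := dn.inter_open_nonempty _ o
      ⟨e.symm z, e.map_target hz, by rwa [e.right_inv hz]⟩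
    have := hc e he _ (e.map_source x1.1)
    simp only [← smul_mul_assoc, ← Finset.sum_mul] at this
    refine mul_ne_zero x1.2 (Finset.prod_ne_zero_iff.2 fun k _ => pow_ne_zero _ ?_) this
    have := mem_iInter.1 x2 k
    rwa [mem_ofPred_eq, Mf.nrC_ne, (D.hol k).toSecC.ne_iff he x1.1] at this
  · have h1 := (h s).cmp e he e' he' x hx hx'
    have h2 := fun i => (D.hol i).cmp e he e' he' x hx hx'
    simp only [Pi.zero_apply, pow_zero, Finset.prod_const_one, mul_one] at h1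
    beta_reduce at h2 ⊢
    simp only [h2, mul_pow, Finset.prod_mul_distrib]
    linear_combination (∏ k, D.f k e (e x) ^ (m * D.a k)) * h1

theorem kk2 (hT : St_TK2) (hB : St_BR0) (hM : St_MV2) (hP : St_PLU) (hAMP : St_AMP)
    (hNEG : St_NEG) (hSG : St_SG) : St_KK2 := by
  intro n X ι I _ _ _ _ _ _ _ G β U f u c e q d C hn hG hβ hC hA hc hN hq
  obtain ⟨h, i, D, o⟩ := hB n X ι I G β U f u c e hn hG hβ hC hc hN
  have : h.M.Cpt := ⟨‹_›, ‹_›, ‹_›⟩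
  obtain ⟨C', h'⟩ := hT n _ I D d (hM n X ι I G β U f u c e h i D q d C o hq)
    (hNEG n _ I D (hAMP n X ι I G β U f u c e h i D o hA))
  have inj : Function.Injective fun m : ℕ => m * D.c := fun _ _ h =>
    Nat.eq_of_mul_eq_mul_right D.c0 h
  refine ⟨D.c ^ d * C', (h'.image inj.injOn).mono ?_⟩
  rintro _ ⟨m, ⟨k, t, t1, t2, t3⟩, rfl⟩
  obtain ⟨t', t4, t5⟩ := sc_mul hSG D t2 t3
  obtain ⟨s, s1, s2⟩ := hP n X ι I U u h _ k t' t4 t5
  refine ⟨k, s, ?_, s1, s2⟩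
  rw [mul_assoc]
  refine le_trans ?_ (Nat.mul_le_mul_left _ t1)
  rw [← mul_pow]
  exact Nat.pow_le_pow_left (by nlinarith [D.c0]) d

theorem kg2 (hT : St_TG2) (hB : St_BR0) (hM : St_MV2) (hNU : St_NU) (hAMP : St_AMP)
    (hNEG : St_NEG) (hDIC : St_DIC) (hLWH : St_LWH) (hKAN : K3E.St_KAN) : St_KG := by
  intro n X ι I _ _ _ _ _ _ _ G β U f u c e q d C hn hG hβ hC hA hc hN hν hq
  obtain ⟨h, i, D, o⟩ := hB n X ι I G β U f u c e hn hG hβ hC hc hN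
  have : h.M.Cpt := ⟨‹_›, ‹_›, ‹_›⟩
  obtain ⟨m, m0, hm⟩ := hT n _ I D d (hM n X ι I G β U f u c e h i D q d C o hq)
    (hNU n X ι I G β U f u c e h i D d o hν)
    (hNEG n _ I D (hAMP n X ι I G β U f u c e h i D o hA))
  obtain ⟨P, χ, p1, p2, -⟩ := TW.prd D.wt (fun k => m * D.a k) Finset.univ
  have w := TW.wmu (hKAN n _ D.H (m * D.c) D.kae.toMet).1 (TW.wiv p1)
  have dic := (hDIC n X ι I U u h i (m * c) (fun k => -(m * e k)) _
    ⟨o.sub, fun e he e' he' x hx hx' => by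
      simp only [TW.sm2, TW.iv, K3E.kan, K3E.triv, Mf.Co.tw, p2, mul_one, ← o.L, ← o.a, ← o.c,
        zpow_neg, ← Nat.cast_mul, zpow_natCast, Finset.prod_inv_distrib]⟩
    (hLWH n _ D.H _ _ D.kae w).1).2
  refine ⟨m, m0, fun j x hx => ?_⟩
  obtain ⟨t, t1, t2⟩ := hm x
  obtain ⟨s, s1, s2⟩ := dic t ⟨⟨fun e he z hz => ((mHOL n _ _).2.2 (t1.hol e he z hz)).1,
    fun e he e' he' y hy hy' => by
      have h1 := t1.cmp e he e' he' y hy hy'
      have h2 := P.ne e he e' he' y hy hy'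
      simp only [Pi.zero_apply, pow_zero, Finset.prod_const_one, mul_one, ← p2] at h1
      simp only [TW.sm2, TW.iv, K3E.kan, K3E.triv, Mf.Co.tw, mul_one]
      rw [← mul_assoc, ← h1, mul_inv_cancel_right₀ h2]⟩,
    fun e he z hz => (t1.hol e he z hz).self_of_nhds⟩
  exact ⟨s, s1, fun c => t2 ((s2 j x hx).1 c)⟩

end Pool.Agent.Lib.KS
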