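import Pool.Agent.Lib.K3S.All
import Pool.Agent.Lib.KS.Blue2
import Pool.Agent.Lib.KS.B_BR0
import Pool.Agent.Lib.KS.B_CHP
import Pool.Agent.Lib.KS.B_CUT
import Pool.Agent.Lib.KS.B_DI0
import Pool.Agent.Lib.KS.B_DI1
import Pool.Agent.Lib.KS.B_DI2
import Pool.Agent.Lib.KS.B_DIC
import Pool.Agent.Lib.KS.B_EXA
import Pool.Agent.Lib.KS.B_HLS
import Pool.Agent.Lib.KS.B_KEY
import Pool.Agent.Lib.KS.B_LIM
import Pool.Agent.Lib.KS.B_LOC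
import Pool.Agent.Lib.KS.B_LOW
import Pool.Agent.Lib.KS.B_LWH
import Pool.Agent.Lib.KS.B_MV
import Pool.Agent.Lib.KS.B_RAI
import Pool.Agent.Lib.KS.B_RED

/-! Project ks: the Dolbeault rows without hypotheses. -/

namespace Pool.Agent.Lib.KS

open HLK

theorem aLOW : St_LOW := kLOW aFK1 aFK2 aFK3

theorem aDIC : St_DIC := kDIC (kDI1 kRAI) (kDI2 kDI0 (kDI1 kRAI) kRAI) kRAI

theorem aLWH : St_LWH :=
  kLWH (kHLS aLAM aSQ aSP aADJ aSKW aGB aCU aBOC aWS aDNS aNEAR aVL)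
    (kEXA kRED kMV (kCUT aSQ aZER) (kCHP kLOC2 kLIM aLOW kRAI) aLAM aSQ aSP aADJ aSKW aWS aDNS aREL
      IDX.st_INJ) aLOW kRAI aSQ

theorem aBR0 : St_BR0 := kBR0 kKEY

theorem aMV2 : St_MV2 := kMV2 aDIC aLWH ZE.ze2 K3S.aDT K3E.bKAN

end Pool.Agent.Lib.KS
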