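import Pool.Agent.Lib.KS.Blue3
import Pool.Agent.Lib.KS.B_AMP

/-! Row AM3: the exceptional part of a pair on the manifold layer. -/

open scoped Classical Topology ContDiff ComplexOrder Matrix Manifold
open Set Complex Filter

noncomputable section

namespace Pool.Agent.Lib.KS

open Pool.Agent.Lib.SV (E)
open Pool.Agent.Lib.HS32 Pool.Agent.Lib.KP.T6
open Pool.Agent.Lib.HS.BBR (mf)
open Pool.Agent.Lib.RB.R32 (fam)

theorem kAM3 (hKEY : St_KEY) : St_AM3 := by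
  intro n X ι I J _ _ _ _ _ G β U f₁ u f v c p e h i D o hE hA
  obtain ⟨h1, w, φ, C, w0, gl, h2⟩ := hA
  have hc : ∀ x : X, chartAt (E n) x ∈ (mf n X).C := HW.ch_mem
  obtain ⟨r, r1, r2, r3, r4⟩ : ∃ r : X → OpenPartialHomeomorph X (E n), (∀ x, r x ∈ h.M.C) ∧
      (∀ x, x ∈ (r x).source) ∧ (∀ x, (r x : X → E n) = chartAt (E n) x) ∧
      ∀ x, ((r x).symm : E n → X) = (chartAt (E n) x).symm := by
    choose r r1 r2 r3 r4 using fun x : X =>
      restr (mf n X) (U := U) h.opn h.cov (hc x) (mem_chart_source (E n) x)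
    exact ⟨r, r1, r2, r3, r4⟩
  have e0 : ∀ x : X, D.β (r x) (r x x) = β x := fun x => by
    have h0 : jm (chartAt (E n) x ∘ (chartAt (E n) x).symm) (chartAt (E n) x x) = 1 :=
      (mTR n (mf n X)).2.2.1 _ (hc x) x (mem_chart_source (M := X) (E n) x)
    rw [o.β]
    change (jm (chartAt (E n) ((r x).symm (r x x)) ∘ (r x).symm) (r x x))ᴴ *
      β ((r x).symm (r x x)) * jm (chartAt (E n) ((r x).symm (r x x)) ∘ (r x).symm) (r x x) = _
    rw [(r x).left_inv (r2 x), r3, r4, h0, Matrix.conjTranspose_one, Matrix.one_mul, Matrix.mul_one]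
  have ef : ∀ k (x : X), D.f (.inr k) (r x) = f k (i (r x)) ∘ (r x).symm := fun k x =>
    funext fun z => o.f (.inr k) (r x) z
  have e1 : ∀ k (x : X), D.f (.inr k) (r x) (r x x) = f k (i (r x)) x := fun k x =>
    (o.f (.inr k) (r x) _).trans (congrArg (f k _) ((r x).left_inv (r2 x)))
  have e2 : ∀ k (x : X), fderiv ℂ (D.f (.inr k) (r x)) (r x x) = EX.dAt n (f k (i (r x))) x :=
    fun k x => by rw [ef, EX.dAt, r3, r4]
  have nl : ∀ k, ¬0 < D.a (.inl k) := fun k => by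
    rw [o.a]
    exact not_lt.2 (neg_nonpos.2 (Int.natCast_nonneg _))
  have pr : ∀ k, 0 < D.a (.inr k) := fun k => by
    rw [o.a]
    exact (Int.natCast_pos.2 (Nat.pos_of_ne_zero fun h0 => by
      simpa [h0] using hE.pos k)).trans_eq (neg_neg _).symm
  refine ⟨?_, ?_, ?_⟩
  · rintro (k | k) hk (x : X)
    · exact (nl k hk).elim
    refine ⟨r x, r1 x, r2 x, fun a1 => ?_⟩
    have : EX.dAt n (f k (i (r x))) x ≠ 0 ∧
        ∃ y ≠ 0, EX.dAt n (f k (i (r x))) x y = 0 ∧ β x *ᵥ y = 0 :=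
      hE.deg k _ x (o.is.sub _ (r1 x) (r2 x)) ((e1 k x).symm.trans a1)
    rwa [← e2, ← e0] at this
  · rintro (j | j) (k | k) hj hk jk (x : X)
    · exact (nl j hj).elim
    · exact (nl j hj).elim
    · exact (nl k hk).elim
    refine ⟨r x, r1 x, r2 x, fun a1 a2 => ?_⟩
    have := h1 j k _ (fun h0 => jk (congrArg _ h0)) x (o.is.sub _ (r1 x) (r2 x))
      ((e1 j x).symm.trans a1) ((e1 k x).symm.trans a2)
    rwa [← e2, ← e2] at this
  obtain ⟨W, W1, W2⟩ : ∃ W : I ⊕ J → ℕ, (∀ k, W (.inl k) = 0) ∧ ∀ k, W (.inr k) = w k :=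
    ⟨Sum.elim 0 w, fun _ => rfl, fun _ => rfl⟩
  obtain ⟨g, sg, hg⟩ := hKEY n X ι _ U _ h i D.Lk D.φk (W ·) φ o.is.sub o.L D.wt
    (fun a b x hx => by simpa [W1, W2] using gl a b x hx) fun j x hx => (h2 j x hx).1
  have cB := AMP.clo_sum (fun k => (D.wt k).clo) (fun k => (W k : ℝ)) Finset.univ
  have cT : h.M.Clo fun e z => C • D.β e z -
      (∑ k, (W k : ℝ) • h.M.hw (D.φk k) e z + h.M.hs g e z) :=
    ((D.cβ.smul C).sub (cB.add ((mHES n h.M).1 g sg))).congr fun _ _ _ _ => rfl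
  refine ⟨W, g, C, ?_, sg, ?_⟩
  · rintro (k | k)
    · exact iff_of_false (W1 k).not_gt (nl k)
    · exact iff_of_true (W2 k ▸ w0 k) (pr k)
  refine AMP.pd_ctr cT.toForm fun (x : X) => ⟨r x, r1 x, r2 x, fun y hy => ?_⟩
  obtain ⟨j, hj⟩ := h.cov x
  obtain ⟨s1, s2⟩ := hg _ (r1 x) j _ ((r x).map_source (r2 x)) (by rwa [(r x).left_inv (r2 x)])
  have h3 := (h2 j x hj).2 y hy
  rw [← r3, ← r4, HW.levi_eq s1] at h3
  have h4 := (congrArg (nq · y) s2).symm.trans_lt h3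
  change 0 < nq (C • D.β (r x) (r x x) - _) y
  rw [e0, nq, Matrix.sub_mulVec, dotProduct_sub, sub_re, Matrix.smul_mulVec, dotProduct_smul,
    smul_re, smul_eq_mul]
  exact sub_pos.2 h4

end Pool.Agent.Lib.KS
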