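import Pool.Agent.Lib.KS.Blue3
import Pool.Agent.Lib.KS.B_KEY
import Pool.Agent.Lib.K3S.B_TW
import Pool.Agent.Lib.K3E.B_KAN
import Pool.Agent.Lib.ZE.O_TOP
import Pool.Agent.Lib.ZE.O_MNC
import Pool.Agent.Lib.ZE.O_BGF
import Pool.Agent.Lib.ZE.O_KL2
import Pool.Agent.Lib.ZE.O_SGC
import Pool.Agent.Lib.ZE.O_SGK

/-! Row BR3: from the data of the statement for pairs to the data on the manifold layer. -/

open scoped Classical Topology ContDiff ComplexOrder Matrix ENNReal Manifold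
open Set MeasureTheory Complex Metric Filter

noncomputable section

namespace Pool.Agent.Lib.KS

open Pool.Agent.Lib.SV (E)
open Pool.Agent.Lib.HS32 Pool.Agent.Lib.HS.BBR Pool.Agent.Lib.RB.R32 Pool.Agent.Lib.KP.T6
open Pool.Agent.Lib.HS (inChart)
open Pool.Agent.Lib.GH (Kaehler)
open Pool.Agent.Lib.ZE (BigForm NefW)
open Pool.Agent.Lib.ZK47.Br
open Pool.Agent.Lib.K3S.TW

namespace BR3

variable {n : ℕ}

theorem bun {M : Mf n} {H : M.Fam (Mat n)} (hH : M.Met H) {I : Type} [Fintype I] {L : I → M.Co}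
    {φ : I → M.Fam ℝ} (h : ∀ k, M.WtC (L k) (φ k)) (c : ℕ) (a : I → ℤ) :
    ∃ (P : M.Co) (χ : M.Fam ℝ), M.WtC P χ ∧
      (M.Ov fun e e' x => P.c e e' x = (M.J e e' x).det ^ c * ∏ k, (L k).c e e' x ^ a k) ∧
      M.All fun e z => M.hw χ e z = ∑ k, (a k : ℝ) • M.hw (φ k) e z - (c : ℝ) • M.ric H e z := by
  obtain ⟨P, χ, p1, p2, p3⟩ := prd h (fun k => (a k).toNat) Finset.univ
  obtain ⟨Q, ξ, q1, q2, q3⟩ := prd h (fun k => (-a k).toNat) Finset.univ
  obtain ⟨k1, k2⟩ := K3E.bKAN n M H c hH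
  refine ⟨_, _, wmu k1 (wmu p1 (wiv q1)), fun e he e' he' x hx hx' => ?_, fun e he z hz => ?_⟩
  · simp only [sm2, iv, K3E.kan, K3E.triv, Mf.Co.tw, p2, q2, mul_one, ← Finset.prod_inv_distrib,
      ← Finset.prod_mul_distrib]
    refine congrArg _ (Finset.prod_congr rfl fun k _ => ?_)
    rw [← zpow_natCast, ← zpow_natCast, ← zpow_neg,
      ← zpow_add₀ ((L k).ne e he e' he' x hx hx'), ← sub_eq_add_neg, Int.toNat_sub_toNat_neg]
  · beta_reduce
    rw [Mf.hw_add (k1.sm e he z hz) ((wmu p1 (wiv q1)).sm e he z hz),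
      Mf.hw_add (p1.sm e he z hz) ((wiv q1).sm e he z hz), Mf.hw_smul _ (q1.sm e he z hz),
      k2 e he z hz, p3 e he z hz, q3 e he z hz, neg_one_smul, ← sub_eq_add_neg,
      ← Finset.sum_sub_distrib, neg_add_eq_sub]
    refine congrArg (· - _) (Finset.sum_congr rfl fun k _ => ?_)
    rw [← sub_smul, ← Int.cast_natCast, ← Int.cast_natCast (-a k).toNat, ← Int.cast_sub,
      Int.toNat_sub_toNat_neg]

theorem core {X ι I : Type} [TopologicalSpace X] [ChartedSpace (E n) X]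
    [IsManifold 𝓘(ℂ, E n) ω X]
    [CompactSpace X] [T2Space X] [ConnectedSpace X] [Fintype I] {G w : X → Mat n} {U : ι → Set X}
    {f : I → ι → X → ℂ} {u : I → ι → ι → X → ℂ} {a : I → ℤ} {d : ℕ} {c : ℝ} (hn : 0 < n)
    (d0 : 0 < d) (hG : Kaehler G)
    (hw : BigForm n w) (opn : ∀ i, IsOpen (U i)) (cov : ∀ x, ∃ i, x ∈ U i)
    (hol : ∀ k i, ∀ x ∈ U i, KP.HolAt n 0 (f k i) x)
    (unit : ∀ k i j, ∀ x ∈ U i ∩ U j,
      KP.HolAt n 0 (u k i j) x ∧ u k i j x ≠ 0 ∧ f k i x = u k i j x * f k j x)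
    (nf : ∀ k j, ∀ x ∈ U j, ∃ᶠ y in 𝓝 x, f k j y ≠ 0) (c1 : 1 < c)
    (c2 : ∀ i, ∀ x ∈ U i, ∃ W ∈ 𝓝 (chartAt (E n) x x),
      ∫⁻ z in W, ∏ k, ‖f k i ((chartAt (E n) x).symm z)‖ₑ ^ (-2 * (c * max (a k / d : ℝ) 0)) < ⊤)
    (deg : ∀ k, (a k / d : ℝ) < 0 → ∀ i, ∀ x ∈ U i, f k i x = 0 →
      fderiv ℂ (f k i ∘ (chartAt (E n) x).symm) (chartAt (E n) x x) ≠ 0 ∧ ∃ y ≠ 0,
        fderiv ℂ (f k i ∘ (chartAt (E n) x).symm) (chartAt (E n) x x) y = 0 ∧ w x *ᵥ y = 0)
    (hN : NefW n G w U u fun k => a k / d) :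
    ∃ (h : Cv n U u) (i : _) (D : _), Org3 h G w f d a i D := by
  set b : I → ℝ := fun k => a k / d with hb
  have h : Cv n U u := ⟨opn, cov, fun k i j x hx => ⟨(unit k i j x hx).1, (unit k i j x hx).2.1⟩,
    fun k a b d x => coc opn (unit k) (nf k) a b d x⟩
  let M : Mf n := h.M
  have cpt : M.Cpt := ⟨‹_›, ‹_›, ‹_›⟩
  have hc : ∀ x : X, chartAt (E n) x ∈ (mf n X).C := HW.ch_mem
  obtain ⟨r, r1, r2, r3, r4⟩ : ∃ r : X → OpenPartialHomeomorph X (E n), (∀ x, r x ∈ M.C) ∧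
      (∀ x, x ∈ (r x).source) ∧ (∀ x, (r x : X → E n) = chartAt (E n) x) ∧
      ∀ x, ((r x).symm : E n → X) = (chartAt (E n) x).symm := by
    choose r r1 r2 r3 r4 using fun x : X =>
      restr (mf n X) (U := U) opn cov (hc x) (mem_chart_source (E n) x)
    exact ⟨r, r1, r2, r3, r4⟩
  have hι : ∀ e : OpenPartialHomeomorph X (E n), ∃ i, e ∈ M.C → e.source ⊆ U i := fun e => by
    by_cases he : e ∈ M.C
    · exact he.2.imp fun _ hi _ => hi
    · obtain ⟨x⟩ : Nonempty X := inferInstance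
      exact (cov x).imp fun _ _ h => absurd h he
  choose i hi using hι
  choose L L1 L2 using fun k => ex_co opn cov hi (hol k) (unit k)
    (coc opn (unit k) (nf k))
  choose φ hφ using fun k => KP.st_WT n M (L k)
  have g1 := HW.kae hG
  let H : M.Fam (Mat n) := fam (X := X) G
  have kH : M.Kae H := ⟨⟨⟨⟨fun e he => g1.sm e he.1, fun e he e' he' => g1.cmp e he.1 e' he'.1⟩,
    fun e he => g1.herm e he.1⟩, fun e he => g1.cl e he.1⟩, fun e he => g1.pos e he.1⟩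
  have fr' : ∀ (h : X → Mat n) (x : X), fam h (r x) = inChart h x := fun h x => by
    funext z
    change (jm (chartAt (E n) ((r x).symm z) ∘ (r x).symm) z)ᴴ * h ((r x).symm z) *
      jm (chartAt (E n) ((r x).symm z) ∘ (r x).symm) z = _
    rw [r4]
    rfl
  have fr : ∀ x, H (r x) = inChart G x := fr' G
  obtain ⟨w1, w2, w3⟩ := ZE.oBGF n X w hw
  let β : M.Fam (Mat n) := fam (X := X) w
  have cβ : M.Clo β := ⟨⟨⟨fun e he => w1.sm e he.1, fun e he e' he' => w1.cmp e he.1 e' he'.1⟩,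
    fun e he => w1.herm e he.1⟩, fun e he => w1.cl e he.1⟩
  have nβ : M.Le 0 β := fun e he => w2 e he.1
  have e0 : ∀ x : X, β (r x) (r x x) = w x := fun x => by
    refine Eq.trans ?_ (w3 x)
    change fam w (r x) (r x x) = _
    rw [fr', r3]
    rfl
  let B : M.Fam (Mat n) := fun e z => ∑ k, b k • M.hw (φ k) e z
  have cB : M.Clo B := by
    have : ∀ s : Finset I, M.Clo fun e z => ∑ k ∈ s, b k • M.hw (φ k) e z := fun s => by
      induction s using Finset.induction_on with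
      | empty => exact Mf.clo_zero.congr fun _ _ _ _ => by simp
      | insert a s ha ih =>
        exact (((hφ a).clo.smul (b a)).add ih).congr fun _ _ _ _ => by
          simp only [Finset.sum_insert ha, Pi.add_apply, Pi.smul_apply]
    exact this _
  have sl : ∀ e ∈ M.C, ∀ z ∈ e.target, ContDiffAt ℝ ∞ (fun w => Real.log (H e w).det.re) z :=
    fun e he z hz => ((mCOF n _ _ (kH.sm e he z hz)).2.2.2.2.2 (Mf.AllOn.ev kH.pos he hz)).2.1
  have cR := (mHES n M).2.2.2.2.2.2.2.2.1 _ kH.toMet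
  have nw : ∀ ε > (0 : ℝ), ∃ (ψ : M.X → ℝ) (C : ℝ), 0 ≤ C ∧ M.Sm ψ ∧
      M.Le 0 (B - M.ric H + ε • β + M.hs ψ) ∧ M.Le (B - M.ric H + ε • β + M.hs ψ) (C • β) := by
    intro ε hε
    obtain ⟨p, C, p1, p2⟩ := hN ε hε
    obtain ⟨g, sg, hg⟩ := kKEY n X ι I U u h i L φ b p hi L1 hφ p1 fun j x hx => (p2 j x hx).1
    have hf : M.Clo (B - M.ric H + ε • β + M.hs g) :=
      ((cB.sub cR).add (cβ.smul ε)).add ((mHES n M).1 g sg)
    have ctr : ∀ (x : X) (y : E n), 0 ≤ nq ((B - M.ric H + ε • β + M.hs g) (r x) (r x x)) y ∧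
        nq ((B - M.ric H + ε • β + M.hs g) (r x) (r x x)) y ≤ (C + ε) * nq (w x) y := fun x y => by
      have hz := (r x).map_source (r2 x)
      obtain ⟨j, hj⟩ := cov x
      obtain ⟨s1, s2⟩ := hg _ (r1 x) j _ hz (by rwa [(r x).left_inv (r2 x)])
      have h1 := (p2 j x hj).2 y
      rw [← fr, ← r3, ← r4] at h1
      have h3 : hess (fun w => ((p j ((r x).symm w) + Real.log (H (r x) w).det.re : ℝ) : ℂ))
          (r x x) = B (r x) (r x x) + M.hs g (r x) (r x x) - M.ric H (r x) (r x x) := by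
        simp only [ofReal_add]
        refine (hess_add (cd_ofReal s1) (cd_ofReal (sl _ (r1 x) _ hz))).trans ?_
        rw [Mf.ric, sub_neg_eq_add, ← s2]
        rfl
      have h4 := (HW.levi_eq (s1.add (sl _ (r1 x) _ hz)) y).trans (congrArg (nq · y) h3)
      have h5 : (B - M.ric H + ε • β + M.hs g) (r x) (r x x) =
          ε • w x + (B (r x) (r x x) + M.hs g (r x) (r x x) - M.ric H (r x) (r x x)) := by
        simp only [Pi.add_apply, Pi.sub_apply, Pi.smul_apply, e0]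
        abel
      have h7 := h1.1.trans_eq h4
      have h8 := h4.symm.trans_le h1.2
      rw [nq] at h7 h8
      rw [h5, nq, nq, Matrix.add_mulVec, dotProduct_add, add_re, Matrix.smul_mulVec,
        dotProduct_smul, smul_re, smul_eq_mul]
      constructor <;> linarith
    refine ⟨g, max C 0 + ε, by positivity, sg,
      ZE.TOP.le_ctr hf.toForm fun x => ⟨r x, r1 x, r2 x, fun y => (ctr x y).1⟩,
      Mf.le_iff_sub.2 (ZE.TOP.le_ctr ((cβ.toForm.smul _).sub hf.toForm) fun x =>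
        ⟨r x, r1 x, r2 x, fun y => ?_⟩)⟩
    have h1 := (ctr x y).2
    have h2 : 0 ≤ nq (w x) y := (Complex.nonneg_iff.1 ((hw.nonneg x).dotProduct_mulVec_nonneg y)).1
    have h3 := mul_le_mul_of_nonneg_right (add_le_add_left (le_max_left C 0) ε) h2
    change 0 ≤ nq ((max C 0 + ε) • β (r x) (r x x) -
      (B - M.ric H + ε • β + M.hs g) (r x) (r x x)) y
    rw [e0, nq, Matrix.sub_mulVec,
      dotProduct_sub, sub_re, Matrix.smul_mulVec, dotProduct_smul, smul_re, smul_eq_mul]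
    rw [nq, nq] at h1
    rw [nq] at h3
    linarith
  have sg := fun k => ZE.oSGC n M (L k) _ (φ k) (L2 k) (hφ k) (by
    obtain ⟨x⟩ : Nonempty X := inferInstance
    obtain ⟨j, hj⟩ := cov x
    obtain ⟨y, y1, y2⟩ := ((nf k j x hj).and_eventually ((opn j).mem_nhds hj)).exists
    have y3 := unit k _ j y ⟨hi _ (Mf.ch_mem (M := M) y) (Mf.mem_ch (M := M) y), y2⟩
    refine ⟨y, mul_ne_zero (normSq_pos.2 ?_).ne' (Real.exp_pos _).ne'⟩
    change f k (i (M.ch y)) ((M.ch y).symm (M.ch y y)) ≠ 0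
    rw [Mf.ch_symm, y3.2.2]
    exact mul_ne_zero y3.2.1 y1)
  have hg := ZK47.REG.glob (β := fun k => c * max (b k) 0) kH.toMet (fun k => (L2 k).toSecC) hφ
    fun x : X => ⟨r x, r1 x, r2 x, by
      have := c2 _ x (hi _ (r1 x) (r2 x))
      rw [← r3, ← r4] at this
      exact this⟩
  obtain ⟨x₀, hx₀⟩ := hw.big
  obtain ⟨P, χ, p1, p2, p3⟩ := bun kH.toMet hφ d a
  have d1 : (d : ℝ) ≠ 0 := Nat.cast_ne_zero.2 d0.ne'
  refine ⟨h, i, {
      H := H, T := B - M.ric H, β := β, Θ := fun k => M.hw (φ k), σ := fun k => M.nrC (φ k) _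
      κ := fun k => -b k, pos := hn, kae := kH, cT := cB.sub cR, cβ := cβ, nβ := nβ
      vol := DM.KL.vol_pos kH.toMet cβ.toForm nβ (r1 x₀) ((r x₀).map_source (r2 x₀))
        ((e0 x₀).symm ▸ hx₀)
      sg := fun k => ZE.oSGK n M _ _ (sg k).1
      adj := fun e _ z _ => by
        simp only [B, Pi.sub_apply, neg_smul, Finset.sum_neg_distrib]
        abel
      ort := fun k hk => (sg k).2 H β kH cβ nβ fun x : X => ⟨r x, r1 x, r2 x, fun h0 => by
        have := deg k (neg_pos.1 hk) _ x (hi _ (r1 x) (r2 x))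
          ((congrArg (f k (i (r x))) ((r x).left_inv (r2 x))).symm.trans h0)
        rw [← r3, ← r4, ← e0] at this
        exact this⟩
      nef := nw
      klt := ZE.oKL2 n M I H _ _ _ c kH.toMet (fun k => (sg k).1) c1
        (by simpa only [neg_neg] using hg)
      Lk := L, f := _, φk := φ, hol := L2, wt := hφ, hσ := fun _ => rfl, hΘ := fun _ => rfl
      c := d, c0 := d0, a := fun k => -a k
      hκ := fun k => by rw [hb, neg_mul, div_mul_cancel₀ _ d1, Int.cast_neg]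
      L := P, φ := χ, wL := p1
      cur := fun e he z hz => (p3 e he z hz).trans (by
        simp only [B, hb, Pi.sub_apply, smul_sub, Finset.smul_sum, smul_smul,
          mul_div_cancel₀ _ d1]) },
    ⟨hi, fun e he e' he' x hx hx' => (p2 e he e' he' x hx hx').trans (congrArg _
      (Finset.prod_congr rfl fun k _ => congrArg (· ^ a k) (L1 k e e' x)))⟩,
    rfl, rfl, rfl, fun _ => rfl, L1, fun _ _ _ => rfl⟩

end BR3

theorem kBR3 : St_BR3 := by
  intro n X ι I J _ _ _ _ _ _ _ _ G w U f u g v d p e hn hG hw d0 hK hE hN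
  obtain ⟨c, c1, c2⟩ := hK.lct
  have a1 : ∀ k, ((cf p e (.inl k) : ℤ) / d : ℝ) = p k / d := fun k => by simp [cf]
  have a2 : ∀ k, ((cf p e (.inr k) : ℤ) / d : ℝ) = -(e k / d) := fun k => by simp [cf, neg_div]
  refine BR3.core (f := Sum.elim f g) hn d0 hG hw hK.opn hK.cov
    (Sum.forall.2 ⟨hK.hol, hE.hol⟩) (Sum.forall.2 ⟨hK.unit, hE.unit⟩)
    (Sum.forall.2 ⟨fun k j x hx => ?_,
      fun k j x hx => ZE.TOP.frq_of fun h => (hE.deg k j x hx h).1⟩) c1 (fun i x hx => ?_)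
    (Sum.forall.2 ⟨fun k hk => absurd (a1 k ▸ hk) (hK.pos k).not_gt, fun k _ => hE.deg k⟩) hN
  · obtain ⟨_, a, a'⟩ := c2 j x hx
    exact frq (v := fun k => f k j) (fun k => mul_pos (one_pos.trans c1) (hK.pos k)) a a' k
  · obtain ⟨W, w1, w2⟩ := c2 i x hx
    refine ⟨W, w1, lt_of_eq_of_lt (lintegral_congr fun z => ?_) w2⟩
    have h1 : ∀ k, max (p k / d : ℝ) 0 = p k / d := fun k => max_eq_left (hK.pos k).le
    have h2 : ∀ k, max (-(e k / d) : ℝ) 0 = 0 := fun k =>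
      max_eq_right (neg_nonpos.2 (hE.pos k).le)
    simp only [Fintype.prod_sum_type, Sum.elim_inl, Sum.elim_inr, a1, a2, h1, h2, mul_zero,
      ENNReal.rpow_zero, Finset.prod_const_one, mul_one]

end Pool.Agent.Lib.KS
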