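import Pool.Agent.Lib.KS.Blue3
import Pool.Agent.Lib.KX.Blue

/-! Row GL3: from the context of the trunk to the sections of the multiples of `L`. -/

open scoped Classical Topology ContDiff ComplexOrder Matrix
open Set MeasureTheory Filter

noncomputable section

namespace Pool.Agent.Lib.KS

open Pool.Agent.Lib.HS32 Pool.Agent.Lib.HS32.Mf
open Pool.Agent.Lib.KU (Tk Gro St_K5 St_K6)

namespace GL3

variable {n : ℕ} {M : Mf n} {L : M.Co} {m j d c : ℕ}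

theorem pw {t : M.Fam ℂ} (h : M.HSecC ((L.pw m).pw j) t) : M.HSecC (L.pw (j * m)) t :=
  ⟨⟨h.sm, fun e he e' he' x hx hx' => by
    simpa only [Co.pw, ← pow_mul, mul_comm m] using h.cmp e he e' he' x hx hx'⟩, h.hol⟩

theorem gk [M.Cpt] (hK : St_K6) (X : Tk M) (m0 : 0 < m) (hL : X.Λ = L.pw m)
    (h : Gro X.p X.T 1 c d) : ∃ C : ℕ, {m : ℕ | ∃ (k : ℕ) (t : Fin k → M.Fam ℂ),
      (m + 1) ^ d ≤ C * k ∧ Ind t ∧ ∀ s, M.HSecC (L.pw m) (t s)}.Infinite := by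
  obtain ⟨C, h⟩ := hK n M X c d h
  have inj : Function.Injective fun j : ℕ => j * m := fun _ _ h => Nat.eq_of_mul_eq_mul_right m0 h
  refine ⟨m ^ d * C, (h.image inj.injOn).mono ?_⟩
  rintro _ ⟨j, ⟨k, g, g1, g2, g3⟩, rfl⟩
  choose t t1 t2 using fun s => X.sec j (g s) (one_mul j ▸ g3 s)
  refine ⟨k, t, ?_, fun a ha => g2 a fun x hx => ?_, fun s => pw (hL ▸ t1 s)⟩
  · rw [mul_assoc]
    refine le_trans ?_ (Nat.mul_le_mul_left _ g1)
    rw [← mul_pow]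
    exact Nat.pow_le_pow_left (by nlinarith) d
  · obtain ⟨c1, c2⟩ := (mTR n M).1 x
    have hz := (M.ch x).map_source c2
    have e := (M.ch x).left_inv c2
    have h1 := fun s => t2 s _ c1 _ hz (e.symm ▸ hx)
    have h2 := ha _ c1 _ hz
    simp only [h1, e, smul_eq_mul, ← mul_assoc, ← Finset.sum_mul] at h2
    exact (mul_eq_zero.1 h2).resolve_right (pow_ne_zero _ (X.hτ _ c1 _ hz (e.symm ▸ hx)).2)

theorem gg [M.Cpt] (hK : St_K5) (X : Tk M) (m0 : 0 < m) (hL : X.Λ = L.pw m)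
    (h : Gro X.p X.T 1 c d) (hν : X.Nu d) :
    ∃ m, 0 < m ∧ ∀ x, ∃ t, M.HSecC (L.pw m) t ∧ M.ev t x ≠ 0 := by
  obtain ⟨j, j0, hj⟩ := hK n M X c d h hν
  exact ⟨j * m, Nat.mul_pos j0 m0, fun x => (hj x).imp fun t ht => ⟨pw (hL ▸ ht.1), ht.2⟩⟩

end GL3

theorem kTK3 (hT : KX.St_TK) (hK : St_K6) : St_TK3 := fun n M _ I _ D d h hN => by
  obtain ⟨X, m, m0, -, -, x3, x4⟩ := hT n M I D d h hN
  exact GL3.gk hK X m0 x3 x4

theorem kTG3 (hT : KX.St_TK) (hK : St_K5) : St_TG3 := fun n M _ I _ D d h hν hN => by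
  obtain ⟨X, m, m0, x1, x2, x3, x4⟩ := hT n M I D d h hN
  exact GL3.gg hK X m0 x3 x4 (by rwa [Tk.Nu, x1, x2])

end Pool.Agent.Lib.KS
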