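import Pool.Agent.Lib.KS.Blue3
import Pool.Agent.Lib.KS.B_DIC

/-! Rows MV3 and H0: multivectors and sections for pairs. -/

open scoped Classical Topology ContDiff ComplexOrder Matrix Manifold
open Set MeasureTheory Filter

noncomputable section

namespace Pool.Agent.Lib.KS

open Pool.Agent.Lib.SV (E)
open Pool.Agent.Lib.HS32 Pool.Agent.Lib.HS32.Mf Pool.Agent.Lib.HLK Pool.Agent.Lib.K3S.TW

theorem MV3.zw (hZE : ZE.St_ZE) {n : ℕ} {M : Mf n} {I : Type} [Fintype I] [M.Cpt] (D : ZE.Dt M I)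
    {φ : M.Fam ℝ} {c : ℝ} (hc : 0 < c)
    (t5 : M.All fun e z => M.hw φ e z + M.ric D.H e z = c • D.T e z) : Zw D.H φ := by
  obtain ⟨a, a1, -, a3⟩ := hZE n M I D
  obtain ⟨C, hC⟩ := a3 (2 * n * c) (by have := D.pos; positivity)
  refine ⟨C, fun δ hδ => ?_⟩
  have p : 0 < min 1 (δ / c) := lt_min one_pos (div_pos hδ hc)
  have q := a1 _ ⟨p, min_le_left _ _⟩
  refine ⟨c * min 1 (δ / c), ⟨mul_pos hc p, (le_div_iff₀' hc).1 (min_le_right _ _)⟩,
    fun x => c * a (min 1 (δ / c)) x, q.sm.const_mul c,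
    fun x => mul_nonpos_of_nonneg_of_nonpos hc.le (q.np x), fun e h z hz => ?_,
    by simpa only [mul_assoc] using hC _ ⟨p, min_le_left _ _⟩⟩
  have r := Mf.psd_rsmul (q.kae.pos e h z hz).posSemidef hc.le
  have s := ((mLAP n M _ _ q.sm q.sm).1 c e h z hz).2.2.2.1
  simp only [Pi.add_apply, Pi.smul_apply, Pi.zero_apply, sub_zero, t5 e h z hz, s,
    smul_add, smul_smul] at r ⊢
  rwa [add_right_comm]

theorem kMV3 (hDIC : St_DIC) (hLWH : St_LWH) (hZE : ZE.St_ZE) (hKAN : K3E.St_KAN) : St_MV3 := by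
  intro n X ι I _ _ _ _ _ _ _ G β U f u c b h i D q d C o hq
  have : h.M.Cpt := ⟨‹_›, ‹_›, ‹_›⟩
  refine ⟨C, (hq.sdiff (finite_lt_nat 1)).mono fun a ha => ?_⟩
  obtain ⟨k1, k2⟩ := hKAN n _ D.H 1 D.kae.toMet
  obtain ⟨p1, p2⟩ := D.wL.pw a
  obtain ⟨l1, l2⟩ := hLWH n _ D.H _ _ D.kae (wmu k1 p1)
  obtain ⟨A, a1, a2⟩ := (hDIC n X ι I U u h i (a * c + 1) (a * b ·) _
    ⟨o.is.sub, fun e he e' he' x hx hx' => by
      simp only [sm2, (o.is.pw a).eq e he e' he' x hx hx', K3E.kan, K3E.triv, Co.tw]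
      ring⟩ l1).1 q
  obtain ⟨V, v1, v2⟩ := l2 D.pos (MV3.zw hZE D.toDt (c := a * D.c)
    (by exact_mod_cast Nat.mul_pos (Nat.le_of_not_lt ha.2) D.c0) fun e he z hz => by
      beta_reduce
      rw [hw_add (k1.sm e he z hz) (p1.sm e he z hz), k2 e he z hz, p2 e he z hz, D.cur e he z hz,
        smul_smul]
      simp) _ A a1 a2
  refine ⟨_, V, ha.1, v1, fun s => ⟨(v2 s).2, fun e he e' he' x hx hx' => ?_⟩⟩
  have h3 := (sm2 (K3E.kan _ 1) (D.L.pw a)).ne e he e' he' x hx hx'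
  beta_reduce at h3 ⊢
  rw [(v2 s).1.cmp e he e' he' x hx hx']
  simp only [lam, Matrix.smul_mulVec, smul_smul, sm2, K3E.kan, K3E.triv, Co.tw, Co.pw, mul_one,
    pow_one] at h3 ⊢
  rw [mul_inv_cancel₀ h3, one_smul]

open DIC in
theorem kH0 (hDI1 : St_DI1) (hDI2 : St_DI2) (hRAI : St_RAI) : St_H0 := by
  intro n X ι I _ _ _ _ U u h i m p L hI hfq k t it ht
  have d1 := fun q => hDI1 n X ι I U u h i m p L q hI
  obtain ⟨-, -, -, r⟩ := hRAI n h.M L
  have z0 := fun q => ((d1 q).2.2 0 Fin.elim0 Fin.elim0)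
  simp only [Finset.univ_eq_empty, Finset.sum_empty] at z0
  choose s hs s1 using fun j => (d1 0).2.1 (fun e z => t j e z • (Pi.single ∅ 1 : Fs n → ℂ))
    ⟨fun e he z hz => ((ht j).sm e he z hz).smul contDiffAt_const, fun e he e' he' x hx hx' => by
      beta_reduce
      rw [Matrix.mulVec_smul, la_one, smul_smul, (ht j).cmp e he e' he' x hx hx', mul_comm]⟩
  simp only [pj_one] at s1
  refine ⟨s, Fintype.linearIndependent_iff.2 fun c hc => congrFun (it c fun e he z hz => ?_),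
    fun j => ⟨hs j, fun l x hx => funext fun v => ((hDI2 n X ι I U u h i m p L 0 hI hfq _ (hs j) 0
      ((z0 1).1 fun s => s.elim0)).2 (fun e he z hz => ((z0 1).2 e z).trans (Eq.symm ?_))
        l x hx v).symm⟩⟩
  · have := congrFun (((d1 0).2.2 k c s).2 e z) ∅
    rw [hc, (z0 0).2] at this
    simpa [Finset.sum_apply, s1 _ e he z hz] using this.symm
  · have o : ∀ᶠ w in 𝓝 z, w ∈ e.target := e.open_target.mem_nhds hz
    exact ((r z).2.1 _ _ (o.mono fun w hw => s1 j e he w hw)).trans (((r z).2.2.2.2 (t j e)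
      (fun _ => _) (o.mono fun w hw => (ht j).hol e he w hw) contDiffAt_const).trans
      (smul_eq_zero_of_right _ (fq_const _ z)))

end Pool.Agent.Lib.KS
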