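import Pool.Agent.Lib.KS.Blue3
import Pool.Agent.Lib.KS.B_NU

/-! Project ks, row NU3: the volume in the two languages, for pairs. -/

open scoped Classical Topology ContDiff ComplexOrder Matrix Manifold ENNReal NNReal
open Set MeasureTheory Complex Metric Filter

set_option linter.unusedVariables false

noncomputable section

namespace Pool.Agent.Lib.KS

open Pool.Agent.Lib.SV (E Cells)
open Pool.Agent.Lib.HS32 Pool.Agent.Lib.HS.BBR Pool.Agent.Lib.RB.R32 Pool.Agent.Lib.KP.T6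
open Pool.Agent.Lib.HS (inChart)
open Pool.Agent.Lib.GH (Hermitian)

theorem kNU3 (hKEY : St_KEY) : St_NU3 := by
  intro n X ι I _ _ _ _ _ _ _ G β U f u c b h i D d o ⟨φ, Θ, r₀, x, B, C, gl, ce, hs, hb⟩
  have cpt : h.M.Cpt := ⟨‹_›, ‹_›, ‹_›⟩
  have cp0 : (mf n X).Cpt := ⟨‹_›, ‹_›, ‹_›⟩
  have hc : ∀ x : X, chartAt (E n) x ∈ (mf n X).C := HW.ch_mem
  obtain ⟨r, r1, r2, r3, r4⟩ : ∃ r : X → OpenPartialHomeomorph X (E n), (∀ x, r x ∈ h.M.C) ∧
      (∀ x, x ∈ (r x).source) ∧ (∀ x, (r x : X → E n) = chartAt (E n) x) ∧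
      ∀ x, ((r x).symm : E n → X) = (chartAt (E n) x).symm := by
    choose r r1 r2 r3 r4 using fun x : X =>
      restr (mf n X) (U := U) h.opn h.cov (hc x) (mem_chart_source (E n) x)
    exact ⟨r, r1, r2, r3, r4⟩
  have kH := D.kae
  have fr : ∀ y, D.H (r y) = inChart G y := fun y => by
    funext z
    rw [o.H]
    change (jm (chartAt (E n) ((r y).symm z) ∘ (r y).symm) z)ᴴ * G ((r y).symm z) *
      jm (chartAt (E n) ((r y).symm z) ∘ (r y).symm) z = _
    rw [r4]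
    rfl
  have e0 : ∀ y : X, D.H (r y) (r y y) = G y := fun y => by
    have h0 : jm (chartAt (E n) y ∘ (chartAt (E n) y).symm) (chartAt (E n) y y) = 1 :=
      (mTR n (mf n X)).2.2.1 _ (hc y) y (mem_chart_source (M := X) (E n) y)
    rw [o.H]
    change (jm (chartAt (E n) ((r y).symm (r y y)) ∘ (r y).symm) (r y y))ᴴ *
      G ((r y).symm (r y y)) * jm (chartAt (E n) ((r y).symm (r y y)) ∘ (r y).symm) (r y y) = _
    rw [(r y).left_inv (r2 y), r3, r4, h0, Matrix.conjTranspose_one, Matrix.one_mul, Matrix.mul_one]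
  have hz : ∀ y, r y y ∈ (r y).target := fun y => (r y).map_source (r2 y)
  have hG : Hermitian G := ⟨fun y => e0 y ▸ kH.pos _ (r1 y) _ (hz y), fun y => by
    rw [← fr, ← r3]
    exact kH.sm _ (r1 y) _ (hz y)⟩
  have m0 := (fam_ok hG).1
  have em : h.M.mu D.H = (mf n X).mu (fam G) := BMU.uniq (mMU n h.M _ kH.toMet).1 fun e he => by
    rw [o.H]
    exact (mMU n _ _ m0).1 e he.1
  obtain ⟨g, sg, hg⟩ := hKEY n X ι I U u h i D.Lk D.φk _ φ o.is.sub o.L D.wt gl
    fun j y hy => (hs j y hy).1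
  have cT : h.M.Clo D.T := D.cT
  have hκ : ∀ k, (b k : ℝ) / c = -D.κ k := fun k => by
    have c0 : (c : ℝ) ≠ 0 := Nat.cast_ne_zero.2 (o.c ▸ D.c0).ne'
    have h1 := D.hκ k
    rw [o.a, o.c, Int.cast_neg] at h1
    rw [div_eq_iff c0, neg_mul, h1, neg_neg]
  have cg := (mHES n h.M).1 g sg
  have et : ∀ y : X, (D.T + h.M.hs g) (r y) (r y y) = Θ y := fun y => by
    obtain ⟨j, hj⟩ := h.cov y
    obtain ⟨s1, s2⟩ := hg _ (r1 y) j _ (hz y) (by rwa [(r y).left_inv (r2 y)])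
    have sl := ((mCOF n _ _ (kH.sm _ (r1 y) _ (hz y))).2.2.2.2.2
      (Mf.AllOn.ev kH.pos (r1 y) (hz y))).2.1
    refine NU.herm_eq ((cT.add cg).herm _ (r1 y) _ (hz y)) (hs j y hj).2.1 fun v => ?_
    have h1 := (hs j y hj).2.2 v
    rw [← fr, ← r3, ← r4] at h1
    refine Eq.trans (congrArg (nq · v) ?_) ((HW.levi_eq (s1.add sl) v).symm.trans h1)
    simp only [ofReal_add]
    refine Eq.trans ?_ (hess_add (cd_ofReal s1) (cd_ofReal sl)).symm
    refine Eq.trans ?_ (congrArg (· + _) s2.symm)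
    have ad := D.adj _ (r1 y) _ (hz y)
    simp only [D.hΘ, Mf.ric] at ad
    simp only [hκ, Pi.add_apply, neg_smul, Finset.sum_neg_distrib]
    rw [add_assoc, add_eq_zero_iff_eq_neg] at ad
    rw [ad, neg_add, neg_neg]
    exact add_right_comm _ _ _
  refine ⟨C, fun ε hε => le_of_eq_of_le ?_ (hb ε hε)⟩
  have c1 := cT.add (kH.toClo.smul ε)
  obtain ⟨-, -, i3, i4, -⟩ := (mINV n _ _ kH.toMet).1 _ (c1.add cg).toTen
  rw [← mCOH n h.M _ _ g kH.toMet c1 sg, em]
  refine (NU.cells (mf n X) m0 (fun k => chartAt (M := X) (E n) (x k)) B (fun k => hc _) ce.meas ce.sub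
    ce.part i4.continuous).trans (Finset.sum_congr rfl fun k _ => integral_congr_ae
      (ae_of_all _ fun z => ?_))
  obtain ⟨y, hy⟩ : ∃ y : X, (chartAt (E n) (x k)).symm z = y := ⟨_, rfl⟩
  have a1 : (D.T + ε • D.H + h.M.hs g) (r y) (r y y) = (Θ + ε • G) y := by
    rw [add_right_comm, Pi.add_apply, Pi.add_apply, et, Pi.smul_apply, Pi.smul_apply, e0]
    rfl
  have a3 : ((Θ + ε • G) y).IsHermitian := a1 ▸ (c1.add cg).herm _ (r1 y) _ (hz y)
  have a2 := ((i3.at (r1 y) (r2 y)).trans (congrArg₂ (fun S T : Mat n => (S.det / T.det).re) a1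
    (e0 y))).trans (BINV.re_div (hG.pos y).1 a3)
  change (inChart G (x k) z).det.re * h.M.dq D.H _ ((chartAt (E n) (x k)).symm z) = _
  simp only [inChart, BMU.det_chg, hy]
  rw [a2, mul_assoc, mul_div_cancel₀ _ (Mf.pd_det_re (hG.pos y)).ne']

end Pool.Agent.Lib.KS
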