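import Pool.Agent.Lib.KS.All
import Pool.Agent.Lib.KS.B_AM3
import Pool.Agent.Lib.KS.B_BR3
import Pool.Agent.Lib.KS.B_GL3
import Pool.Agent.Lib.KS.B_MV3
import Pool.Agent.Lib.KS.B_NU3

/-! Project ks: the two theorems for pairs from the trunk. -/

namespace Pool.Agent.Lib.KS

theorem aMV3 : St_MV3 := kMV3 aDIC aLWH ZE.ze2 K3E.bKAN

theorem aH0 : St_H0 := kH0 (kDI1 kRAI) (kDI2 kDI0 (kDI1 kRAI) kRAI) kRAI

theorem pk (hT : KX.St_TK) (hK : KU.St_K6) : St_PK :=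
  pk3 (kTK3 hT hK) kBR3 (kAM3 kKEY) aMV3 aH0 aLWH

theorem pg (hT : KX.St_TK) (hK : KU.St_K5) : St_PG :=
  pg3 (kTG3 hT hK) kBR3 (kAM3 kKEY) aMV3 (kNU3 kKEY) aDIC aLWH

end Pool.Agent.Lib.KS
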