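import Pool.Agent.Lib.KS.Blue
import Pool.Agent.Lib.HLK.B_FK1
import Pool.Agent.Lib.SV.Sub85

/-! Project ks: the local homotopy. -/

open scoped Classical Topology ContDiff Matrix ENNReal NNReal Real
open Set MeasureTheory Complex Metric Filter

set_option linter.unusedSectionVars false

noncomputable section

namespace Pool.Agent.Lib.KS

open Pool.Agent.Lib.SV (E nsq)
open Pool.Agent.Lib.HS32 Pool.Agent.Lib.HLK

namespace LOC

section abs

variable {P X V : Type} [TopologicalSpace P] [MeasurableSpace P] [OpensMeasurableSpace P]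
  [SecondCountableTopology P] [NormedAddCommGroup X] [NormedSpace ℝ X] [FiniteDimensional ℝ X]
  [NormedAddCommGroup V] [NormedSpace ℝ V] [CompleteSpace V] {μ : Measure P} [IsFiniteMeasure μ]
  {Kp : Set P} {A : P → V →L[ℝ] V} {s : P → X}

theorem itg {W : Type} [NormedAddCommGroup W] (hK : IsCompact Kp) (hμ : ∀ᵐ p ∂μ, p ∈ Kp)
    {g : P → W} (hg : Continuous g) : Integrable g μ := by
  obtain ⟨C, hC⟩ := hK.exists_bound_of_continuousOn hg.continuousOn
  exact Integrable.of_bound hg.aestronglyMeasurable C (hμ.mono hC)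

/-- An average of translates. -/
def T (μ : Measure P) (A : P → V →L[ℝ] V) (s : P → X) (f : X → V) (z : X) : V :=
  ∫ p, A p (f (z - s p)) ∂μ

theorem der (hK : IsCompact Kp) (hμ : ∀ᵐ p ∂μ, p ∈ Kp) (hA : Continuous A) (hs : Continuous s)
    {f : X → V} (hf : ContDiff ℝ ∞ f) (z : X) :
    HasFDerivAt (T μ A s f) (∫ p, (A p).comp (fderiv ℝ f (z - s p)) ∂μ) z := by
  have : ProperSpace X := FiniteDimensional.proper ℝ X
  have hc := hf.continuous
  have hd : Differentiable ℝ f := (contDiff_infty_iff_fderiv.1 hf).1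
  have hD : Continuous (fderiv ℝ f) := (contDiff_infty_iff_fderiv.1 hf).2.continuous
  have h1 : Continuous fun q : X × P => (A q.2).comp (fderiv ℝ f (q.1 - s q.2)) :=
    (hA.comp continuous_snd).clm_comp (hD.comp (continuous_fst.sub (hs.comp continuous_snd)))
  obtain ⟨C, hC⟩ := ((isCompact_closedBall z 1).prod hK).exists_bound_of_continuousOn
    h1.continuousOn
  have h2 : ∀ x, Continuous fun p => A p (f (x - s p)) := fun x =>
    hA.clm_apply (hc.comp (continuous_const.sub hs))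
  refine hasFDerivAt_integral_of_dominated_of_fderiv_le (F := fun x p => A p (f (x - s p)))
    (F' := fun x p => (A p).comp (fderiv ℝ f (x - s p))) (bound := fun _ => C)
    (closedBall_mem_nhds z one_pos) (Eventually.of_forall fun x => (h2 x).aestronglyMeasurable)
    (itg hK hμ (h2 z)) (h1.comp (Continuous.prodMk_right z)).aestronglyMeasurable
    (hμ.mono fun p hp x hx => hC (x, p) ⟨hx, hp⟩) (integrable_const C)
    (Eventually.of_forall fun p x _ => ?_)
  have h3 : HasFDerivAt (fun y => f (y - s p)) (fderiv ℝ f (x - s p)) x :=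
    by simpa [Function.comp_def] using
      (hd (x - s p)).hasFDerivAt.comp x ((hasFDerivAt_id x).sub_const (s p))
  exact (A p).hasFDerivAt.comp x h3

theorem smo (hK : IsCompact Kp) (hμ : ∀ᵐ p ∂μ, p ∈ Kp) (hA : Continuous A) (hs : Continuous s)
    {f : X → V} (hf : ContDiff ℝ ∞ f) : ContDiff ℝ ∞ (T μ A s f) := by
  have key : ∀ k : ℕ, ∀ f : X → V, ContDiff ℝ ∞ f → ContDiff ℝ k (T μ A s f) := by
    intro k
    induction k with
    | zero =>
      intro f hf
      exact contDiff_zero.2 (continuous_iff_continuousAt.2 fun z =>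
        (der hK hμ hA hs hf z).continuousAt)
    | succ k ih =>
      intro f hf
      have hD := (contDiff_infty_iff_fderiv.1 hf).2
      rw [Nat.cast_succ, contDiff_succ_iff_fderiv_apply]
      refine ⟨fun z => (der hK hμ hA hs hf z).differentiableAt, by simp, fun y => ?_⟩
      have e : (fun x => fderiv ℝ (T μ A s f) x y) = T μ A s fun w => fderiv ℝ f w y := by
        funext x
        have hc : Continuous fun p => (A p).comp (fderiv ℝ f (x - s p)) :=
          hA.clm_comp (hD.continuous.comp (continuous_const.sub hs))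
        rw [(der hK hμ hA hs hf x).fderiv, ContinuousLinearMap.integral_apply (itg hK hμ hc)]
        rfl
      rw [e]
      exact ih _ (hD.clm_apply contDiff_const)
  exact contDiff_infty.2 fun k => key k f hf

theorem cs {g : P → ℝ≥0∞} (hg : AEMeasurable g μ) :
    (∫⁻ p, g p ∂μ) ^ 2 ≤ μ univ * ∫⁻ p, g p ^ 2 ∂μ := by
  have h := ENNReal.lintegral_mul_le_Lp_mul_Lq μ Real.HolderConjugate.two_two
    (f := fun _ => 1) aemeasurable_const hg
  simp only [Pi.mul_apply, one_mul, one_pow, lintegral_const, ENNReal.rpow_two] at h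
  have e : ∀ a : ℝ≥0∞, (a ^ (1 / 2 : ℝ)) ^ 2 = a := fun a => by
    rw [← ENNReal.rpow_natCast, ← ENNReal.rpow_mul]
    norm_num
  refine (pow_le_pow_left' h 2).trans_eq ?_
  rw [mul_pow, e, e]

theorem bd [MeasurableSpace X] [BorelSpace X] (ν : Measure X) [ν.IsAddHaarMeasure]
    (hK : IsCompact Kp) (hμ : ∀ᵐ p ∂μ, p ∈ Kp) (hA : Continuous A) (hs : Continuous s) {r : ℝ}
    (hr : ∀ p ∈ Kp, ‖s p‖ ≤ r) : ∃ C : ℝ≥0, ∀ f : X → V, Continuous f → ∀ S, MeasurableSet S →
      ∫⁻ z in S, ‖T μ A s f z‖ₑ ^ 2 ∂ν ≤ C * ∫⁻ z in cthickening r S, ‖f z‖ₑ ^ 2 ∂ν := by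
  obtain ⟨B, hB⟩ := hK.exists_bound_of_continuousOn hA.continuousOn
  refine ⟨(μ univ).toNNReal * B.toNNReal ^ 2 * (μ univ).toNNReal, fun f hf S hS => ?_⟩
  have hm : Measurable fun q : X × P => ‖f (q.1 - s q.2)‖ₑ ^ 2 :=
    ((hf.comp (continuous_fst.sub (hs.comp continuous_snd))).enorm.measurable).pow_const 2
  have h1 : ∀ z, ‖T μ A s f z‖ₑ ^ 2 ≤
      μ univ * (B.toNNReal : ℝ≥0∞) ^ 2 * ∫⁻ p, ‖f (z - s p)‖ₑ ^ 2 ∂μ := by
    intro z
    have hc : Continuous fun p => A p (f (z - s p)) :=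
      hA.clm_apply (hf.comp (continuous_const.sub hs))
    refine (pow_le_pow_left' (enorm_integral_le_lintegral_enorm _) 2).trans
      ((cs hc.enorm.measurable.aemeasurable).trans ?_)
    rw [mul_assoc, ← lintegral_const_mul' _ _ (ENNReal.pow_ne_top ENNReal.coe_ne_top)]
    refine mul_le_mul_right (lintegral_mono_ae (hμ.mono fun p hp => ?_)) _
    rw [← mul_pow]
    refine pow_le_pow_left' ((A p).le_opENorm _ |>.trans (mul_le_mul_left ?_ _)) 2
    rw [← ofReal_norm]
    exact ENNReal.ofReal_le_ofReal (hB p hp)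
  have h2 : ∀ p ∈ Kp, ∫⁻ z in S, ‖f (z - s p)‖ₑ ^ 2 ∂ν ≤
      ∫⁻ z in cthickening r S, ‖f z‖ₑ ^ 2 ∂ν := by
    intro p hp
    rw [← lintegral_indicator hS, ← lintegral_indicator isClosed_cthickening.measurableSet,
      ← lintegral_sub_right_eq_self ((cthickening r S).indicator fun z => ‖f z‖ₑ ^ 2) (s p)]
    refine lintegral_mono fun z => ?_
    by_cases hz : z ∈ S
    · have : z - s p ∈ cthickening r S :=
        mem_cthickening_of_dist_le _ z r S hz (by simpa [dist_eq_norm] using hr p hp)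
      simp only [indicator_of_mem hz, indicator_of_mem this, le_refl]
    · simp only [indicator_of_notMem hz, zero_le]
  calc ∫⁻ z in S, ‖T μ A s f z‖ₑ ^ 2 ∂ν
      ≤ ∫⁻ z in S, μ univ * (B.toNNReal : ℝ≥0∞) ^ 2 * ∫⁻ p, ‖f (z - s p)‖ₑ ^ 2 ∂μ ∂ν :=
        lintegral_mono h1
    _ = μ univ * (B.toNNReal : ℝ≥0∞) ^ 2 * ∫⁻ p, ∫⁻ z in S, ‖f (z - s p)‖ₑ ^ 2 ∂ν ∂μ := by
        rw [lintegral_const_mul' _ _ (ENNReal.mul_ne_top (measure_ne_top _ _)
          (ENNReal.pow_ne_top ENNReal.coe_ne_top)), lintegral_lintegral_swap hm.aemeasurable]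
    _ ≤ μ univ * (B.toNNReal : ℝ≥0∞) ^ 2 *
          ∫⁻ _, ∫⁻ z in cthickening r S, ‖f z‖ₑ ^ 2 ∂ν ∂μ :=
        mul_le_mul_right (lintegral_mono_ae (hμ.mono h2)) _
    _ = _ := by
        rw [lintegral_const]
        simp only [ENNReal.coe_mul, ENNReal.coe_pow, ENNReal.coe_toNNReal (measure_ne_top μ univ)]
        ring

end abs

variable {n : ℕ}

/-- The closed ball with its volume. -/
def nu (n : ℕ) (r : ℝ) : Measure (E n) := volume.restrict (closedBall 0 r)

instance (r : ℝ) : IsFiniteMeasure (nu n r) :=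
  isFiniteMeasure_restrict.2 measure_closedBall_lt_top.ne

/-- The parameter measure. -/
def mu (n : ℕ) (r b : ℝ) : Measure (ℝ × E n) := (volume.restrict (Ioc 0 b)).prod (nu n r)

instance (r b : ℝ) : IsFiniteMeasure (mu n r b) := by
  unfold mu
  infer_instance

theorem nu_ae (r : ℝ) : ∀ᵐ x ∂nu n r, x ∈ closedBall (0 : E n) r :=
  ae_restrict_mem measurableSet_closedBall

theorem cpt (r b : ℝ) : IsCompact (Icc 0 b ×ˢ closedBall (0 : E n) r) :=
  isCompact_Icc.prod (isCompact_closedBall 0 r)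

theorem mu_ae (r b : ℝ) : ∀ᵐ p ∂mu n r b, p ∈ Icc 0 b ×ˢ closedBall (0 : E n) r := by
  rw [mu, nu, Measure.prod_restrict]
  exact (ae_restrict_mem (measurableSet_Ioc.prod measurableSet_closedBall)).mono
    fun p hp => ⟨Ioc_subset_Icc_self hp.1, hp.2⟩

section vec

variable {V : Type} [NormedAddCommGroup V] [NormedSpace ℝ V] [CompleteSpace V]

theorem ftc (r : ℝ) {b : ℝ} (hb : 0 ≤ b) {F : ℝ → E n → V} {F' : ℝ × E n → V} (hc : Continuous F')
    (hd : ∀ t x, HasDerivAt (fun t => F t x) (F' (t, x)) t) :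
    ∫ p, F' p ∂mu n r b = ∫ x, (F b x - F 0 x) ∂nu n r := by
  rw [mu, integral_prod_symm _ (itg (cpt r b) (mu_ae r b) hc)]
  refine integral_congr_ae (Eventually.of_forall fun x => ?_)
  beta_reduce
  rw [← intervalIntegral.integral_of_le hb]
  exact intervalIntegral.integral_eq_sub_of_hasDerivAt (fun t _ => hd t x)
    ((hc.comp (Continuous.prodMk_left x)).intervalIntegrable _ _)

theorem rot (r : ℝ) {u : ℂ} (hu : ‖u‖ = 1) {Φ : E n → V} (hc : Continuous Φ) :
    ∫ x, Φ (u • x) ∂nu n r = ∫ x, Φ x ∂nu n r := by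
  have h := (SV.H85.measurePreserving_smul (volume : Measure (E n)) hu).restrict_preimage
    (measurableSet_closedBall (x := (0 : E n)) (ε := r))
  have e : (fun x : E n => u • x) ⁻¹' closedBall 0 r = closedBall 0 r := by
    ext x
    simp [norm_smul, hu]
  rw [e] at h
  rw [nu, ← integral_map h.measurable.aemeasurable hc.aestronglyMeasurable, h.map_eq]

theorem rad (r : ℝ) {ρ : E n → ℝ} (hρ : Continuous ρ) {f : E n → V} (hf : ContDiff ℝ ∞ f)
    (z : E n) : ∫ p : ℝ × E n, ρ p.2 • fderiv ℝ f (z - p.1 • p.2) p.2 ∂mu n r 1 =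
      ∫ x, ρ x • (f z - f (z - x)) ∂nu n r := by
  have hd : Differentiable ℝ f := (contDiff_infty_iff_fderiv.1 hf).1
  have hD : Continuous (fderiv ℝ f) := (contDiff_infty_iff_fderiv.1 hf).2.continuous
  rw [ftc r zero_le_one (F := fun t x => -(ρ x • f (z - t • x))) (by fun_prop)]
  · refine integral_congr_ae (Eventually.of_forall fun x => ?_)
    simp only [one_smul, zero_smul, sub_zero, smul_sub]
    abel
  · intro t x
    have h1 : HasDerivAt (fun t : ℝ => z - t • x) (-x) t := by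
      simpa using ((hasDerivAt_id t).smul_const x).const_sub z
    have h2 := (((hd (z - t • x)).hasFDerivAt.comp_hasDerivAt t h1).const_smul (ρ x)).neg
    simp only [map_neg, smul_neg, neg_neg] at h2
    exact h2

theorem ang (r : ℝ) {ρ : E n → ℝ} (hρ : Continuous ρ)
    (hu : ∀ (u : ℂ) x, ‖u‖ = 1 → ρ (u • x) = ρ x) {f : E n → V} (hf : ContDiff ℝ ∞ f)
    (z : E n) : ∫ p : ℝ × E n, ρ p.2 • fderiv ℝ f (z - p.1 • p.2) (I • p.2) ∂mu n r 1 = 0 := by
  have hd : Differentiable ℝ f := (contDiff_infty_iff_fderiv.1 hf).1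
  have hD : Continuous (fderiv ℝ f) := (contDiff_infty_iff_fderiv.1 hf).2.continuous
  rw [mu, integral_prod _ (itg (cpt r 1) (mu_ae r 1) (by fun_prop))]
  refine setIntegral_eq_zero_of_forall_eq_zero fun R hR => ?_
  set Φ : E n → V := fun x => ρ x • fderiv ℝ f (z - R • x) (I • x) with hΦ
  have hΦc : Continuous Φ := by
    rw [hΦ]
    fun_prop
  have hcm : Continuous fun p : ℝ × E n => Φ (circleMap 0 1 p.1 • p.2) :=
    hΦc.comp (((continuous_circleMap 0 1).comp continuous_fst).smul continuous_snd)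
  have h1 := ftc r Real.two_pi_pos.le
    (F := fun t x => -(R⁻¹ • ρ x • f (z - R • circleMap 0 1 t • x))) hcm (by
      intro t x
      have h1 : HasDerivAt (fun t : ℝ => z - R • circleMap 0 1 t • x)
          (-(R • I • circleMap 0 1 t • x)) t := by
        have := (((hasDerivAt_circleMap 0 1 t).smul_const x).const_smul R).const_sub z
        rwa [mul_comm, mul_smul] at this
      have h2 := ((((hd _).hasFDerivAt.comp_hasDerivAt t h1).const_smul (ρ x)).const_smul R⁻¹).neg
      simp only [map_neg, smul_neg, neg_neg, map_smul] at h2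
      rw [smul_comm (ρ x) R, inv_smul_smul₀ hR.1.ne'] at h2
      simp only [hΦ, hu _ x (norm_circleMap_zero 1 t |>.trans abs_one)]
      exact h2)
  have e : circleMap 0 1 (2 * π) = circleMap 0 1 0 := by
    simpa using periodic_circleMap 0 1 0
  rw [e, mu, integral_prod _ (itg (cpt r _) (mu_ae r _) hcm)] at h1
  simp only [rot r (norm_circleMap_zero 1 _ |>.trans abs_one) hΦc, sub_self, integral_zero,
    integral_const] at h1
  refine (smul_eq_zero.1 h1).resolve_left ?_
  simp [Real.pi_pos.le, Real.pi_ne_zero]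

end vec

theorem bump (n : ℕ) {r : ℝ} (hr : 0 < r) : ∃ ρ : E n → ℝ, ContDiff ℝ ∞ ρ ∧
    (∀ x ∉ closedBall (0 : E n) r, ρ x = 0) ∧ (∀ (u : ℂ) x, ‖u‖ = 1 → ρ (u • x) = ρ x) ∧
    ∫ x, ρ x = 1 := by
  have h1 : ContDiff ℝ ∞ fun x : E n => expNegInvGlue (r ^ 2 - nsq x) := by
    refine expNegInvGlue.contDiff.comp (contDiff_const.sub (ContDiff.sum fun j _ => ?_))
    have hr := reCLM.contDiff.comp (contDiff_apply (n := ∞) ℝ ℂ j (ι := Fin n))
    have hi := imCLM.contDiff.comp (contDiff_apply (n := ∞) ℝ ℂ j (ι := Fin n))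
    exact (hr.mul hr).add (hi.mul hi)
  have h2 : ∀ x ∉ closedBall (0 : E n) r, expNegInvGlue (r ^ 2 - nsq x) = 0 := by
    intro x hx
    refine expNegInvGlue.zero_of_nonpos (not_lt.1 fun h => hx ?_)
    refine mem_closedBall_zero_iff.2 ((pi_norm_le_iff_of_nonneg hr.le).2 fun i => ?_)
    have h3 : normSq (x i) ≤ nsq x := Finset.single_le_sum (f := fun j => normSq (x j))
      (fun j _ => normSq_nonneg _) (Finset.mem_univ i)
    rw [Complex.normSq_eq_norm_sq] at h3
    exact (pow_le_pow_iff_left₀ (norm_nonneg _) hr.le two_ne_zero).1 (by linarith)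
  have h3 : 0 < ∫ x : E n, expNegInvGlue (r ^ 2 - nsq x) :=
    h1.continuous.integral_pos_of_hasCompactSupport_nonneg_nonzero
      (HasCompactSupport.intro (isCompact_closedBall 0 r) h2)
      (fun x => expNegInvGlue.nonneg _) (x := 0)
      (expNegInvGlue.pos_of_pos (by simpa [nsq] using pow_pos hr 2)).ne'
  refine ⟨fun x => (∫ x : E n, expNegInvGlue (r ^ 2 - nsq x))⁻¹ * expNegInvGlue (r ^ 2 - nsq x),
    contDiff_const.mul h1, fun x hx => by simp only [h2 x hx, mul_zero], fun u x hu => ?_, ?_⟩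
  · have : nsq (u • x) = nsq x := by
      simp [nsq, Complex.normSq_eq_norm_sq, hu]
    simp only [this]
  · rw [integral_const_mul, inv_mul_cancel₀ h3.ne']

/-- A matrix as a real linear map. -/
def cm (Y : Mx (Fs n)) : (Fs n → ℂ) →L[ℝ] (Fs n → ℂ) :=
  LinearMap.toContinuousLinearMap ((Matrix.mulVecLin Y).restrictScalars ℝ)

theorem cm_apply (Y : Mx (Fs n)) (v : Fs n → ℂ) : cm Y v = Y *ᵥ v := rfl

/-- The flat operator on the derivative. -/
def Lq (n : ℕ) : (E n →L[ℝ] (Fs n → ℂ)) →L[ℝ] (Fs n → ℂ) :=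
  ∑ l, (cm (cr l)).comp ((2 : ℂ)⁻¹ • (ContinuousLinearMap.apply ℝ (Fs n → ℂ) (Pi.single l 1) +
    I • ContinuousLinearMap.apply ℝ (Fs n → ℂ) (Pi.single l I)))

theorem Lq_apply (D : E n →L[ℝ] (Fs n → ℂ)) : Lq n D =
    ∑ l, cr l *ᵥ ((2 : ℂ)⁻¹ • (D (Pi.single l 1) + I • D (Pi.single l I))) := by
  rw [Lq, sum_apply]
  rfl

theorem fq_eq {f : E n → Fs n → ℂ} {z : E n} (h : DifferentiableAt ℝ f z) :
    fq f z = Lq n (fderiv ℝ f z) := by
  rw [Lq_apply, fq]
  refine Finset.sum_congr rfl fun l _ => congrArg _ (funext fun i => ?_)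
  simp only [dzbv, dzb, fderiv_apply h i, ContinuousLinearMap.comp_apply,
    ContinuousLinearMap.proj_apply, Pi.smul_apply, Pi.add_apply, smul_eq_mul]
  ring

/-- The weighted contraction. -/
def ct (c : ℝ) (x : E n) : (Fs n → ℂ) →L[ℝ] (Fs n → ℂ) :=
  ∑ l, (2 * (c : ℂ) * star (x l)) • cm (an l)

theorem ct_apply (c : ℝ) (x : E n) (v : Fs n → ℂ) :
    ct c x v = (∑ l, (2 * (c : ℂ) * star (x l)) • an l) *ᵥ v := by
  rw [ct, sum_apply, Matrix.sum_mulVec]
  refine Finset.sum_congr rfl fun l _ => ?_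
  rw [Matrix.smul_mulVec]
  rfl

theorem car (c : ℝ) (x : E n) (D : E n →L[ℝ] (Fs n → ℂ)) :
    Lq n ((ct c x).comp D) + ct c x (Lq n D) = c • D x + I • c • D (I • x) := by
  have hx : ∀ y : E n, D y =
      ∑ l, ((y l).re • D (Pi.single l 1) + (y l).im • D (Pi.single l I)) := by
    intro y
    simp only [← map_smul, ← map_add, ← map_sum]
    refine congrArg _ (funext fun i => ?_)
    simp [Finset.sum_apply, Pi.single_apply, Finset.sum_add_distrib]
  have hY : ∀ k, cr k * (∑ l, (2 * (c : ℂ) * star (x l)) • an l) +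
      (∑ l, (2 * (c : ℂ) * star (x l)) • an l) * cr k = (2 * (c : ℂ) * star (x k)) • 1 := by
    intro k
    rw [Finset.mul_sum, Finset.sum_mul, ← Finset.sum_add_distrib]
    have : ∀ l, cr k * (2 * (c : ℂ) * star (x l)) • an l + (2 * (c : ℂ) * star (x l)) • an l * cr k
        = if l = k then (2 * (c : ℂ) * star (x l)) • 1 else 0 := by
      intro l
      rw [Matrix.mul_smul, Matrix.smul_mul, ← smul_add, add_comm, ((st_FK1 n).1 l k).2.2]
      split_ifs <;> simp
    simp only [this, Finset.sum_ite_eq', Finset.mem_univ, if_true]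
  rw [Lq_apply, Lq_apply, map_sum, hx x, hx (I • x), Finset.smul_sum, Finset.smul_sum,
    Finset.smul_sum, ← Finset.sum_add_distrib, ← Finset.sum_add_distrib]
  refine Finset.sum_congr rfl fun l _ => ?_
  simp only [ContinuousLinearMap.comp_apply, ct_apply]
  rw [← Matrix.mulVec_smul, ← Matrix.mulVec_add, ← Matrix.mulVec_smul, Matrix.mulVec_mulVec,
    Matrix.mulVec_mulVec, ← Matrix.add_mulVec, hY, Matrix.smul_mulVec, Matrix.one_mulVec]
  funext i
  have e : star (x l) = (x l).re - (x l).im * I := by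
    apply Complex.ext <;> simp
  simp only [e, Pi.smul_apply, Pi.add_apply, smul_eq_mul, real_smul, mul_re, mul_im, I_re, I_im,
    zero_mul, one_mul, zero_sub, zero_add, ofReal_neg]
  linear_combination (-(c : ℂ) * (x l).im * D (Pi.single l I) i) * I_mul_I

end LOC

/-- The local homotopy. -/
def St_LOC2 : Prop := ∀ (n : ℕ) (r : ℝ), 0 < r →
  ∃ (K : (E n → Fs n → ℂ) → E n → Fs n → ℂ) (ρ : E n → ℝ) (C : ℝ≥0),
    ContDiff ℝ ∞ ρ ∧ HasCompactSupport ρ ∧
    (∀ f g, ContDiff ℝ ∞ f → ContDiff ℝ ∞ g → K (f - g) = K f - K g) ∧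
    ∀ f, ContDiff ℝ ∞ f → ContDiff ℝ ∞ (K f) ∧
      (∀ z, f z = (∫ x, ρ (z - x) • f x) + fq (K f) z + K (fq f) z) ∧
      ∀ S, MeasurableSet S → ∫⁻ z in S, ‖K f z‖ₑ ^ 2 ≤ C * ∫⁻ z in cthickening r S, ‖f z‖ₑ ^ 2

open LOC in
theorem kLOC2 : St_LOC2 := by
  intro n r hr
  obtain ⟨ρ, hρ, h0, hu, h1⟩ := bump n hr
  have hρc := hρ.continuous
  have hA : Continuous fun p : ℝ × E n => ct (ρ p.2) p.2 := by
    unfold ct
    fun_prop
  have hs : Continuous fun p : ℝ × E n => p.1 • p.2 := by fun_prop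
  have hK := cpt (n := n) r 1
  have hμ := mu_ae (n := n) r 1
  obtain ⟨C, hC⟩ := bd (volume : Measure (E n)) hK hμ hA hs (r := r) (by
    intro p hp
    rw [norm_smul, Real.norm_of_nonneg hp.1.1]
    exact (mul_le_of_le_one_left (norm_nonneg _) hp.1.2).trans (mem_closedBall_zero_iff.1 hp.2))
  refine ⟨T (mu n r 1) (fun p => ct (ρ p.2) p.2) (fun p => p.1 • p.2), ρ, C, hρ,
    HasCompactSupport.intro (isCompact_closedBall 0 r) h0, fun f g hf hg => ?_, fun f hf =>
    ⟨smo hK hμ hA hs hf, fun z => ?_, hC f hf.continuous⟩⟩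
  · funext z
    simp only [T, Pi.sub_apply, map_sub]
    exact integral_sub (itg hK hμ (hA.clm_apply (hf.continuous.comp (continuous_const.sub hs))))
      (itg hK hμ (hA.clm_apply (hg.continuous.comp (continuous_const.sub hs))))
  · have hd : Differentiable ℝ f := (contDiff_infty_iff_fderiv.1 hf).1
    have hD : Continuous fun p : ℝ × E n => fderiv ℝ f (z - p.1 • p.2) :=
      (contDiff_infty_iff_fderiv.1 hf).2.continuous.comp (continuous_const.sub hs)
    have hc := hf.continuous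
    have h2 := der hK hμ hA hs hf z
    have c1 : Continuous fun p : ℝ × E n => (ct (ρ p.2) p.2).comp (fderiv ℝ f (z - p.1 • p.2)) :=
      hA.clm_comp hD
    have c2 : Continuous fun p : ℝ × E n =>
        Lq n ((ct (ρ p.2) p.2).comp (fderiv ℝ f (z - p.1 • p.2))) := (Lq n).continuous.comp c1
    have c3 : Continuous fun p : ℝ × E n => ct (ρ p.2) p.2 (Lq n (fderiv ℝ f (z - p.1 • p.2))) :=
      hA.clm_apply ((Lq n).continuous.comp hD)
    have c4 : Continuous fun p : ℝ × E n => ρ p.2 • fderiv ℝ f (z - p.1 • p.2) p.2 :=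
      (hρc.comp continuous_snd).smul (hD.clm_apply continuous_snd)
    have c5 : Continuous fun p : ℝ × E n => I • ρ p.2 • fderiv ℝ f (z - p.1 • p.2) (I • p.2) :=
      ((hρc.comp continuous_snd).smul (hD.clm_apply (continuous_snd.const_smul I))).const_smul I
    have c6 : Continuous fun x : E n => ρ x • f z := hρc.smul continuous_const
    have c7 : Continuous fun x : E n => ρ x • f (z - x) :=
      hρc.smul (hc.comp (continuous_const.sub continuous_id))
    have e1 : ∫ x, ρ x • f z ∂nu n r = f z := by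
      rw [nu, setIntegral_eq_integral_of_forall_compl_eq_zero fun x hx => by
        rw [h0 x hx, zero_smul], integral_smul_const, h1, one_smul]
    have e2 : ∫ x, ρ x • f (z - x) ∂nu n r = ∫ x, ρ (z - x) • f x := by
      rw [nu, setIntegral_eq_integral_of_forall_compl_eq_zero fun x hx => by
        rw [h0 x hx, zero_smul], ← integral_sub_left_eq_self (fun x => ρ (z - x) • f x) volume z]
      simp only [sub_sub_cancel]
    rw [add_assoc, fq_eq h2.differentiableAt, h2.fderiv, ← (Lq n).integral_comp_comm (itg hK hμ c1)]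
    simp only [T, fun w => fq_eq (hd w)]
    rw [← integral_add (itg hK hμ c2) (itg hK hμ c3)]
    simp only [car]
    rw [integral_add (itg hK hμ c4) (itg hK hμ c5), integral_smul, ang r hρc hu hf z,
      rad r hρc hf z]
    simp only [smul_sub]
    rw [integral_sub (itg (isCompact_closedBall 0 r) (nu_ae r) c6)
      (itg (isCompact_closedBall 0 r) (nu_ae r) c7), e1, e2, smul_zero]
    abel

end Pool.Agent.Lib.KS
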