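import Pool.Agent.Lib.KS.Blue

/-! Row MVS: the multivectors. -/

open scoped Classical Topology ContDiff ComplexOrder Matrix Manifold
open Set MeasureTheory Filter

noncomputable section

namespace Pool.Agent.Lib.KS

open Pool.Agent.Lib.SV (E)
open Pool.Agent.Lib.HS32 Pool.Agent.Lib.HLK Pool.Agent.Lib.K3S

namespace MVS

variable {n : ℕ} {M : Mf n} {I : Type} [Fintype I]

theorem zw (hZE : ZE.St_ZE) (hDT : St_DT) [M.Cpt] (D : Dk M I) {φ : M.Fam ℝ} {c : ℝ} (hc : 0 < c)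
    (t5 : M.All fun e z => M.hw φ e z + M.ric D.H e z = c • D.T e z) : Zw D.H φ := by
  obtain ⟨D', d1, d2⟩ := hDT n M I D
  obtain ⟨a, a1, -, a3⟩ := hZE n M I D'
  rw [d1] at a3
  rw [d1, d2] at a1
  obtain ⟨C, hC⟩ := a3 (2 * n * c) (by have := D.pos; positivity)
  refine ⟨C, fun δ hδ => ?_⟩
  have p : 0 < min 1 (δ / c) := lt_min one_pos (div_pos hδ hc)
  have q := a1 _ ⟨p, min_le_left _ _⟩
  refine ⟨c * min 1 (δ / c), ⟨mul_pos hc p, (le_div_iff₀' hc).1 (min_le_right _ _)⟩,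
    fun x => c * a (min 1 (δ / c)) x, q.sm.const_mul c,
    fun x => mul_nonpos_of_nonneg_of_nonpos hc.le (q.np x), fun e h z hz => ?_,
    by simpa only [mul_assoc] using hC _ ⟨p, min_le_left _ _⟩⟩
  have r := Mf.psd_rsmul (q.kae.pos e h z hz).posSemidef hc.le
  have s := ((mLAP n M _ _ q.sm q.sm).1 c e h z hz).2.2.2.1
  simp only [Pi.add_apply, Pi.smul_apply, Pi.zero_apply, sub_zero, t5 e h z hz, s,
    smul_add, smul_smul] at r ⊢
  rwa [add_right_comm]

theorem mul (hSG : St_SG) [M.Cpt] (D : Dk M I) {L : M.Co} {φ : M.Fam ℝ} {b a k : ℕ} (b1 : 1 ≤ b)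
    (t6 : M.Ov fun e e' x => L.c e e' x * ∏ k, (D.L k).c e e' x ^ (b * D.a k) =
      (M.J e e' x).det ^ a) {V : Fin k → M.Fam (Fs n → ℂ)} (iV : Ind V)
    (hV : ∀ s, (lam D.H L φ).Sec (V s) ∧ Hol (V s)) :
    ∃ W : Fin k → M.Fam (Fs n → ℂ), Ind W ∧ ∀ s, Hol (W s) ∧ (M.Ov fun e e' x =>
      W s e (e x) = ((M.J e e' x).det ^ a)⁻¹ • La (M.J e e' x) *ᵥ W s e' (e' x)) ∧
      M.All fun e z => W s e z ≠ 0 → e.symm z ∈ KBO.of D := by
  have fh : ∀ k, M.All fun e z => HolN (D.f k e) z := fun k e he z hz =>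
    (D.hol k).hol.ev he hz
  have dn : Dense (⋂ k, {x | M.nrC (D.φ k) (D.f k) x ≠ 0}) := dense_iInter_of_isOpen
    (fun k => isOpen_ne_fun (MS.sg hSG D k).1.sm.continuous continuous_const)
    fun k => (MS.sg hSG D k).2.1
  refine ⟨fun s e z => (∏ k, D.f k e z ^ (b * D.a k)) • V s e z,
    fun c hc => iV c fun e he z hz => by_contra fun h => ?_, fun s => ⟨fun e he z hz i => ?_,
    fun e he e' he' x hx hx' => ?_, fun e he z hz h k hk => ?_⟩⟩
  · have o : IsOpen {x | x ∈ e.source ∧ ∑ s, c s • V s e (e x) ≠ 0} :=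
      isOpen_iff_mem_nhds.2 fun x hx => by
        filter_upwards [e.open_source.mem_nhds hx.1, (ContinuousAt.comp (f := e)
          (ContDiffAt.sum fun s _ => ((hV s).1.sm e he _ (e.map_source hx.1)).const_smul
            (c s)).continuousAt (e.continuousAt hx.1)).eventually_ne hx.2] with y h1 h2
          using ⟨h1, h2⟩
    obtain ⟨x, x1, x2⟩ := dn.inter_open_nonempty _ o
      ⟨e.symm z, e.map_target hz, by rwa [e.right_inv hz]⟩
    have := hc e he _ (e.map_source x1.1)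
    simp only [smul_comm (c _), ← Finset.smul_sum] at this
    refine smul_ne_zero (Finset.prod_ne_zero_iff.2 fun k _ => pow_ne_zero _ ?_) x1.2 this
    have := mem_iInter.1 x2 k
    rwa [mem_ofPred_eq, Mf.nrC_ne, (D.hol k).toSecC.ne_iff he x1.1] at this
  · filter_upwards [eventually_all.2 fun k => fh k e he z hz, (hV s).2 e he z hz i] with w h1 h2
    exact (HasFDerivAt.finsetProd fun k _ => ((h1 k).fun_pow _).hasFDerivAt).differentiableAt.mul h2
  · have h1 := (hV s).1.cmp e he e' he' x hx hx'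
    have h2 := fun k => (D.hol k).cmp e he e' he' x hx hx'
    have h3 := L.ne e he e' he' x hx hx'
    have h4 : ∏ k, (D.L k).c e e' x ^ (b * D.a k) ≠ 0 :=
      Finset.prod_ne_zero_iff.2 fun k _ => pow_ne_zero _ ((D.L k).ne e he e' he' x hx hx')
    beta_reduce at h1 h2 h3 ⊢
    rw [← t6 e he e' he' x hx hx', h1]
    simp only [lam, h2, mul_pow, Finset.prod_mul_distrib, Matrix.smul_mulVec, Matrix.mulVec_smul,
      smul_smul]
    refine congrArg (· • _) ?_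
    field_simp
  · rw [Mf.nrC_ne, (D.hol k).toSecC.ne_iff he (e.map_target hz), e.right_inv hz]
    intro c
    exact h (by
      beta_reduce
      rw [Finset.prod_eq_zero (Finset.mem_univ k) (by
        rw [c, zero_pow (Nat.mul_ne_zero (by omega) hk)]), zero_smul])

end MVS

theorem kMVS (hDIC : St_DIC) (hLWH : St_LWH) (hZE : ZE.St_ZE) (hDT : St_DT) (hKAN : K3E.St_KAN)
    (hSG : St_SG) : St_MVS := by
  intro n X ι I _ _ _ _ _ _ _ G β U f u c a h i D q d C o hq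
  have : h.M.Cpt := ⟨‹_›, ‹_›, ‹_›⟩
  obtain ⟨L, φ, A, ψ, -, -, -, t4, t5, t6⟩ := KBO.tower hKAN D
  have inj : Function.Injective fun b : ℕ => b * D.c + 1 := fun b b' h =>
    Nat.eq_of_mul_eq_mul_right D.c0 (Nat.add_right_cancel h)
  refine ⟨(D.c + 1) ^ d * C, ((hq.sdiff (finite_lt_nat 1)).image inj.injOn).mono ?_⟩
  rintro _ ⟨b, hb, rfl⟩
  have b1 : 1 ≤ b := Nat.le_of_not_lt hb.2
  obtain ⟨l1, l2⟩ := hLWH n _ D.H (L b) (φ b) D.kae (t4 b).wl
  obtain ⟨A, a1, a2⟩ := (hDIC n X ι I U u h i (b * c + 1) (fun k => -(b * a k)) (L b)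
    ⟨o.sub, fun e he e' he' x hx hx' => by
      have h4 : ∏ k, (D.L k).c e e' x ^ (b * D.a k) ≠ 0 :=
        Finset.prod_ne_zero_iff.2 fun k _ => pow_ne_zero _ ((D.L k).ne e he e' he' x hx hx')
      beta_reduce
      rw [← o.c, ← t6 b e he e' he' x hx hx', mul_assoc]
      simp only [← o.L, ← o.a, zpow_neg, ← Nat.cast_mul, zpow_natCast, Finset.prod_inv_distrib]
      rw [mul_inv_cancel₀ h4, mul_one]⟩ l1).1 q
  obtain ⟨V, v1, v2⟩ := l2 D.pos (MVS.zw hZE hDT D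
    (Nat.cast_pos.2 (Nat.mul_pos b1 D.c0)) (t5 b)) _ A a1 a2
  obtain ⟨W, w1, w2⟩ := MVS.mul hSG D b1 (t6 b) v1 v2
  refine ⟨_, W, ?_, w1, w2⟩
  rw [mul_assoc]
  refine le_trans ?_ (Nat.mul_le_mul_left _ hb.1)
  rw [← mul_pow]
  exact Nat.pow_le_pow_left (by nlinarith [D.c0]) d

end Pool.Agent.Lib.KS
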