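import Pool.Agent.Lib.KS.Blue

/-! Row TOP: semi-ampleness from the manifold layer. -/

open scoped Classical Topology ContDiff ComplexOrder Matrix Manifold
open Set MeasureTheory Filter

noncomputable section

namespace Pool.Agent.Lib.KS

open Pool.Agent.Lib.SV (E)
open Pool.Agent.Lib.HS32 Pool.Agent.Lib.HLK Pool.Agent.Lib.K3S

theorem kg (hT : St_TG) (hB : St_BR0) (hM : St_MVS) (hNU : St_NU) (hAMP : St_AMP) (hNEG : St_NEG)
    (hDIC : St_DIC) (hLWH : St_LWH) (hKAN : K3E.St_KAN) : St_KG := by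
  intro n X ι I _ _ _ _ _ _ _ G β U f u c e q d C hn hG hβ hC hA hc hN hν hq
  obtain ⟨h, i, D, o⟩ := hB n X ι I G β U f u c e hn hG hβ hC hc hN
  have : h.M.Cpt := ⟨‹_›, ‹_›, ‹_›⟩
  obtain ⟨m, m0, hm⟩ := hT n _ I D d (hM n X ι I G β U f u c e h i D q d C o hq)
    (hNU n X ι I G β U f u c e h i D d o hν)
    (hNEG n _ I D (hAMP n X ι I G β U f u c e h i D o hA))
  obtain ⟨P, χ, p1, p2, -⟩ := TW.prd D.wt (fun k => m * D.a k) Finset.univ
  have w := TW.wmu (hKAN n _ D.H (m * D.c) D.kae.toMet).1 (TW.wiv p1)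
  have dic := (hDIC n X ι I U u h i (m * c) (fun k => -(m * e k)) _
    ⟨o.sub, fun e he e' he' x hx hx' => by
      simp only [TW.sm2, TW.iv, K3E.kan, K3E.triv, Mf.Co.tw, p2, mul_one, ← o.L, ← o.a, ← o.c,
        zpow_neg, ← Nat.cast_mul, zpow_natCast, Finset.prod_inv_distrib]⟩
    (hLWH n _ D.H _ _ D.kae w).1).2
  refine ⟨m, m0, fun j x hx => ?_⟩
  obtain ⟨t, t1, t2⟩ := hm x
  obtain ⟨s, s1, s2⟩ := dic t ⟨⟨fun e he z hz => ((mHOL n _ _).2.2 (t1.hol e he z hz)).1,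
    fun e he e' he' y hy hy' => by
      have h1 := t1.cmp e he e' he' y hy hy'
      have h2 := P.ne e he e' he' y hy hy'
      simp only [Pi.zero_apply, pow_zero, Finset.prod_const_one, mul_one, ← p2] at h1
      simp only [TW.sm2, TW.iv, K3E.kan, K3E.triv, Mf.Co.tw, mul_one]
      rw [← mul_assoc, ← h1, mul_inv_cancel_right₀ h2]⟩,
    fun e he z hz => (t1.hol e he z hz).self_of_nhds⟩
  exact ⟨s, s1, fun c => t2 ((s2 j x hx).1 c)⟩

end Pool.Agent.Lib.KS
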