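import Pool.Agent.Lib.KX.Defs
import Pool.Agent.Lib.KS.B_NEG

/-! Project ks: the negativity lemma for pairs. -/

open scoped Classical Topology ContDiff ComplexOrder Matrix
open Set Filter Complex

noncomputable section

namespace Pool.Agent.Lib.KS

open Pool.Agent.Lib.SV (E)
open Pool.Agent.Lib.HS32 Pool.Agent.Lib.HS32.Mf
open Pool.Agent.Lib.K3S.TW (sm2 iv wmu wiv prd)
open Pool.Agent.Lib.KX (Pp)

variable {n : ℕ} {M : Mf n} {I : Type} [Fintype I]

/-- The hypersurfaces with `P k` are smooth, contracted, transversal in pairs, and carry a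
relatively negative divisor. -/
structure Ng (β : M.Fam (Mat n)) (f : I → M.Fam ℂ) (φ : I → M.Fam ℝ) (P : I → Prop) : Prop where
  deg : ∀ k, P k → ∀ x, ∃ e ∈ M.C, x ∈ e.source ∧ (f k e (e x) = 0 →
    fderiv ℂ (f k e) (e x) ≠ 0 ∧ ∃ v ≠ 0, fderiv ℂ (f k e) (e x) v = 0 ∧ β e (e x) *ᵥ v = 0)
  snc : ∀ j k, P j → P k → j ≠ k → ∀ x, ∃ e ∈ M.C, x ∈ e.source ∧ (f j e (e x) = 0 →
    f k e (e x) = 0 → ∃ v, fderiv ℂ (f j e) (e x) v = 0 ∧ fderiv ℂ (f k e) (e x) v ≠ 0)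
  amp : ∃ (w : I → ℕ) (g : M.X → ℝ) (C : ℝ), (∀ k, 0 < w k ↔ P k) ∧ M.Sm g ∧ M.All fun e z =>
    (C • β e z - (∑ k, (w k : ℝ) • M.hw (φ k) e z + M.hs g e z)).PosDef

/-- The exceptional part of a pair. -/
abbrev AmpP (D : Pp M I) : Prop := Ng D.β D.f D.φk fun k => 0 < D.a k

/-- Sections of `m L` with poles along the exceptional part are sections of `m L`. -/
def Neg3 (D : Pp M I) : Prop := ∀ (m : ℕ) (p : I → ℕ), (∀ k, p k ≠ 0 → 0 < D.a k) →
  ∀ t : M.Fam ℂ, (M.All fun e z => HolN (t e) z) → (M.Ov fun e e' x =>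
    t e' (e' x) = t e (e x) * (D.L.c e e' x ^ m * ∏ k, (D.Lk k).c e e' x ^ p k)) →
  ∃ s, M.HSecC (D.L.pw m) s ∧ M.All fun e z => t e z = s e z * ∏ k, D.f k e z ^ p k

namespace NEG

variable {β : M.Fam (Mat n)} {L : I → M.Co} {f : I → M.Fam ℂ} {φ : I → M.Fam ℝ} {P : I → Prop}
  {A : M.Co} {ψ : M.Fam ℝ}

theorem reg3 (h : Ng β f φ P) (hol : ∀ k, M.HSecC (L k) (f k)) {j : I} (hj : P j) :
    M.All fun e z => f j e z = 0 → fderiv ℂ (f j e) z ≠ 0 :=
  reg (hol j) fun y => (h.deg j hj y).imp fun _ t => ⟨t.1, t.2.1, fun u => (t.2.2 u).1⟩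

theorem snc3 (h : Ng β f φ P) (hol : ∀ k, M.HSecC (L k) (f k)) {j k : I} (pj : P j) (pk : P k)
    (hk : j ≠ k) (x : M.X) (hx : M.ev (f j) x = 0) :
    ∃ᶠ y in 𝓝 x, M.ev (f j) y = 0 ∧ M.ev (f k) y ≠ 0 := by
  by_cases h0 : M.ev (f k) x = 0
  swap
  · exact (frequently_pure.2 ⟨hx, h0⟩).filter_mono (pure_le_nhds x)
  obtain ⟨e, he, hxe, d⟩ := h.snc j k pj pk hk x
  have hz := e.map_source hxe
  have a := (not_iff_not.1 ((hol j).ne_iff he hxe)).1 hx
  obtain ⟨v, v1, v2⟩ := d a ((not_iff_not.1 ((hol k).ne_iff he hxe)).1 h0)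
  refine (e.tendsto_symm hxe).frequently
    (((freq ((hol j).holN e he _ hz) a (reg3 h hol pj e he _ hz a) ((hol k).holN e he _ hz) v1
      v2).and_eventually (((zi (hol j).toSecC).and (zi (hol k).toSecC)).ev he hz)).mono
        fun w t => ⟨t.2.1.2 t.1.1, mt t.2.2.1 t.1.2⟩)

theorem one3 [M.Cpt] (h : Ng β f φ P) (hol : ∀ k, M.HSecC (L k) (f k))
    (wt : ∀ k, M.WtC (L k) (φ k)) (hA : M.WtC A ψ)
    (hψ : M.All fun e z => ∀ v, β e z *ᵥ v = 0 → nl v (M.hw ψ e z) ≤ 0) {p : I → ℕ}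
    (hP : ∀ k, p k ≠ 0 → P k) (hp : p ≠ 0) {s : M.Fam ℂ} (hs : M.All fun e z => HolN (s e) z)
    (hc : M.Ov fun e e' x => s e' (e' x) =
      s e (e x) * (A.c e e' x * ∏ k, (L k).c e e' x ^ p k)) :
    ∃ j, p j ≠ 0 ∧ M.All fun e z => f j e z = 0 → s e z = 0 := by
  obtain ⟨w, g, C, w0, gs, amp⟩ := h.amp
  obtain ⟨j, pj, hj⟩ := Set.exists_max_image {k | p k ≠ 0} (fun k => (p k : ℝ) / w k)
    (Set.toFinite _) (Function.ne_iff.1 hp)
  have wj := (w0 j).2 (hP j pj)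
  have le : ∀ k, p k * w j ≤ p j * w k := fun k => by
    rcases eq_or_ne (p k) 0 with t | t
    · simp [t]
    · exact_mod_cast (div_le_div_iff₀ (Nat.cast_pos.2 ((w0 k).2 (hP k t)))
        (Nat.cast_pos.2 wj)).1 (hj k t)
  obtain ⟨W, χ, p1, p2, p3⟩ := prd wt w Finset.univ
  obtain ⟨q1, q2⟩ := p1.addF gs
  obtain ⟨a1, a2⟩ := hA.pw (w j)
  obtain ⟨b1, b2⟩ := q1.pw (p j)
  have hH : M.All fun e z =>
      HolN (fun y => s e y ^ w j * ∏ k, f k e y ^ (p j * w k - p k * w j)) z :=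
    fun e he z hz => ((hs e he z hz).and (eventually_all.2 fun k =>
      (hol k).holN e he z hz)).mono fun y t => (t.1.fun_pow _).fun_mul
        (HasFDerivAt.finsetProd fun k _ => ((t.2 k).fun_pow _).hasFDerivAt).differentiableAt
  have hS : M.HSecC (sm2 (A.pw (w j)) (W.pw (p j)))
      fun e z => s e z ^ w j * ∏ k, f k e z ^ (p j * w k - p k * w j) := by
    refine ⟨⟨fun e he z hz => ((mHOL n _ _).2.2 (hH e he z hz)).1,
      fun e he e' he' x hx hx' => ?_⟩, fun e he z hz => (hH e he z hz).self_of_nhds⟩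
    have t1 := hc e he e' he' x hx hx'
    have t2 := fun k => (hol k).cmp e he e' he' x hx hx'
    have t3 : (∏ k, (L k).c e e' x ^ w k) ^ p j = (∏ k, (L k).c e e' x ^ p k) ^ w j *
        ∏ k, (L k).c e e' x ^ (p j * w k - p k * w j) := by
      simp only [← Finset.prod_pow, ← Finset.prod_mul_distrib, ← pow_mul, ← pow_add,
        Nat.add_sub_cancel' (le _)]
      simp only [mul_comm]
    beta_reduce at t1 t2 ⊢
    simp only [sm2, Co.pw, p2, t1, t2, t3, mul_pow, Finset.prod_mul_distrib]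
    ring
  have v := van (hol j) (wt j) hS (wmu a1 b1) fun x hx => by
    obtain ⟨e, he, hxe, d⟩ := h.deg j (hP j pj) x
    have hz := e.map_source hxe
    obtain ⟨d1, v, v0, v1, v2⟩ := d ((not_iff_not.1 ((hol j).ne_iff he hxe)).1 hx)
    refine ⟨e, he, hxe, d1, v, v1, show nl v _ < 0 from ?_⟩
    have k : 0 < nl v _ := (Complex.pos_iff.1 ((amp e he _ hz).dotProduct_mulVec_pos v0)).1
    rw [map_sub, map_smul, nl0 v2, smul_zero, zero_sub, neg_pos] at k
    rw [hw_add (a1.sm e he _ hz) (b1.sm e he _ hz), a2 e he _ hz, b2 e he _ hz, q2 e he _ hz,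
      p3 e he _ hz, map_add, map_smul, map_smul]
    exact add_neg_of_nonpos_of_neg
      (mul_nonpos_of_nonneg_of_nonpos (Nat.cast_nonneg _) (hψ e he _ hz v v2))
      (mul_neg_of_pos_of_neg (Nat.cast_pos.2 (Nat.pos_of_ne_zero pj)) k)
  obtain ⟨R, ρ, r1, r2, -⟩ := prd wt p Finset.univ
  have hs' : M.SecC (sm2 A R) s := ⟨fun e he z hz => ((mHOL n _ _).2.2 (hs e he z hz)).1,
    fun e he e' he' x hx hx' => by simpa only [sm2, r2] using hc e he e' he' x hx hx'⟩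
  refine ⟨j, pj, fun e he z hz h0 => (zi hs' e he z hz).1 ((cl (wmu hA r1) hs').closure_subset
    (mem_closure_iff_frequently.2 ((dens (fun k => cl (wt k) (hol k).toSecC)
      (Finset.univ.filter fun k => P k ∧ j ≠ k) (fun k hk => snc3 h hol (hP j pj)
        (Finset.mem_filter.1 hk).2.1 (Finset.mem_filter.1 hk).2.2) _
      ((zi (hol j).toSecC e he z hz).2 h0)).mono fun y hy => ?_)))⟩
  refine eq_zero_of_pow_eq_zero ((mul_eq_zero.1 (v y hy.1)).resolve_right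
    (Finset.prod_ne_zero_iff.2 fun k _ => ?_))
  by_cases t : P k ∧ j ≠ k
  · exact pow_ne_zero _ (hy.2 k (Finset.mem_filter.2 ⟨Finset.mem_univ k, t⟩))
  · have : p j * w k - p k * w j = 0 := by
      rcases eq_or_ne j k with rfl | u
      · exact Nat.sub_self _
      · rw [Nat.eq_zero_of_not_pos fun a => t ⟨(w0 k).1 a, u⟩, mul_zero, Nat.zero_sub]
    rw [this, pow_zero]
    exact one_ne_zero

theorem ind3 [M.Cpt] (h : Ng β f φ P) (hol : ∀ k, M.HSecC (L k) (f k))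
    (wt : ∀ k, M.WtC (L k) (φ k)) (hA : M.WtC A ψ)
    (hψ : M.All fun e z => ∀ v, β e z *ᵥ v = 0 → nl v (M.hw ψ e z) ≤ 0) (N : ℕ) :
    ∀ (p : I → ℕ) (s : M.Fam ℂ), ∑ k, p k = N → (∀ k, p k ≠ 0 → P k) →
      (M.All fun e z => HolN (s e) z) →
      (M.Ov fun e e' x => s e' (e' x) = s e (e x) * (A.c e e' x * ∏ k, (L k).c e e' x ^ p k)) →
      ∃ s', M.HSecC A s' ∧ M.All fun e z => s e z = s' e z * ∏ k, f k e z ^ p k := by
  induction N with
  | zero =>
    intro p s hp _ hs hc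
    have z : ∀ k, p k = 0 := fun k => Finset.sum_eq_zero_iff.1 hp k (Finset.mem_univ k)
    simp only [z, pow_zero, Finset.prod_const_one, mul_one] at hc ⊢
    exact ⟨s, ⟨⟨fun e he z hz => ((mHOL n _ _).2.2 (hs e he z hz)).1, hc⟩,
      fun e he z hz => (hs e he z hz).self_of_nhds⟩, fun _ _ _ _ => rfl⟩
  | succ N ih =>
    intro p s hp hP hs hc
    obtain ⟨j, pj, hv⟩ := one3 h hol wt hA hψ hP (by rintro rfl; simp at hp) hs hc
    obtain ⟨q, rfl⟩ : ∃ q, p = q + Pi.single j 1 := ⟨p - Pi.single j 1, (tsub_add_cancel_of_le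
      fun k => by
        rcases eq_or_ne k j with rfl | t
        · simpa using Nat.one_le_iff_ne_zero.2 pj
        · simp [t]).symm⟩
    have t : ∀ g : I → ℂ,
        ∏ k, g k ^ (q + Pi.single j 1 : I → ℕ) k = (∏ k, g k ^ q k) * g j := fun g => by
      simp only [Pi.add_apply, pow_add, Finset.prod_mul_distrib]
      simp [Pi.single_apply]
    obtain ⟨R, ρ, r1, r2, -⟩ := prd wt q Finset.univ
    obtain ⟨s1, a1, a2⟩ := div (B := sm2 A R) (hol j) (reg3 h hol (hP j pj)) hs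
      (fun e he e' he' x hx hx' => by
        simpa only [sm2, r2, t, mul_assoc] using hc e he e' he' x hx hx') hv
    obtain ⟨s', b1, b2⟩ := ih q s1 (by simpa [Finset.sum_add_distrib] using hp)
      (fun k hk => hP k fun a => hk (Nat.eq_zero_of_add_eq_zero_right a)) a1.holN
      fun e he e' he' x hx hx' => by simpa only [sm2, r2] using a1.cmp e he e' he' x hx hx'
    refine ⟨s', b1, fun e he z hz => ?_⟩
    beta_reduce
    rw [t, a2 e he z hz, b2 e he z hz, mul_assoc]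

end NEG

open NEG in
theorem neg3 [M.Cpt] (D : Pp M I) (h : AmpP D) : Neg3 D := fun m p hp t ht hc => by
  obtain ⟨g, C, -, gs, -, le⟩ := D.nef 1 one_pos
  obtain ⟨q1, q2⟩ := D.wL.addF (gs.const_mul (D.c : ℝ))
  obtain ⟨r1, r2⟩ := q1.pw m
  refine ind3 h D.hol D.wt r1 (fun e he z hz v hv => ?_) _ p t rfl hp ht hc
  have k : 0 ≤ nl v _ := (Complex.nonneg_iff.1 ((le e he z hz).dotProduct_mulVec_nonneg v)).1
  rw [r2 e he z hz, q2 e he z hz, D.cur e he z hz, ((mLAP n M g g gs gs).1 _ e he z hz).2.2.2.1]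
  simp only [Pi.add_apply, Pi.smul_apply, map_add, map_sub, map_smul, nl0 hv, smul_eq_mul] at k ⊢
  rw [← mul_add]
  exact mul_nonpos_of_nonneg_of_nonpos (Nat.cast_nonneg _)
    (mul_nonpos_of_nonneg_of_nonpos (Nat.cast_nonneg _) (by linarith))

end Pool.Agent.Lib.KS
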