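import Pool.Agent.Lib.KS.SDefs2
import Pool.Agent.Lib.KS.Neg3

/-! Project ks: the statements for pairs. Blueprint. -/

open scoped Classical Topology ContDiff ComplexOrder Matrix Manifold
open Set MeasureTheory Filter

set_option linter.unusedVariables false

noncomputable section

namespace Pool.Agent.Lib.KS

open Pool.Agent.Lib.SV (E)
open Pool.Agent.Lib.HS (Mat)
open Pool.Agent.Lib.HS32 hiding Mat
open Pool.Agent.Lib.GH (Kaehler)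
open Pool.Agent.Lib.ZK47 (KltR)
open Pool.Agent.Lib.ZE (BigForm Exc NefW)
open Pool.Agent.Lib.RB.R32 (fam)
open Pool.Agent.Lib.KX (Pp Mv3)

/-- The Kodaira dimension of a pair; `L = c K + ∑ p k D k - ∑ e j E j`. -/
def St_PK : Prop := ∀ (n : ℕ) (X ι I J : Type) [TopologicalSpace X] [ChartedSpace (E n) X]
  [IsManifold 𝓘(ℂ, E n) ω X] [CompactSpace X] [T2Space X] [ConnectedSpace X] [Fintype I]
  [Fintype J] (G w : X → Mat n) (U : ι → Set X) (f : I → ι → X → ℂ) (u : I → ι → ι → X → ℂ)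
  (g : J → ι → X → ℂ) (v : J → ι → ι → X → ℂ) (c : ℕ) (p : I → ℕ) (e : J → ℕ) (q d C : ℕ),
  0 < n → Kaehler G → BigForm n w → 0 < c → KltR n U f u (fun k => p k / c) →
  Exc n w U g v (fun j => e j / c) → Amp U v w g →
  NefW n G w U (Sum.elim u v) (fun k => cf p e k / c) →
  {a : ℕ | (a + 1) ^ d ≤ C * hq n U (Sum.elim u v) (a * c + 1) (a * cf p e ·) q}.Infinite →
  ∃ C' : ℕ, {m : ℕ | ∃ (k : ℕ) (s : Fin k → _), (m + 1) ^ d ≤ C' * k ∧ LinearIndependent ℂ s ∧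
    ∀ j, s j ∈ Cl n U (Sum.elim u v) (m * c) (m * cf p e ·) 0}.Infinite

/-- Semi-ampleness for a pair. -/
def St_PG : Prop := ∀ (n : ℕ) (X ι I J : Type) [TopologicalSpace X] [ChartedSpace (E n) X]
  [IsManifold 𝓘(ℂ, E n) ω X] [CompactSpace X] [T2Space X] [ConnectedSpace X] [Fintype I]
  [Fintype J] (G w : X → Mat n) (U : ι → Set X) (f : I → ι → X → ℂ) (u : I → ι → ι → X → ℂ)
  (g : J → ι → X → ℂ) (v : J → ι → ι → X → ℂ) (c : ℕ) (p : I → ℕ) (e : J → ℕ) (q d C : ℕ),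
  0 < n → Kaehler G → BigForm n w → 0 < c → KltR n U f u (fun k => p k / c) →
  Exc n w U g v (fun j => e j / c) → Amp U v w g →
  NefW n G w U (Sum.elim u v) (fun k => cf p e k / c) →
  NuLe U (Sum.elim u v) G (fun k => cf p e k / c) d →
  {a : ℕ | (a + 1) ^ d ≤ C * hq n U (Sum.elim u v) (a * c + 1) (a * cf p e ·) q}.Infinite →
  ∃ m : ℕ, 0 < m ∧ ∀ i, ∀ x ∈ U i,
    ∃ s ∈ Cl n U (Sum.elim u v) (m * c) (m * cf p e ·) 0, s i x ≠ 0

/-- The numerical dimension is at most `d`. -/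
def Nu3 {n : ℕ} {M : Mf n} {I : Type} [Fintype I] (D : Pp M I) (d : ℕ) : Prop :=
  ∃ C : ℝ, ∀ ε ∈ Ioc (0 : ℝ) 1, ∫ x, M.dq D.H (D.T + ε • D.H) x ∂M.mu D.H ≤ C * ε ^ (n - d)

/-- The trunk: the Kodaira dimension. -/
def St_TK3 : Prop := ∀ (n : ℕ) (M : Mf n) [M.Cpt] (I : Type) [Fintype I] (D : Pp M I) (d : ℕ),
  Mv3 D.L d → Neg3 D → ∃ C : ℕ, {m : ℕ | ∃ (k : ℕ) (t : Fin k → M.Fam ℂ), (m + 1) ^ d ≤ C * k ∧
    Ind t ∧ ∀ s, M.HSecC (D.L.pw m) (t s)}.Infinite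

/-- The trunk: semi-ampleness. -/
def St_TG3 : Prop := ∀ (n : ℕ) (M : Mf n) [M.Cpt] (I : Type) [Fintype I] (D : Pp M I) (d : ℕ),
  Mv3 D.L d → Nu3 D d → Neg3 D → ∃ m, 0 < m ∧ ∀ x, ∃ t, M.HSecC (D.L.pw m) t ∧ M.ev t x ≠ 0

/-- The data of a pair on the manifold layer, with their origin. -/
structure Org3 {n : ℕ} {X ι I : Type} [TopologicalSpace X] [ChartedSpace (E n) X]
    [IsManifold 𝓘(ℂ, E n) ω X] [Fintype I] {U : ι → Set X} {u : I → ι → ι → X → ℂ} (h : Cv n U u)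
    (G β : X → Mat n) (f : I → ι → X → ℂ) (c : ℕ) (b : I → ℤ)
    (i : OpenPartialHomeomorph X (E n) → ι) (D : Pp h.M I) : Prop where
  is : h.Is i c b D.L
  H : D.H = fam G
  β : D.β = fam β
  c : D.c = c
  a : ∀ k, D.a k = -b k
  L : ∀ k e e' x, (D.Lk k).c e e' x = u k (i e') (i e) x
  f : ∀ k (e : OpenPartialHomeomorph X (E n)) z, D.f k e z = f k (i e) (e.symm z)

/-- The data. -/
def St_BR3 : Prop := ∀ (n : ℕ) (X ι I J : Type) [TopologicalSpace X] [ChartedSpace (E n) X]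
  [IsManifold 𝓘(ℂ, E n) ω X] [CompactSpace X] [T2Space X] [ConnectedSpace X] [Fintype I]
  [Fintype J] (G w : X → Mat n) (U : ι → Set X) (f : I → ι → X → ℂ) (u : I → ι → ι → X → ℂ)
  (g : J → ι → X → ℂ) (v : J → ι → ι → X → ℂ) (c : ℕ) (p : I → ℕ) (e : J → ℕ),
  0 < n → Kaehler G → BigForm n w → 0 < c → KltR n U f u (fun k => p k / c) →
  Exc n w U g v (fun j => e j / c) → NefW n G w U (Sum.elim u v) (fun k => cf p e k / c) →
  ∃ (h : Cv n U (Sum.elim u v)) (i : _) (D : _), Org3 h G w (Sum.elim f g) c (cf p e) i D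

/-- The exceptional part. -/
def St_AM3 : Prop := ∀ (n : ℕ) (X ι I J : Type) [TopologicalSpace X] [ChartedSpace (E n) X]
  [IsManifold 𝓘(ℂ, E n) ω X] [Fintype I] [Fintype J] (G w : X → Mat n) (U : ι → Set X)
  (f : I → ι → X → ℂ) (u : I → ι → ι → X → ℂ) (g : J → ι → X → ℂ) (v : J → ι → ι → X → ℂ) (c : ℕ)
  (p : I → ℕ) (e : J → ℕ) (h : Cv n U (Sum.elim u v)) (i : _) (D : _),
  Org3 h G w (Sum.elim f g) c (cf p e) i D → Exc n w U g v (fun j => e j / c) → Amp U v w g →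
  AmpP D

/-- The volume. -/
def St_NU3 : Prop := ∀ (n : ℕ) (X ι I : Type) [TopologicalSpace X] [ChartedSpace (E n) X]
  [IsManifold 𝓘(ℂ, E n) ω X] [CompactSpace X] [T2Space X] [ConnectedSpace X] [Fintype I]
  (G β : X → Mat n) (U : ι → Set X) (f : I → ι → X → ℂ) (u : I → ι → ι → X → ℂ) (c : ℕ)
  (b : I → ℤ) (h : Cv n U u) (i : _) (D : _) (d : ℕ), Org3 h G β f c b i D →
  NuLe U u G (fun k => b k / c) d → Nu3 D d

/-- The multivectors. -/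
def St_MV3 : Prop := ∀ (n : ℕ) (X ι I : Type) [TopologicalSpace X] [ChartedSpace (E n) X]
  [IsManifold 𝓘(ℂ, E n) ω X] [CompactSpace X] [T2Space X] [ConnectedSpace X] [Fintype I]
  (G β : X → Mat n) (U : ι → Set X) (f : I → ι → X → ℂ) (u : I → ι → ι → X → ℂ) (c : ℕ)
  (b : I → ℤ) (h : Cv n U u) (i : _) (D : _) (q d C : ℕ), Org3 h G β f c b i D →
  {a : ℕ | (a + 1) ^ d ≤ C * hq n U u (a * c + 1) (a * b ·) q}.Infinite → Mv3 D.L d

/-- Holomorphic sections. -/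
def St_H0 : Prop := ∀ (n : ℕ) (X ι I : Type) [TopologicalSpace X] [ChartedSpace (E n) X]
  [IsManifold 𝓘(ℂ, E n) ω X] [Fintype I] (U : ι → Set X) (u : I → ι → ι → X → ℂ) (h : Cv n U u)
  (i : OpenPartialHomeomorph X (E n) → ι) (m : ℕ) (p : I → ℤ) (L : h.M.Co), h.Is i m p L →
  (∀ A, Lw L A → Lw L fun e => fq (A e)) → ∀ (k : ℕ) (t : Fin k → h.M.Fam ℂ), Ind t →
  (∀ s, h.M.HSecC L (t s)) → ∃ s : Fin k → _, LinearIndependent ℂ s ∧ ∀ j, s j ∈ Cl n U u m p 0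

theorem Cv.Is.pw {n : ℕ} {X ι I : Type} [TopologicalSpace X] [ChartedSpace (E n) X]
    [IsManifold 𝓘(ℂ, E n) ω X] [Fintype I] {U : ι → Set X} {u : I → ι → ι → X → ℂ} {h : Cv n U u}
    {i : OpenPartialHomeomorph X (E n) → ι} {c : ℕ} {b : I → ℤ} {L : h.M.Co} (o : h.Is i c b L)
    (m : ℕ) : h.Is i (m * c) (m * b ·) (L.pw m) := ⟨o.sub, fun e he e' he' x hx hx' => by
  simp only [Mf.Co.pw, o.eq e he e' he' x hx hx', mul_pow, ← Finset.prod_pow, ← pow_mul,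
    mul_comm (m : ℤ), zpow_mul, zpow_natCast, mul_comm m]⟩

theorem pk3 (hT : St_TK3) (hB : St_BR3) (hA : St_AM3) (hM : St_MV3) (hH : St_H0)
    (hLWH : St_LWH) : St_PK := by
  intro n X ι I J _ _ _ _ _ _ _ _ G w U f u g v c p e q d C hn hG hw hc hK hE hP hN hq
  obtain ⟨h, i, D, o⟩ := hB n X ι I J G w U f u g v c p e hn hG hw hc hK hE hN
  have : h.M.Cpt := ⟨‹_›, ‹_›, ‹_›⟩
  obtain ⟨C', h'⟩ := hT n _ _ D d (hM n X ι _ G w U _ _ c _ h i D q d C o hq)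
    (neg3 D (hA n X ι I J G w U f u g v c p e h i D o hE hP))
  refine ⟨C', h'.mono ?_⟩
  rintro m ⟨k, t, t1, t2, t3⟩
  obtain ⟨s, s1, s2⟩ := hH n X ι _ U _ h i _ _ _ (o.is.pw m)
    (hLWH n _ D.H _ _ D.kae (D.wL.pw m).1).1 k t t2 t3
  exact ⟨k, s, t1, s1, s2⟩

theorem pg3 (hT : St_TG3) (hB : St_BR3) (hA : St_AM3) (hM : St_MV3) (hNU : St_NU3)
    (hDIC : St_DIC) (hLWH : St_LWH) : St_PG := by
  intro n X ι I J _ _ _ _ _ _ _ _ G w U f u g v c p e q d C hn hG hw hc hK hE hP hN hν hq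
  obtain ⟨h, i, D, o⟩ := hB n X ι I J G w U f u g v c p e hn hG hw hc hK hE hN
  have : h.M.Cpt := ⟨‹_›, ‹_›, ‹_›⟩
  obtain ⟨m, m0, hm⟩ := hT n _ _ D d (hM n X ι _ G w U _ _ c _ h i D q d C o hq)
    (hNU n X ι _ G w U _ _ c _ h i D d o hν)
    (neg3 D (hA n X ι I J G w U f u g v c p e h i D o hE hP))
  refine ⟨m, m0, fun j x hx => ?_⟩
  obtain ⟨t, t1, t2⟩ := hm x
  obtain ⟨s, s1, s2⟩ := (hDIC n X ι _ U _ h i _ _ _ (o.is.pw m)
    (hLWH n _ D.H _ _ D.kae (D.wL.pw m).1).1).2 t t1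
  exact ⟨s, s1, fun c => t2 ((s2 j x hx).1 c)⟩

end Pool.Agent.Lib.KS
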