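import Pool.Agent.Lib.KP.B_REX

/-! Project ks: smooth hypersurfaces in coordinates. -/

open scoped Classical Topology ContDiff ComplexOrder Matrix
open Set Filter Complex

noncomputable section

namespace Pool.Agent.Lib.KS.NEG

open Pool.Agent.Lib.SV (E)
open Pool.Agent.Lib.HS32

variable {n : ℕ} {f s : E n → ℂ} {z : E n}

/-- Coordinates in which `f` is linear. -/
theorem str (hf : HolN f z) (h0 : f z = 0) (h1 : fderiv ℂ f z ≠ 0) :
    ∃ (G F : E n → E n) (w : E n), fderiv ℂ f z w = 1 ∧ ContDiffAt ℂ 1 G 0 ∧ G 0 = z ∧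
      HasFDerivAt G (ContinuousLinearMap.id ℂ (E n)) 0 ∧
      (∀ᶠ y in 𝓝 0, f (G y) = fderiv ℂ f z y) ∧ Tendsto F (𝓝 z) (𝓝 0) ∧
      ∀ᶠ y in 𝓝 z, G (F y) = y := by
  obtain ⟨w, hw⟩ : ∃ w, fderiv ℂ f z w = 1 := by
    obtain ⟨v, hv⟩ := DFunLike.ne_iff.1 h1
    exact ⟨(fderiv ℂ f z v)⁻¹ • v, by rw [map_smul, smul_eq_mul, inv_mul_cancel₀ hv]⟩
  obtain ⟨U, ho, hz, hU⟩ := BHOL.smoothC hf
  have c : ContDiffAt ℂ 1 f z := (hU.contDiffAt (ho.mem_nhds hz)).of_le (by simp)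
  generalize hl : fderiv ℂ f z = l at hw
  have d : HasFDerivAt f l z := hl ▸ hf.self_of_nhds.hasFDerivAt
  let F : E n → E n := fun y => y - z + (f y - l (y - z)) • w
  have cF : ContDiffAt ℂ 1 F z := (contDiffAt_id.sub contDiffAt_const).add
    ((c.sub (l.contDiff.contDiffAt.comp z (contDiffAt_id.sub contDiffAt_const))).smul
      contDiffAt_const)
  have dF : HasFDerivAt F
      ((ContinuousLinearEquiv.refl ℂ (E n) : E n ≃L[ℂ] E n) : E n →L[ℂ] E n) z := by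
    have t := ((hasFDerivAt_id z).sub_const z).add ((d.sub (l.hasFDerivAt.comp z
      ((hasFDerivAt_id z).sub_const z))).smul_const w)
    refine (t.congr_fderiv ?_ :)
    ext1 y
    simp
  have F0 : F z = 0 := by simp [F, h0]
  have s1 := cF.hasStrictFDerivAt' dF one_ne_zero
  refine ⟨cF.localInverse dF one_ne_zero, F, w, hw, F0 ▸ cF.to_localInverse dF one_ne_zero,
    F0 ▸ cF.localInverse_apply_image dF one_ne_zero,
    F0 ▸ (s1.to_localInverse.hasFDerivAt :), ?_, F0 ▸ cF.continuousAt.tendsto,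
    s1.eventually_left_inverse⟩
  filter_upwards [F0 ▸ s1.eventually_right_inverse] with y hy
  have e := congrArg l hy
  simp only [F, map_add, map_smul, hw, smul_eq_mul, mul_one, add_sub_cancel] at e
  exact e

/-- A holomorphic map into the hypersurface whose derivative is a projection on the tangent
space. -/
theorem prj (hf : HolN f z) (h0 : f z = 0) (h1 : fderiv ℂ f z ≠ 0) :
    ∃ ψ : E n → E n, HolN ψ 0 ∧ ψ 0 = z ∧ (∀ᶠ y in 𝓝 0, f (ψ y) = 0) ∧
      ∀ v, fderiv ℂ f z v = 0 → fderiv ℂ ψ 0 v = v := by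
  obtain ⟨G, -, w, hw, cG, G0, dG, hG, -⟩ := str hf h0 h1
  let P : E n →L[ℂ] E n := ContinuousLinearMap.id ℂ _ - (fderiv ℂ f z).smulRight w
  have tP : Tendsto P (𝓝 0) (𝓝 0) := P.continuous.tendsto' 0 0 P.map_zero
  refine ⟨G ∘ P, ?_, by simp [G0], (tP.eventually hG).mono fun y hy => ?_, fun v hv => ?_⟩
  · exact (tP.eventually (cG.eventually (by simp))).mono fun y hy =>
      (hy.differentiableAt one_ne_zero).comp y P.differentiableAt
  · rw [Function.comp_apply, hy]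
    simp [P, hw]
  · rw [((P.map_zero.symm ▸ dG :).comp 0 P.hasFDerivAt).fderiv]
    simp [P, hv]

/-- The Levi form at a maximum along the hypersurface. -/
theorem levi (hf : HolN f z) (h0 : f z = 0) (h1 : fderiv ℂ f z ≠ 0) {u : E n → ℝ}
    (hu : ContDiffAt ℝ ∞ u z) (hm : ∀ᶠ y in 𝓝 z, f y = 0 → u y ≤ u z) {v : E n}
    (hv : fderiv ℂ f z v = 0) : nq (hess (fun w => (u w : ℂ)) z) v ≤ 0 := by
  obtain ⟨ψ, hψ, rfl, p, d⟩ := prj hf h0 h1
  obtain ⟨c1, -, -, -, -, c6, -, -, -, -, -, c12⟩ := mCHN n _ _ hψ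
  have q : IsLocalMax (u ∘ ψ) 0 := by
    filter_upwards [p, c1.continuousAt.eventually hm] with y h2 h3 using h3 h2
  have m := (mMAXE n (u ∘ ψ) 0 (hu.comp 0 c1) q).1
  have e := c12 (fun w => (u w : ℂ)) (cd_ofReal hu)
  have k := (Complex.nonneg_iff.1 (m.dotProduct_mulVec_nonneg v)).1
  rw [Matrix.neg_mulVec, dotProduct_neg, neg_re, neg_nonneg] at k
  rw [← d v hv, c6, ← BBD.nq_conj, ← e]
  exact k

/-- A transverse hypersurface does not contain the hypersurface. -/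
theorem freq (hf : HolN f z) (h0 : f z = 0) (h1 : fderiv ℂ f z ≠ 0) (hs : HolN s z) {v : E n}
    (hv : fderiv ℂ f z v = 0) (hv' : fderiv ℂ s z v ≠ 0) : ∃ᶠ y in 𝓝 z, f y = 0 ∧ s y ≠ 0 := by
  obtain ⟨ψ, hψ, rfl, p, d⟩ := prj hf h0 h1
  refine fun h => hv' ?_
  have e : s ∘ ψ =ᶠ[𝓝 0] fun _ => 0 :=
    (p.and (hψ.self_of_nhds.continuousAt.eventually h)).mono fun y hy =>
      not_not.1 fun k => hy.2 ⟨hy.1, k⟩
  have k := congrArg (· v) (e.fderiv_eq (𝕜 := ℂ))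
  simp only [fderiv_comp _ hs.self_of_nhds hψ.self_of_nhds, ContinuousLinearMap.comp_apply,
    d v hv] at k
  simpa using k

theorem fr_ne (h : f z = 0 → fderiv ℂ f z ≠ 0) : ∃ᶠ y in 𝓝 z, f y ≠ 0 := fun k => by
  have e : f =ᶠ[𝓝 z] fun _ => 0 := k.mono fun y hy => not_not.1 hy
  exact h e.self_of_nhds (by rw [e.fderiv_eq, fderiv_fun_const]; rfl)

/-- Division by the equation of the hypersurface. -/
theorem dvd (hf : HolN f z) (h1 : f z = 0 → fderiv ℂ f z ≠ 0) (hs : HolN s z)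
    (hv : ∀ᶠ y in 𝓝 z, f y = 0 → s y = 0) : ∃ u, HolN u z ∧ ∀ᶠ y in 𝓝 z, s y = u y * f y := by
  by_cases h0 : f z = 0
  swap
  · have k := hf.self_of_nhds.continuousAt.eventually_ne h0
    exact ⟨fun y => s y * (f y)⁻¹, ((hs.and hf).and k).mono fun y h =>
      h.1.1.fun_mul (h.1.2.fun_inv h.2), k.mono fun y h => (inv_mul_cancel_right₀ h _).symm⟩
  obtain ⟨G, F, w, hw, cG, rfl, -, hG, tF, hF⟩ := str hf h0 (h1 h0)
  obtain ⟨U, ho, hz, hU⟩ := BHOL.smoothC hs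
  obtain ⟨K, t, ht, hK⟩ := ((((hU.contDiffAt (ho.mem_nhds hz)).of_le (m := 1) (by simp)).comp 0
    cG).restrict_scalars ℝ).exists_lipschitzOnWith
  let P : E n →L[ℂ] E n := ContinuousLinearMap.id ℂ _ - (fderiv ℂ f (G 0)).smulRight w
  have tP : Tendsto P (𝓝 0) (𝓝 0) := P.continuous.tendsto' 0 0 P.map_zero
  refine KP.st_REX n s f _ (K * ‖w‖) hs hf ?_ (fr_ne h1)
  filter_upwards [hF, tF.eventually ((hG.and ht).and (tP.eventually
    ((hG.and ht).and (cG.continuousAt.eventually hv))))] with y h2 ⟨h3, h4, h5⟩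
  have k := hK.norm_sub_le h3.2 h4.2
  rw [Function.comp_apply, Function.comp_apply, h5 (by rw [h4.1]; simp [P, hw]), h2, sub_zero] at k
  rw [h2] at h3
  simpa [P, ← h3.1, norm_smul, mul_comm, mul_left_comm] using k

end Pool.Agent.Lib.KS.NEG
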