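import Pool.Agent.Lib.KS.SDefs
import Pool.Agent.Lib.ZE.SDefs

/-! Definition used in the statement: the coefficients of a difference of two divisors. -/

namespace Pool.Agent.Lib.KS

/-- The coefficients of `∑ p k D k - ∑ e j E j`. -/
def cf {I J : Type} (p : I → ℕ) (e : J → ℕ) : I ⊕ J → ℤ := Sum.elim (p ·) fun j => -e j

end Pool.Agent.Lib.KS
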