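import Pool.Agent.Lib.KS.SDefs2

/-! Definition used in the statement: the dimension of a Dolbeault group. -/

noncomputable section

namespace Pool.Agent.Lib.KS

open Pool.Agent.Lib.SV

/-- The dimension of the image of the span of `A` in the quotient by the span of `B`. -/
def qd {V : Type} [AddCommGroup V] [Module ℂ V] (A B : Set V) : ℕ :=
  Module.finrank ℂ ((Submodule.span ℂ A).map (Submodule.span ℂ B).mkQ)

/-- The dimension of the Dolbeault group `H^q (X, m K + ∑ p k D k)`: closed modulo exact forms. -/
def hd (n : ℕ) {X ι I : Type} [TopologicalSpace X] [ChartedSpace (E n) X] [Fintype I]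
    (U : ι → Set X) (u : I → ι → ι → X → ℂ) (m : ℕ) (p : I → ℤ) (q : ℕ) : ℕ :=
  qd (Cl n U u m p q) (Ex n U u m p q)

end Pool.Agent.Lib.KS
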