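import Pool.Agent.Lib.KS.SDefs

/-! Project ks: the statements. -/

open scoped Manifold ContDiff Topology

namespace Pool.Agent.Lib.KS

open Pool.Agent.Lib.SV Pool.Agent.Lib.HS Pool.Agent.Lib.GH Pool.Agent.Lib.K3S

/-- The Kodaira dimension; `c K = L + ∑ e k D k`. -/
def St_KK : Prop := ∀ (n : ℕ) (X ι I : Type) [TopologicalSpace X] [ChartedSpace (E n) X]
  [IsManifold 𝓘(ℂ, E n) ω X] [CompactSpace X] [T2Space X] [ConnectedSpace X] [Fintype I]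
  (G β : X → Mat n) (U : ι → Set X) (f : I → ι → X → ℂ) (u : I → ι → ι → X → ℂ) (c : ℕ)
  (e : I → ℕ) (q d C : ℕ), 0 < n → Kaehler G → Semi n G β → Ctr n β U f u → 0 < c →
  NefW n G β U u (fun k => -(e k / c)) →
  {a : ℕ | (a + 1) ^ d ≤ C * hq n U u (a * c + 1) (fun k => -(a * e k)) q}.Infinite →
  ∃ C' : ℕ, {m : ℕ | ∃ (k : ℕ) (s : Fin k → X → ℂ), (m + 1) ^ d ≤ C' * k ∧
    LinearIndependent ℂ s ∧ ∀ j, s j ∈ Pluri n X m}.Infinite

/-- Semi-ampleness. -/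
def St_KG : Prop := ∀ (n : ℕ) (X ι I : Type) [TopologicalSpace X] [ChartedSpace (E n) X]
  [IsManifold 𝓘(ℂ, E n) ω X] [CompactSpace X] [T2Space X] [ConnectedSpace X] [Fintype I]
  (G β : X → Mat n) (U : ι → Set X) (f : I → ι → X → ℂ) (u : I → ι → ι → X → ℂ) (c : ℕ)
  (e : I → ℕ) (q d C : ℕ), 0 < n → Kaehler G → Semi n G β → Ctr n β U f u → Amp U u β f → 0 < c →
  NefW n G β U u (fun k => -(e k / c)) → NuLe U u G (fun k => -(e k / c)) d →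
  {a : ℕ | (a + 1) ^ d ≤ C * hq n U u (a * c + 1) (fun k => -(a * e k)) q}.Infinite →
  ∃ m : ℕ, 0 < m ∧ ∀ i, ∀ x ∈ U i, ∃ s ∈ Cl n U u (m * c) (fun k => -(m * e k)) 0, s i x ≠ 0

end Pool.Agent.Lib.KS
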