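import Pool.Agent.Lib.KS.All3
import Pool.Agent.Lib.KX.All
import Pool.Agent.Lib.KU.All
import Pool.Agent.Lib.K5.All

/-! Project ks: the two theorems for pairs. -/

namespace Pool.Agent.Lib.KS

theorem aPK : St_PK := pk (KX.aTK HS21.st_AUBIN) KU.aK6

theorem aPG : St_PG := pg (KX.aTK HS21.st_AUBIN) (K5.aK5 KU.aK6 KU.aTR)

end Pool.Agent.Lib.KS
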